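import Mathlib

set_option autoImplicit false

namespace Pool.Agent.H66.Disc

open Real Set Filter Topology

/-- The cosine `(s² + t² - c²) / (2 s t)`. -/
noncomputable def u (c s t : ℝ) : ℝ := (s ^ 2 + t ^ 2 - c ^ 2) / (2 * s * t)

/-- `π` times the kernel of the disc game. -/
noncomputable def k (c s t : ℝ) : ℝ :=
  if s = 0 ∨ t = 0 then (if s ^ 2 + t ^ 2 ≤ c ^ 2 then π else 0) else arccos (u c s t)

theorem u_comm (c s t : ℝ) : u c s t = u c t s := by unfold u; ring_nf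

theorem k_pos_def {c s t : ℝ} (hs : 0 < s) (ht : 0 < t) : k c s t = arccos (u c s t) := by
  unfold k
  rw [if_neg]
  rintro (h | h) <;> linarith

theorem k_nonneg (c s t : ℝ) : 0 ≤ k c s t := by
  unfold k
  split_ifs
  · exact pi_pos.le
  · exact le_rfl
  · exact arccos_nonneg _

theorem k_le_pi (c s t : ℝ) : k c s t ≤ π := by
  unfold k
  split_ifs
  · exact le_rfl
  · exact pi_pos.le
  · exact arccos_le_pi _

theorem one_sub_u {c s t : ℝ} (hs : 0 < s) (ht : 0 < t) :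
    1 - u c s t = (c ^ 2 - (s - t) ^ 2) / (2 * s * t) := by
  unfold u
  field_simp
  ring

theorem one_add_u {c s t : ℝ} (hs : 0 < s) (ht : 0 < t) :
    1 + u c s t = ((s + t) ^ 2 - c ^ 2) / (2 * s * t) := by
  unfold u
  field_simp
  ring

theorem u_sub_s {c s s' t : ℝ} (hs : 0 < s) (hs' : 0 < s') (ht : 0 < t) :
    u c s' t - u c s t = (s' - s) * (s * s' + c ^ 2 - t ^ 2) / (2 * s * s' * t) := by
  unfold u
  field_simp
  ring

theorem u_sub_t {c s t t' : ℝ} (hs : 0 < s) (ht : 0 < t) (ht' : 0 < t') :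
    u c s t' - u c s t = (t' - t) * (t * t' + c ^ 2 - s ^ 2) / (2 * s * t * t') := by
  unfold u
  field_simp
  ring

theorem u_lt_one {c s t : ℝ} (hs : 0 < s) (ht : 0 < t) (h1 : s - t < c) (h2 : t - s < c) :
    u c s t < 1 := by
  have h : 0 < (c ^ 2 - (s - t) ^ 2) / (2 * s * t) := by
    apply div_pos
    · nlinarith
    · positivity
  rw [← one_sub_u hs ht] at h
  linarith

theorem neg_one_lt_u {c s t : ℝ} (hc : 0 < c) (hs : 0 < s) (ht : 0 < t) (h1 : c < s + t) :
    -1 < u c s t := by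
  have h : 0 < ((s + t) ^ 2 - c ^ 2) / (2 * s * t) := by
    apply div_pos
    · nlinarith
    · positivity
  rw [← one_add_u hs ht] at h
  linarith

theorem one_lt_u {c s t : ℝ} (hc : 0 < c) (hs : 0 < s) (ht : 0 < t) (h1 : c < s - t ∨ c < t - s) :
    1 < u c s t := by
  have h : (c ^ 2 - (s - t) ^ 2) / (2 * s * t) < 0 := by
    apply div_neg_of_neg_of_pos
    · rcases h1 with h1 | h1 <;> nlinarith
    · positivity
  rw [← one_sub_u hs ht] at h
  linarith

theorem one_le_u {c s t : ℝ} (hc : 0 < c) (hs : 0 < s) (ht : 0 < t) (h1 : c ≤ s - t ∨ c ≤ t - s) :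
    1 ≤ u c s t := by
  have h : (c ^ 2 - (s - t) ^ 2) / (2 * s * t) ≤ 0 := by
    apply div_nonpos_of_nonpos_of_nonneg
    · rcases h1 with h1 | h1 <;> nlinarith
    · positivity
  rw [← one_sub_u hs ht] at h
  linarith

theorem u_lt_neg_one {c s t : ℝ} (hc : 0 < c) (hs : 0 < s) (ht : 0 < t) (h1 : s + t < c) :
    u c s t < -1 := by
  have h : ((s + t) ^ 2 - c ^ 2) / (2 * s * t) < 0 := by
    apply div_neg_of_neg_of_pos
    · nlinarith
    · positivity
  rw [← one_add_u hs ht] at h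
  linarith

theorem u_le_neg_one {c s t : ℝ} (hc : 0 < c) (hs : 0 < s) (ht : 0 < t) (h1 : s + t ≤ c) :
    u c s t ≤ -1 := by
  have h : ((s + t) ^ 2 - c ^ 2) / (2 * s * t) ≤ 0 := by
    apply div_nonpos_of_nonpos_of_nonneg
    · nlinarith
    · positivity
  rw [← one_add_u hs ht] at h
  linarith

/-- `k = π` when the disc covers the whole circle. -/
theorem k_eq_pi {c s t : ℝ} (hc : 0 < c) (hs : 0 ≤ s) (ht : 0 ≤ t) (h1 : s + t ≤ c) :
    k c s t = π := by
  unfold k
  split_ifs with h h'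
  · rfl
  · exfalso
    apply h'
    rcases h with h | h
    · subst h; nlinarith
    · subst h; nlinarith
  · rw [not_or] at h
    have hs' : 0 < s := lt_of_le_of_ne hs (Ne.symm h.1)
    have ht' : 0 < t := lt_of_le_of_ne ht (Ne.symm h.2)
    exact arccos_of_le_neg_one (u_le_neg_one hc hs' ht' h1)

/-- `k = 0` when `s > t + c` -/
theorem k_eq_zero {c s t : ℝ} (hc : 0 < c) (hs : 0 ≤ s) (ht : 0 ≤ t) (h1 : c < s - t ∨ c < t - s) :
    k c s t = 0 := by
  unfold k
  split_ifs with h h'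
  · exfalso
    rcases h with h | h
    · subst h
      rcases h1 with h1 | h1
      · linarith
      · nlinarith
    · subst h
      rcases h1 with h1 | h1
      · nlinarith
      · linarith
  · rfl
  · rw [not_or] at h
    have hs' : 0 < s := lt_of_le_of_ne hs (Ne.symm h.1)
    have ht' : 0 < t := lt_of_le_of_ne ht (Ne.symm h.2)
    exact arccos_of_one_le (one_lt_u hc hs' ht' h1).le

/-- strict monotonicity of `arccos` where the larger value is positive and the smaller argument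
exceeds `-1`. -/
theorem arccos_lt_of_lt {x y : ℝ} (hxy : x < y) (hy : -1 < y) (hx : x < 1) : arccos y < arccos x := by
  rcases le_or_gt (-1) x with h | h
  · rcases le_or_gt y 1 with h' | h'
    · exact strictAntiOn_arccos ⟨h, hx.le⟩ ⟨hy.le, h'⟩ hxy
    · rw [arccos_of_one_le h'.le]
      exact arccos_pos.mpr hx
  · rw [arccos_of_le_neg_one h.le]
    rcases le_or_gt y 1 with h' | h'
    · rw [← arccos_neg_one]
      exact strictAntiOn_arccos ⟨le_rfl, by norm_num⟩ ⟨hy.le, h'⟩ hy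
    · rw [arccos_of_one_le h'.le]
      exact pi_pos

/-- `arccos x ≥ √(2 (1 - x))`, in squared form. -/
theorem two_mul_one_sub_le_arccos_sq (x : ℝ) (hx : -1 ≤ x) (hx1 : x ≤ 1) :
    2 * (1 - x) ≤ (arccos x) ^ 2 := by
  have h := one_sub_sq_div_two_le_cos (x := arccos x)
  rw [cos_arccos hx hx1] at h
  linarith


theorem k_comm (c s t : ℝ) : k c s t = k c t s := by
  unfold k
  simp only [u_comm c s t, or_comm (a := s = 0), add_comm (s ^ 2)]

theorem hasDerivAt_u {c s t : ℝ} (hs : 0 < s) (ht : 0 < t) :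
    HasDerivAt (fun x => u c x t) ((s ^ 2 + c ^ 2 - t ^ 2) / (2 * s ^ 2 * t)) s := by
  have h1 : HasDerivAt (fun x : ℝ => x ^ 2 + t ^ 2 - c ^ 2) (2 * s) s := by
    have := ((hasDerivAt_pow 2 s).add_const (t ^ 2)).sub_const (c ^ 2)
    simpa using this
  have h2 : HasDerivAt (fun x : ℝ => 2 * x * t) (2 * t) s := by
    have := ((hasDerivAt_id s).const_mul 2).mul_const t
    simpa using this
  refine (h1.fun_div h2 (by positivity)).congr_deriv ?_
  rw [div_eq_div_iff (by positivity) (by positivity)]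
  ring

/-- the derivative in `s` of `k c s t` (correct, with value `0`, also outside the active region) -/
noncomputable def dk (c s t : ℝ) : ℝ :=
  -(1 / √(1 - (u c s t) ^ 2)) * ((s ^ 2 + c ^ 2 - t ^ 2) / (2 * s ^ 2 * t))

theorem hasDerivAt_k {c s t : ℝ} (hs : 0 < s) (ht : 0 < t) (h1 : u c s t ≠ -1) (h2 : u c s t ≠ 1) :
    HasDerivAt (fun x => k c x t) (dk c s t) s := by
  have h3 := (hasDerivAt_arccos h1 h2).comp s (hasDerivAt_u (c := c) hs ht)
  apply h3.congr_of_eventuallyEq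
  filter_upwards [lt_mem_nhds hs] with x hx
  rw [k_pos_def hx ht]
  rfl

theorem sqrt_beats (C : ℝ) {β γ : ℝ} (hβ : 0 < β) (hγ : 0 < γ) :
    ∀ᶠ ε in 𝓝[>] (0 : ℝ), C * ε < β * √(γ * ε) := by
  have h1 : Tendsto (fun ε : ℝ => C * √ε) (𝓝[>] 0) (𝓝 0) := by
    have : Continuous (fun ε : ℝ => C * √ε) := by fun_prop
    have h := this.tendsto 0
    simp only [sqrt_zero, mul_zero] at h
    exact h.mono_left nhdsWithin_le_nhds
  have h2 : 0 < β * √γ := mul_pos hβ (sqrt_pos.mpr hγ)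
  filter_upwards [h1.eventually (gt_mem_nhds h2), self_mem_nhdsWithin] with ε h3 h4
  have h5 : 0 < √ε := sqrt_pos.mpr h4
  rw [sqrt_mul hγ.le]
  calc C * ε = C * √ε * √ε := by rw [mul_assoc, mul_self_sqrt (le_of_lt h4)]
    _ < β * √γ * √ε := mul_lt_mul_of_pos_right h3 h5
    _ = β * (√γ * √ε) := by ring

/-- behaviour at the singular line `s = c + t` -/
theorem k_lower {c t ε : ℝ} (ht : 0 < t) (hε : 0 < ε) (hεc : ε < c) (hεt : ε < t)
    (hst : c + t ≤ 1) : √(c * ε) ≤ k c (c + t - ε) t := by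
  have hs : 0 < c + t - ε := by linarith
  have hc : 0 < c := by linarith
  rw [k_pos_def hs ht, sqrt_le_iff]
  refine ⟨arccos_nonneg _, ?_⟩
  have h1 : u c (c + t - ε) t < 1 := u_lt_one hs ht (by linarith) (by linarith)
  have h2 : -1 < u c (c + t - ε) t := neg_one_lt_u hc hs ht (by linarith)
  refine le_trans ?_ (two_mul_one_sub_le_arccos_sq _ h2.le h1.le)
  rw [one_sub_u hs ht, mul_div_assoc', le_div_iff₀ (by positivity)]
  have h3 : (c + t - ε) * t ≤ 1 := by nlinarith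
  have h4 : 0 < c * ε := mul_pos hc hε
  nlinarith

/-- behaviour at the singular line `s + t = c` -/
theorem k_upper {c s t ε : ℝ} (hs : 0 < s) (ht : 0 < t) (hst : s + t = c) (hε : 0 < ε) (hc1 : c < 1)
    (hε1 : ε < s) : k c s (t + ε) ≤ π - √(c * ε) := by
  have htε : 0 < t + ε := by linarith
  have hc : 0 < c := by linarith
  rw [k_pos_def hs htε]
  have h1 : u c s (t + ε) < 1 := u_lt_one hs htε (by linarith) (by linarith)
  have h2 : -1 < u c s (t + ε) := neg_one_lt_u hc hs htε (by linarith)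
  have h5 : √(c * ε) ≤ arccos (-(u c s (t + ε))) := by
    rw [sqrt_le_iff]
    refine ⟨arccos_nonneg _, ?_⟩
    refine le_trans ?_ (two_mul_one_sub_le_arccos_sq _ (by linarith) (by linarith))
    rw [sub_neg_eq_add, one_add_u hs htε, mul_div_assoc', le_div_iff₀ (by positivity)]
    have h3 : s * (t + ε) ≤ 1 := by nlinarith
    have h4 : 0 < c * ε := mul_pos hc hε
    nlinarith
  rw [arccos_neg] at h5
  linarith

theorem k_anti_s {c s s' t : ℝ} (hs : 0 ≤ s) (hss : s ≤ s') (ht : 0 ≤ t) (htc : t ≤ c) :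
    k c s' t ≤ k c s t := by
  rcases ht.eq_or_lt with h0 | h0
  · subst h0
    unfold k
    simp only [or_true, if_true]
    split_ifs with h1 h2 h2
    · exact le_rfl
    · exfalso; apply h2; nlinarith
    · exact pi_pos.le
    · exact le_rfl
  · rcases hs.eq_or_lt with h1 | h1
    · subst h1
      have h2 : k c 0 t = π := by
        unfold k
        simp only [true_or, if_true]
        rw [if_pos]
        nlinarith
      rw [h2]
      exact k_le_pi _ _ _
    · rw [k_pos_def (h1.trans_le hss) h0, k_pos_def h1 h0]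
      apply arccos_le_arccos
      have h2 := u_sub_s (c := c) h1 (h1.trans_le hss) h0
      have h3 : 0 ≤ (s' - s) * (s * s' + c ^ 2 - t ^ 2) / (2 * s * s' * t) := by
        apply div_nonneg
        · apply mul_nonneg (by linarith)
          have : t ^ 2 ≤ c ^ 2 := by nlinarith
          have : 0 < s * s' := mul_pos h1 (h1.trans_le hss)
          linarith
        · have := h1.trans_le hss
          positivity
      linarith

theorem k_anti_t {c s t t' : ℝ} (ht : 0 ≤ t) (htt : t ≤ t') (hs : 0 ≤ s) (hsc : s ≤ c) :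
    k c s t' ≤ k c s t := by
  rw [k_comm c s t', k_comm c s t]
  exact k_anti_s ht htt hs hsc

theorem sum_compare {F : Finset ℝ} {w f g : ℝ → ℝ} (hw : ∀ x ∈ F, 0 < w x)
    (hfg : ∀ x ∈ F, f x ≤ g x) (h : ∑ x ∈ F, w x * g x ≤ ∑ x ∈ F, w x * f x) :
    ∀ x ∈ F, f x = g x := by
  intro x hx
  by_contra hne
  have hlt : f x < g x := lt_of_le_of_ne (hfg x hx) hne
  have : ∑ x ∈ F, w x * f x < ∑ x ∈ F, w x * g x :=
    Finset.sum_lt_sum (fun i hi => mul_le_mul_of_nonneg_left (hfg i hi) (hw i hi).le)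
      ⟨x, hx, mul_lt_mul_of_pos_left hlt (hw x hx)⟩
  linarith

/-- A finitely supported saddle point (payoffs multiplied by `π`). -/
structure Sad (c V : ℝ) (A B : Finset ℝ) (a b : ℝ → ℝ) : Prop where
  c0 : 0 < c
  c1 : 1 < c ^ 2 + c
  c2 : 2 * c ^ 2 < 1
  hA : ∀ s ∈ A, 0 ≤ s ∧ s ≤ 1
  ha : ∀ s ∈ A, 0 < a s
  sa : ∑ s ∈ A, a s = 1
  hB : ∀ t ∈ B, 0 ≤ t ∧ t ≤ 1
  hb : ∀ t ∈ B, 0 < b t
  sb : ∑ t ∈ B, b t = 1
  H1 : ∀ t, 0 ≤ t → t ≤ 1 → V ≤ ∑ s ∈ A, a s * k c s t
  H2 : ∀ s, 0 ≤ s → s ≤ 1 → ∑ t ∈ B, b t * k c s t ≤ V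

namespace Sad

variable {c V : ℝ} {A B : Finset ℝ} {a b : ℝ → ℝ} (h : Sad c V A B a b)

/-- Payoff of RED's radius `s` against BLUE's strategy. -/
noncomputable def P (c : ℝ) (B : Finset ℝ) (b : ℝ → ℝ) (s : ℝ) : ℝ := ∑ t ∈ B, b t * k c s t

/-- Payoff of BLUE's radius `t` against RED's strategy. -/
noncomputable def Q (c : ℝ) (A : Finset ℝ) (a : ℝ → ℝ) (t : ℝ) : ℝ := ∑ s ∈ A, a s * k c s t

include h

theorem c_lt_one : c < 1 := by
  have := h.c0; have := h.c2; nlinarith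

theorem half_lt : 1 / 2 < c := by
  have := h.c0; have := h.c1; nlinarith

theorem key_eq : ∑ s ∈ A, a s * (V - P c B b s) + ∑ t ∈ B, b t * (Q c A a t - V) = 0 := by
  have h1 : ∑ s ∈ A, a s * (V - P c B b s) = V - ∑ s ∈ A, a s * P c B b s := by
    simp_rw [mul_sub]
    rw [Finset.sum_sub_distrib, ← Finset.sum_mul, h.sa, one_mul]
  have h2 : ∑ t ∈ B, b t * (Q c A a t - V) = ∑ t ∈ B, b t * Q c A a t - V := by
    simp_rw [mul_sub]
    rw [Finset.sum_sub_distrib, ← Finset.sum_mul, h.sb, one_mul]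
  have h3 : ∑ s ∈ A, a s * P c B b s = ∑ t ∈ B, b t * Q c A a t := by
    unfold P Q
    simp_rw [Finset.mul_sum]
    rw [Finset.sum_comm]
    apply Finset.sum_congr rfl
    intro t _
    apply Finset.sum_congr rfl
    intro s _
    ring
  rw [h1, h2, h3]; ring

theorem P_le {s : ℝ} (hs : 0 ≤ s) (hs1 : s ≤ 1) : P c B b s ≤ V := h.H2 s hs hs1

theorem le_Q {t : ℝ} (ht : 0 ≤ t) (ht1 : t ≤ 1) : V ≤ Q c A a t := h.H1 t ht ht1

theorem nonneg1 : ∀ s ∈ A, 0 ≤ a s * (V - P c B b s) := fun s hs =>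
  mul_nonneg (h.ha s hs).le (sub_nonneg.mpr (h.P_le (h.hA s hs).1 (h.hA s hs).2))

theorem nonneg2 : ∀ t ∈ B, 0 ≤ b t * (Q c A a t - V) := fun t ht =>
  mul_nonneg (h.hb t ht).le (sub_nonneg.mpr (h.le_Q (h.hB t ht).1 (h.hB t ht).2))

theorem P_eq {s : ℝ} (hs : s ∈ A) : P c B b s = V := by
  have h1 := Finset.sum_nonneg h.nonneg1
  have h2 := Finset.sum_nonneg h.nonneg2
  have h3 := h.key_eq
  have h4 : ∑ s ∈ A, a s * (V - P c B b s) = 0 := by linarith
  have h5 := (Finset.sum_eq_zero_iff_of_nonneg h.nonneg1).mp h4 s hs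
  rcases mul_eq_zero.mp h5 with h6 | h6
  · exact absurd h6 (h.ha s hs).ne'
  · linarith

theorem Q_eq {t : ℝ} (ht : t ∈ B) : Q c A a t = V := by
  have h1 := Finset.sum_nonneg h.nonneg1
  have h2 := Finset.sum_nonneg h.nonneg2
  have h3 := h.key_eq
  have h4 : ∑ t ∈ B, b t * (Q c A a t - V) = 0 := by linarith
  have h5 := (Finset.sum_eq_zero_iff_of_nonneg h.nonneg2).mp h4 t ht
  rcases mul_eq_zero.mp h5 with h6 | h6
  · exact absurd h6 (h.hb t ht).ne'
  · linarith

theorem B_nonempty : B.Nonempty := by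
  by_contra hne
  rw [Finset.not_nonempty_iff_eq_empty] at hne
  have := h.sb
  rw [hne] at this
  simp at this

theorem V_pos : 0 < V := by
  have hc := h.half_lt
  have h1 := h.P_le h.c0.le h.c_lt_one.le
  have h2 : 0 < P c B b c := by
    apply Finset.sum_pos _ h.B_nonempty
    intro t ht
    apply mul_pos (h.hb t ht)
    obtain ⟨ht0, ht1⟩ := h.hB t ht
    rcases ht0.eq_or_lt with h0 | h0
    · rw [← h0, k_eq_pi h.c0 h.c0.le le_rfl (by linarith)]
      exact pi_pos
    · rw [k_pos_def h.c0 h0, arccos_pos]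
      exact u_lt_one h.c0 h0 (by linarith) (by linarith)
  linarith

/-- The radius `√(1 - c²)`. -/
theorem exists_S : ∃ S : ℝ, c < S ∧ S < 1 ∧ S ^ 2 = 1 - c ^ 2 := by
  have hc := h.c0
  have hc2 := h.c2
  refine ⟨√(1 - c ^ 2), ?_, ?_, ?_⟩
  · apply lt_sqrt_of_sq_lt; linarith
  · rw [sqrt_lt' one_pos]; nlinarith
  · exact sq_sqrt (by linarith)


/-- beyond `S` the payoff of RED strictly drops -/
theorem k_S_mono {S s t : ℝ} (hcS : c < S) (hS : S ^ 2 = 1 - c ^ 2) (hs : S < s)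
    (ht : 0 ≤ t) (ht1 : t ≤ 1) : k c s t ≤ k c S t ∧ (k c s t = k c S t → k c S t = 0) := by
  have hc := h.c0
  have hS0 : 0 < S := hc.trans hcS
  have hs0 : 0 < s := hS0.trans hs
  rcases ht.eq_or_lt with h0 | h0
  · subst h0
    rw [k_eq_zero hc hs0.le le_rfl (by left; linarith), k_eq_zero hc hS0.le le_rfl (by left; linarith)]
    exact ⟨le_rfl, fun _ => rfl⟩
  · rw [k_pos_def hs0 h0, k_pos_def hS0 h0]
    have hu : u c S t < u c s t := by
      have h1 := u_sub_s (c := c) hS0 hs0 h0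
      have h2 : 0 < (s - S) * (S * s + c ^ 2 - t ^ 2) / (2 * S * s * t) := by
        apply div_pos
        · apply mul_pos (by linarith)
          nlinarith
        · positivity
      linarith
    refine ⟨arccos_le_arccos hu.le, fun heq => ?_⟩
    by_contra hne
    have h3 : u c S t < 1 := by
      by_contra hh
      push Not at hh
      exact hne (arccos_of_one_le hh)
    have h4 := arccos_lt_of_lt hu ((neg_one_lt_u hc hS0 h0 (by linarith)).trans hu) h3
    linarith

theorem A_le_S {S : ℝ} (hcS : c < S) (hS : S ^ 2 = 1 - c ^ 2) {s : ℝ} (hs : s ∈ A) : s ≤ S := by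
  by_contra hlt
  push Not at hlt
  have hS1 : S ≤ 1 := hlt.le.trans (h.hA s hs).2
  have hS0 : 0 ≤ S := (h.c0.trans hcS).le
  have h1 : P c B b S ≤ P c B b s := (h.P_le hS0 hS1).trans (h.P_eq hs).symm.le
  have h2 := sum_compare h.hb (f := fun t => k c s t) (g := fun t => k c S t)
    (fun t ht => (h.k_S_mono hcS hS hlt (h.hB t ht).1 (h.hB t ht).2).1) h1
  have h3 : P c B b s = 0 := by
    unfold P
    apply Finset.sum_eq_zero
    intro t ht
    have h4 := (h.k_S_mono hcS hS hlt (h.hB t ht).1 (h.hB t ht).2).2 (h2 t ht)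
    have h5 : k c s t = k c S t := h2 t ht
    rw [h5, h4, mul_zero]
  have h6 := h.V_pos
  rw [h.P_eq hs] at h3
  linarith

/-- BLUE's radii in `(1 - 2c², 1)` are dominated by the radius `1`. -/
theorem k_one_le {S s t : ℝ} (hS : S ^ 2 = 1 - c ^ 2) (hs0 : 0 ≤ s) (hs : s ≤ S)
    (ht : 1 - 2 * c ^ 2 < t) (ht1 : t < 1) :
    k c s 1 ≤ k c s t ∧ (k c s 1 = k c s t → k c s 1 = 0) := by
  have hc := h.c0
  have hc2 := h.c2
  have hc1 := h.c_lt_one
  have ht0 : 0 < t := by linarith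
  rcases hs0.eq_or_lt with h0 | h0
  · subst h0
    rw [k_eq_zero hc le_rfl zero_le_one (by right; linarith)]
    exact ⟨k_nonneg _ _ _, fun _ => rfl⟩
  · rw [k_pos_def h0 one_pos, k_pos_def h0 ht0]
    have hu : u c s t < u c s 1 := by
      have h1 := u_sub_t (c := c) h0 ht0 one_pos
      have h2 : 0 < (1 - t) * (t * 1 + c ^ 2 - s ^ 2) / (2 * s * t * 1) := by
        apply div_pos
        · apply mul_pos (by linarith)
          nlinarith
        · positivity
      linarith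
    refine ⟨arccos_le_arccos hu.le, fun heq => ?_⟩
    by_contra hne
    have h3 : u c s 1 < 1 := by
      by_contra hh
      push Not at hh
      exact hne (arccos_of_one_le hh)
    have h4 := arccos_lt_of_lt hu (neg_one_lt_u hc h0 one_pos (by linarith)) (hu.trans h3)
    linarith

theorem B_le {t : ℝ} (ht : t ∈ B) (ht1 : t ≠ 1) : t ≤ 1 - 2 * c ^ 2 := by
  by_contra hlt
  push Not at hlt
  obtain ⟨S, hcS, hS1, hS⟩ := h.exists_S
  have htlt : t < 1 := lt_of_le_of_ne (h.hB t ht).2 ht1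
  have hk := fun s hs => h.k_one_le hS (h.hA s hs).1 (h.A_le_S hcS hS hs) hlt htlt
  have h1 : Q c A a t ≤ Q c A a 1 := (h.Q_eq ht).le.trans (h.le_Q zero_le_one le_rfl)
  have h2 := sum_compare h.ha (f := fun s => k c s 1) (g := fun s => k c s t)
    (fun s hs => (hk s hs).1) h1
  have h3 : Q c A a 1 = 0 := by
    unfold Q
    apply Finset.sum_eq_zero
    intro s hs
    rw [(hk s hs).2 (h2 s hs), mul_zero]
  have h6 := h.V_pos
  have h7 := h.le_Q zero_le_one le_rfl
  rw [h3] at h7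
  linarith

theorem tau_pos : 0 < 1 - 2 * c ^ 2 := by have := h.c2; linarith

theorem tau_lt : 1 - 2 * c ^ 2 < 2 * c - 1 := by have := h.c1; linarith

theorem k_one_le_S {S s : ℝ} (hcS : c < S) (hS1 : S < 1) (hS : S ^ 2 = 1 - c ^ 2) (hs0 : 0 ≤ s)
    (hs1 : s ≤ 1) :
    k c s 1 ≤ arccos S := by
  have hc := h.c0
  have hc1 := h.c_lt_one
  rcases hs0.eq_or_lt with h0 | h0
  · subst h0
    rw [k_eq_zero hc le_rfl zero_le_one (by right; linarith)]
    exact arccos_nonneg _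
  · rw [k_pos_def h0 one_pos]
    apply arccos_le_arccos
    unfold u
    rw [le_div_iff₀ (by positivity)]
    nlinarith [sq_nonneg (s - S)]

theorem one_mem : (1 : ℝ) ∈ B := by
  by_contra hne
  obtain ⟨S, hcS, hS1, hS⟩ := h.exists_S
  have hc := h.c0
  have hc1 := h.c_lt_one
  have hτ := h.tau_pos
  have h1 : V ≤ arccos S := by
    refine (h.le_Q zero_le_one le_rfl).trans ?_
    unfold Q
    calc ∑ s ∈ A, a s * k c s 1 ≤ ∑ s ∈ A, a s * arccos S :=
          Finset.sum_le_sum fun s hs => mul_le_mul_of_nonneg_left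
            (h.k_one_le_S hcS hS1 hS (h.hA s hs).1 (h.hA s hs).2) (h.ha s hs).le
      _ = arccos S := by rw [← Finset.sum_mul, h.sa, one_mul]
  have h2 : arccos ((1 - 2 * c ^ 2) / (2 * c)) ≤ P c B b c := by
    unfold P
    calc arccos ((1 - 2 * c ^ 2) / (2 * c)) = ∑ t ∈ B, b t * arccos ((1 - 2 * c ^ 2) / (2 * c)) := by
          rw [← Finset.sum_mul, h.sb, one_mul]
      _ ≤ _ := Finset.sum_le_sum fun t ht => mul_le_mul_of_nonneg_left ?_ (h.hb t ht).le
    have ht1 : t ≠ 1 := fun h1 => hne (h1 ▸ ht)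
    have ht2 := h.B_le ht ht1
    rcases (h.hB t ht).1.eq_or_lt with h0 | h0
    · rw [← h0, k_eq_pi hc hc.le le_rfl (by linarith)]
      exact arccos_le_pi _
    · rw [k_pos_def hc h0]
      apply arccos_le_arccos
      unfold u
      rw [div_le_div_iff₀ (by positivity) (by positivity)]
      nlinarith [mul_pos hc h0, mul_pos hc hc]
  have h3 : arccos S < arccos ((1 - 2 * c ^ 2) / (2 * c)) := by
    have hh := h.half_lt
    apply arccos_lt_of_lt
    · rw [div_lt_iff₀ (by positivity)]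
      nlinarith [mul_pos hc (sub_pos.mpr hcS), mul_self_nonneg (c - 1 / 2)]
    · linarith
    · rw [div_lt_iff₀ (by positivity)]
      nlinarith
  have h4 := h.P_le hc.le hc1.le
  linarith


theorem inner_le_c {t : ℝ} (ht : t ∈ B) (ht1 : t ≠ 1) : t < c := by
  have h1 := h.B_le ht ht1
  have h2 := h.tau_lt
  have h3 := h.c_lt_one
  linarith

/-- (A): RED does not use `c + t` when BLUE uses `t ∈ (0,1)`. -/
theorem ne_add {s t : ℝ} (hs : s ∈ A) (ht : t ∈ B) (ht0 : 0 < t) (ht1 : t ≠ 1) : s ≠ c + t := by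
  intro heq
  obtain ⟨S, hcS, hS1, hS⟩ := h.exists_S
  have hsS := h.A_le_S hcS hS hs
  have hc := h.c0
  have hc1 := h.c_lt_one
  have hc2 := h.half_lt
  have hs0 : 0 < s := by linarith
  have hdiff : DifferentiableAt ℝ (fun x => b 1 * k c x 1) s := by
    apply DifferentiableAt.const_mul
    apply (hasDerivAt_k hs0 one_pos _ _).differentiableAt
    · exact (neg_one_lt_u hc hs0 one_pos (by linarith)).ne'
    · exact (u_lt_one hs0 one_pos (by linarith) (by linarith)).ne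
  obtain ⟨C, hC⟩ := hdiff.isBigO_sub.bound
  have htend : Tendsto (fun ε : ℝ => s - ε) (𝓝[>] 0) (𝓝 s) := by
    have : Continuous (fun ε : ℝ => s - ε) := by fun_prop
    have h2 := this.tendsto 0
    simp only [sub_zero] at h2
    exact h2.mono_left nhdsWithin_le_nhds
  have hmin : 0 < min c t := lt_min hc ht0
  obtain ⟨ε, ⟨⟨hε1, hε2⟩, hε3⟩, hε4⟩ := (((htend.eventually hC).and (sqrt_beats C (h.hb t ht) hc)).and
    (mem_nhdsWithin_of_mem_nhds (gt_mem_nhds hmin))).and self_mem_nhdsWithin |>.exists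
  have hε0 : 0 < ε := hε4
  have hε5 : ε < min c t := hε3
  have hεc : ε < c := hε5.trans_le (min_le_left _ _)
  have hεt : ε < t := hε5.trans_le (min_le_right _ _)
  have hlow := k_lower (c := c) (t := t) ht0 hε0 hεc hεt (by linarith)
  rw [← heq] at hlow
  have hk0 : k c s t = 0 := by
    rw [k_pos_def hs0 ht0]
    exact arccos_of_one_le (one_le_u hc hs0 ht0 (by left; linarith))
  have hnorm : -(C * ε) ≤ b 1 * k c (s - ε) 1 - b 1 * k c s 1 := by
    have h1 : ‖s - ε - s‖ = ε := by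
      rw [sub_sub_cancel_left, norm_neg, norm_eq_abs, abs_of_pos hε0]
    rw [h1] at hε1
    have h2 := (abs_le.mp (by rw [norm_eq_abs] at hε1; exact hε1)).1
    exact h2
  have hF : 0 < ∑ x ∈ B, b x * (k c (s - ε) x - k c s x) := by
    rw [← Finset.add_sum_erase B _ h.one_mem]
    have hnn : ∀ x ∈ B.erase 1, 0 ≤ b x * (k c (s - ε) x - k c s x) := by
      intro x hx
      rw [Finset.mem_erase] at hx
      apply mul_nonneg (h.hb x hx.2).le
      have := k_anti_s (c := c) (s := s - ε) (s' := s) (t := x) (by linarith) (by linarith)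
        (h.hB x hx.2).1 (h.inner_le_c hx.2 hx.1).le
      linarith
    have h1 := Finset.single_le_sum hnn (Finset.mem_erase.mpr ⟨ht1, ht⟩)
    have h2 : b t * √(c * ε) ≤ b t * (k c (s - ε) t - k c s t) := by
      rw [hk0, sub_zero]
      exact mul_le_mul_of_nonneg_left hlow (h.hb t ht).le
    have h3 : b 1 * (k c (s - ε) 1 - k c s 1) = b 1 * k c (s - ε) 1 - b 1 * k c s 1 := by ring
    rw [h3]
    linarith
  have h5 : ∑ x ∈ B, b x * (k c (s - ε) x - k c s x) = P c B b (s - ε) - P c B b s := by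
    unfold P
    rw [← Finset.sum_sub_distrib]
    exact Finset.sum_congr rfl fun x _ => by ring
  rw [h5, h.P_eq hs] at hF
  have h6 := h.P_le (s := s - ε) (by linarith) (by linarith)
  linarith


omit h in
theorem hasDerivAt_k_t {c s t : ℝ} (hs : 0 < s) (ht : 0 < t) (h1 : u c s t ≠ -1) (h2 : u c s t ≠ 1) :
    HasDerivAt (fun x => k c s x) (dk c t s) t := by
  have h3 := hasDerivAt_k (c := c) ht hs (by rwa [u_comm c t s]) (by rwa [u_comm c t s])
  have h4 : (fun x => k c s x) = fun x => k c x s := by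
    funext x
    exact k_comm c s x
  rw [h4]
  exact h3

omit h in
theorem tendsto_add (t : ℝ) : Tendsto (fun ε : ℝ => t + ε) (𝓝[>] 0) (𝓝 t) := by
  have : Continuous (fun ε : ℝ => t + ε) := by fun_prop
  have h2 := this.tendsto 0
  simp only [add_zero] at h2
  exact h2.mono_left nhdsWithin_le_nhds

/-- (B): RED and BLUE do not use positive radii with `s + t = c`. -/
theorem add_ne {s t : ℝ} (hs : s ∈ A) (ht : t ∈ B) (hs0 : 0 < s) (ht0 : 0 < t) : s + t ≠ c := by
  intro heq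
  obtain ⟨S, hcS, hS1, hS⟩ := h.exists_S
  have hc := h.c0
  have hc1 := h.c_lt_one
  have hc2 := h.half_lt
  have ht1 : t ≠ 1 := by intro h1; linarith
  have hdiff : DifferentiableAt ℝ (fun y => ∑ x ∈ A.filter (fun x => c < x), a x * k c x y) t := by
    apply DifferentiableAt.fun_sum
    intro x hx
    rw [Finset.mem_filter] at hx
    have hx0 : 0 < x := by linarith
    apply DifferentiableAt.const_mul
    apply (hasDerivAt_k_t hx0 ht0 _ _).differentiableAt
    · exact (neg_one_lt_u hc hx0 ht0 (by linarith)).ne'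
    · rcases lt_trichotomy x (c + t) with h1 | h1 | h1
      · exact (u_lt_one hx0 ht0 (by linarith) (by linarith)).ne
      · exact absurd h1 (h.ne_add hx.1 ht ht0 ht1)
      · exact (one_lt_u hc hx0 ht0 (by left; linarith)).ne'
  obtain ⟨C, hC⟩ := hdiff.isBigO_sub.bound
  have hmin : 0 < min s (1 - t) := lt_min hs0 (by linarith)
  obtain ⟨ε, ⟨⟨hε1, hε2⟩, hε3⟩, hε4⟩ := ((((tendsto_add t).eventually hC).and
    (sqrt_beats C (h.ha s hs) hc)).and
    (mem_nhdsWithin_of_mem_nhds (gt_mem_nhds hmin))).and self_mem_nhdsWithin |>.exists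
  have hε0 : 0 < ε := hε4
  have hε5 : ε < min s (1 - t) := hε3
  have hεs : ε < s := hε5.trans_le (min_le_left _ _)
  have hεt : ε < 1 - t := hε5.trans_le (min_le_right _ _)
  have hup := k_upper (c := c) hs0 ht0 heq hε0 hc1 hεs
  have hk0 : k c s t = π := k_eq_pi hc hs0.le ht0.le heq.le
  have hnorm : (∑ x ∈ A.filter (fun x => c < x), a x * k c x (t + ε)) -
      (∑ x ∈ A.filter (fun x => c < x), a x * k c x t) ≤ C * ε := by
    have h1 : ‖t + ε - t‖ = ε := by
      rw [add_sub_cancel_left, norm_eq_abs, abs_of_pos hε0]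
    rw [h1, norm_eq_abs] at hε1
    exact (abs_le.mp hε1).2
  have hF : ∑ x ∈ A.filter (fun x => ¬ c < x), a x * (k c x t - k c x (t + ε)) ≥ a s * √(c * ε) := by
    have hnn : ∀ x ∈ A.filter (fun x => ¬ c < x), 0 ≤ a x * (k c x t - k c x (t + ε)) := by
      intro x hx
      rw [Finset.mem_filter] at hx
      apply mul_nonneg (h.ha x hx.1).le
      have := k_anti_t (c := c) (s := x) (t := t) (t' := t + ε) ht0.le (by linarith)
        (h.hA x hx.1).1 (not_lt.mp hx.2)
      linarith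
    have h1 := Finset.single_le_sum hnn (Finset.mem_filter.mpr ⟨hs, by linarith⟩ :
      s ∈ A.filter (fun x => ¬ c < x))
    refine le_trans ?_ h1
    apply mul_le_mul_of_nonneg_left _ (h.ha s hs).le
    rw [hk0]
    linarith
  have h5 : Q c A a t - Q c A a (t + ε) = ∑ x ∈ A.filter (fun x => ¬ c < x), a x * (k c x t - k c x (t + ε))
      - ((∑ x ∈ A.filter (fun x => c < x), a x * k c x (t + ε)) -
      (∑ x ∈ A.filter (fun x => c < x), a x * k c x t)) := by
    unfold Q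
    rw [← Finset.sum_filter_add_sum_filter_not A (fun x => c < x) (fun x => a x * k c x t),
      ← Finset.sum_filter_add_sum_filter_not A (fun x => c < x) (fun x => a x * k c x (t + ε))]
    simp_rw [mul_sub]
    rw [Finset.sum_sub_distrib]
    ring
  have h6 := h.le_Q (t := t + ε) (by linarith) (by linarith)
  have h7 := h.Q_eq ht
  linarith

/-- (B'): if BLUE uses the centre, RED does not use the radius `c`. -/
theorem c_not_mem (h0 : (0 : ℝ) ∈ B) : c ∉ A := by
  intro hcA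
  have hc := h.c0
  have hc1 := h.c_lt_one
  have hev : ∀ᶠ ε in 𝓝[>] (0 : ℝ), ∀ x ∈ A, c < x → ε < x - c := by
    rw [Filter.eventually_all_finset]
    intro x hx
    by_cases hxc : c < x
    · have h1 : 0 < x - c := by linarith
      filter_upwards [mem_nhdsWithin_of_mem_nhds (gt_mem_nhds h1)] with ε hε _
      exact hε
    · exact Eventually.of_forall fun ε h1 => absurd h1 hxc
  obtain ⟨ε, ⟨hε1, hε2⟩, hε3⟩ := (hev.and (mem_nhdsWithin_of_mem_nhds (gt_mem_nhds hc))).and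
    self_mem_nhdsWithin |>.exists
  have hε0 : 0 < ε := hε3
  have hεc : ε < c := hε2
  have hkc : k c c ε ≤ π / 2 := by
    rw [k_pos_def hc hε0]
    apply arccos_le_pi_div_two.mpr
    unfold u
    have : c ^ 2 + ε ^ 2 - c ^ 2 = ε ^ 2 := by ring
    rw [this]
    positivity
  have hk0 : k c c 0 = π := k_eq_pi hc hc.le le_rfl (by linarith)
  have hF : a c * (π / 2) ≤ ∑ x ∈ A, a x * (k c x 0 - k c x ε) := by
    have hnn : ∀ x ∈ A, 0 ≤ a x * (k c x 0 - k c x ε) := by
      intro x hx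
      apply mul_nonneg (h.ha x hx).le
      rcases le_or_gt x c with hxc | hxc
      · have := k_anti_t (c := c) (s := x) (t := 0) (t' := ε) le_rfl hε0.le (h.hA x hx).1 hxc
        linarith
      · rw [k_eq_zero hc (by linarith) le_rfl (by left; linarith),
          k_eq_zero hc (by linarith) hε0.le (by left; have := hε1 x hx hxc; linarith)]
        linarith
    refine le_trans ?_ (Finset.single_le_sum hnn hcA)
    apply mul_le_mul_of_nonneg_left _ (h.ha c hcA).le
    rw [hk0]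
    linarith
  have h5 : ∑ x ∈ A, a x * (k c x 0 - k c x ε) = Q c A a 0 - Q c A a ε := by
    unfold Q
    rw [← Finset.sum_sub_distrib]
    exact Finset.sum_congr rfl fun x _ => by ring
  rw [h5, h.Q_eq h0] at hF
  have h6 := h.le_Q (t := ε) hε0.le (by linarith)
  have h7 : 0 < a c * (π / 2) := mul_pos (h.ha c hcA) (by positivity)
  linarith


/-- RED's radii are at least `c - Y`, where `Y` bounds the inner radii of BLUE. -/
theorem le_A {Y : ℝ} (hY0 : 0 ≤ Y) (hYτ : Y ≤ 1 - 2 * c ^ 2) (hY : ∀ t ∈ B, t ≠ 1 → t ≤ Y)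
    {s : ℝ} (hs : s ∈ A) : c - Y ≤ s := by
  by_contra hlt
  push Not at hlt
  have hc := h.c0
  have hc1 := h.c_lt_one
  have hc2 := h.c2
  have hh := h.half_lt
  have hτ := h.tau_lt
  obtain ⟨hs0, hs1⟩ := h.hA s hs
  have hY2 : 0 < c - Y := by linarith
  have hlt1 : k c s 1 < k c (c - Y) 1 := by
    have hu1 : u c (c - Y) 1 < 1 := u_lt_one hY2 one_pos (by linarith) (by linarith)
    rcases hs0.eq_or_lt with h0 | h0
    · rw [← h0, k_eq_zero hc le_rfl zero_le_one (by right; linarith), k_pos_def hY2 one_pos]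
      exact arccos_pos.mpr hu1
    · rw [k_pos_def h0 one_pos, k_pos_def hY2 one_pos]
      have hu : u c (c - Y) 1 < u c s 1 := by
        have h1 := u_sub_s (c := c) h0 hY2 one_pos
        have h2 : (c - Y - s) * (s * (c - Y) + c ^ 2 - 1 ^ 2) / (2 * s * (c - Y) * 1) < 0 := by
          apply div_neg_of_neg_of_pos
          · apply mul_neg_of_pos_of_neg (by linarith)
            have : s * (c - Y) ≤ c * c := mul_le_mul (by linarith) (by linarith) hY2.le hc.le
            nlinarith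
          · positivity
        linarith
      exact arccos_lt_of_lt hu (neg_one_lt_u hc h0 one_pos (by linarith)) hu1
  have h1 : P c B b (c - Y) ≤ P c B b s :=
    (h.P_le hY2.le (by linarith)).trans (h.P_eq hs).symm.le
  have h2 := sum_compare h.hb (f := fun t => k c s t) (g := fun t => k c (c - Y) t) (fun t ht => by
    by_cases ht1 : t = 1
    · subst ht1; exact hlt1.le
    · have h3 := hY t ht ht1
      have h4 := (h.hB t ht).1
      rw [k_eq_pi hc hs0 h4 (by linarith), k_eq_pi hc hY2.le h4 (by linarith)]) h1 1 h.one_mem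
  exact hlt1.ne h2

end Sad

/-- `cot²` of the angle at which the boundary is seen, with the roles as in the proof:
`al c σ = tan² θ₁`. -/
noncomputable def al (c σ : ℝ) : ℝ := 4 * c ^ 2 * σ / (1 - c ^ 2 - σ) ^ 2 - 1

noncomputable def be (c t σ : ℝ) : ℝ := 4 * c ^ 2 * σ / (σ + c ^ 2 - t ^ 2) ^ 2 - 1

noncomputable def R (c t σ : ℝ) : ℝ := √(al c σ) / √(be c t σ)

theorem al_eq {c σ : ℝ} (h1 : σ < 1 - c ^ 2) :
    al c σ = ((1 + c) ^ 2 - σ) * (σ - (1 - c) ^ 2) / (1 - c ^ 2 - σ) ^ 2 := by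
  unfold al
  have : (1 - c ^ 2 - σ) ≠ 0 := by linarith
  field_simp
  ring

theorem be_eq {c t σ : ℝ} (h1 : 0 < σ + c ^ 2 - t ^ 2) :
    be c t σ = ((c + t) ^ 2 - σ) * (σ - (c - t) ^ 2) / (σ + c ^ 2 - t ^ 2) ^ 2 := by
  unfold be
  field_simp
  ring

theorem al_pos {c σ : ℝ} (h1 : σ < 1 - c ^ 2) (h2 : (1 - c) ^ 2 < σ) (_hc : 0 < c) : 0 < al c σ := by
  rw [al_eq h1]
  apply div_pos
  · apply mul_pos
    · nlinarith
    · linarith
  · have : 0 < 1 - c ^ 2 - σ := by linarith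
    positivity

theorem be_pos {c t σ : ℝ} (h1 : 0 < σ + c ^ 2 - t ^ 2) (h2 : (c - t) ^ 2 < σ) (h3 : σ < (c + t) ^ 2) :
    0 < be c t σ := by
  rw [be_eq h1]
  apply div_pos
  · apply mul_pos <;> linarith
  · positivity

theorem al_lt {c σ σ' : ℝ} (hc : 0 < c) (h0 : 0 < σ) (h1 : σ < σ') (h2 : σ' < 1 - c ^ 2) :
    al c σ < al c σ' := by
  unfold al
  have h3 : 0 < 1 - c ^ 2 - σ' := by linarith
  have h4 : 4 * c ^ 2 * σ / (1 - c ^ 2 - σ) ^ 2 < 4 * c ^ 2 * σ' / (1 - c ^ 2 - σ') ^ 2 := by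
    apply div_lt_div₀
    · have : 0 < 4 * c ^ 2 := by positivity
      nlinarith
    · apply pow_le_pow_left₀ h3.le; linarith
    · have : 0 < σ' := by linarith
      positivity
    · positivity
  linarith

theorem be_le {c t σ σ' : ℝ} (hb : 0 < c ^ 2 - t ^ 2) (h0 : 0 < σ) (h1 : σ < σ')
    (h2 : (c ^ 2 - t ^ 2) ^ 2 ≤ σ * σ') :
    be c t σ' ≤ be c t σ := by
  unfold be
  have h3 : 0 < σ' := by linarith
  have h4 : 0 < σ + c ^ 2 - t ^ 2 := by linarith
  have h5 : 0 < σ' + c ^ 2 - t ^ 2 := by linarith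
  have h6 : 4 * c ^ 2 * σ' / (σ' + c ^ 2 - t ^ 2) ^ 2 ≤ 4 * c ^ 2 * σ / (σ + c ^ 2 - t ^ 2) ^ 2 := by
    rw [div_le_div_iff₀ (by positivity) (by positivity)]
    have h7 : 4 * c ^ 2 * σ * (σ' + c ^ 2 - t ^ 2) ^ 2 - 4 * c ^ 2 * σ' * (σ + c ^ 2 - t ^ 2) ^ 2
        = 4 * c ^ 2 * ((σ' - σ) * (σ * σ' - (c ^ 2 - t ^ 2) ^ 2)) := by ring
    have h8 : 0 ≤ 4 * c ^ 2 * ((σ' - σ) * (σ * σ' - (c ^ 2 - t ^ 2) ^ 2)) :=
      mul_nonneg (by positivity) (mul_nonneg (by linarith) (by linarith))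
    linarith
  linarith

/-- The key monotonicity. -/
theorem R_lt {c t σ σ' : ℝ} (hc : 0 < c) (hb : 0 < c ^ 2 - t ^ 2) (h0 : (1 - c) ^ 2 < σ)
    (h1 : σ < σ') (h2 : σ' < 1 - c ^ 2) (h3 : (c ^ 2 - t ^ 2) ^ 2 ≤ σ * σ')
    (h4 : σ' < (c + t) ^ 2) (h5 : (c - t) ^ 2 < σ) : R c t σ < R c t σ' := by
  have hσ : 0 < σ := lt_of_le_of_lt (sq_nonneg _) h0
  have h6 := al_lt hc hσ h1 h2
  have h7 := be_le hb hσ h1 h3
  have h8 := be_pos (c := c) (t := t) (σ := σ') (by linarith) (by linarith) h4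
  have h9 := al_pos (c := c) (σ := σ) (by linarith) h0 hc
  unfold R
  apply div_lt_div₀
  · exact sqrt_lt_sqrt h9.le h6
  · exact sqrt_le_sqrt h7
  · exact sqrt_nonneg _
  · exact sqrt_pos.mpr h8


/-- logarithm of `R` -/
noncomputable def LR (c t σ : ℝ) : ℝ :=
  (log ((1 + c) ^ 2 - σ) + log (σ - (1 - c) ^ 2) - 2 * log (1 - c ^ 2 - σ)) / 2 -
  (log ((c + t) ^ 2 - σ) + log (σ - (c - t) ^ 2) - 2 * log (σ + (c ^ 2 - t ^ 2))) / 2

noncomputable def LR' (c t σ : ℝ) : ℝ :=
  (-(1 / ((1 + c) ^ 2 - σ)) + 1 / (σ - (1 - c) ^ 2) + 2 / (1 - c ^ 2 - σ)) / 2 -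
  (-(1 / ((c + t) ^ 2 - σ)) + 1 / (σ - (c - t) ^ 2) - 2 / (σ + (c ^ 2 - t ^ 2))) / 2

theorem hasDerivAt_LR {c t σ : ℝ} (h1 : (1 + c) ^ 2 - σ ≠ 0) (h2 : σ - (1 - c) ^ 2 ≠ 0)
    (h3 : 1 - c ^ 2 - σ ≠ 0) (h4 : (c + t) ^ 2 - σ ≠ 0) (h5 : σ - (c - t) ^ 2 ≠ 0)
    (h6 : σ + (c ^ 2 - t ^ 2) ≠ 0) : HasDerivAt (LR c t) (LR' c t σ) σ := by
  have e1 := ((hasDerivAt_id σ).const_sub ((1 + c) ^ 2)).log h1
  have e2 := ((hasDerivAt_id σ).sub_const ((1 - c) ^ 2)).log h2
  have e3 := ((hasDerivAt_id σ).const_sub (1 - c ^ 2)).log h3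
  have e4 := ((hasDerivAt_id σ).const_sub ((c + t) ^ 2)).log h4
  have e5 := ((hasDerivAt_id σ).sub_const ((c - t) ^ 2)).log h5
  have e6 := ((hasDerivAt_id σ).add_const (c ^ 2 - t ^ 2)).log h6
  have e := (((e1.add e2).sub (e3.const_mul 2)).div_const 2).sub
    (((e4.add e5).sub (e6.const_mul 2)).div_const 2)
  refine e.congr_deriv ?_
  unfold LR'
  simp only [id]
  ring

theorem inv_sub_inv_mono {p q x y : ℝ} (hpq : p ≤ q) (hqx : q < x) (hxy : x ≤ y) :
    1 / (x - p) - 1 / (x - q) ≤ 1 / (y - p) - 1 / (y - q) := by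
  have h1 : 0 < x - q := by linarith
  have h2 : 0 < x - p := by linarith
  have h3 : 0 < y - q := by linarith
  have h4 : 0 < y - p := by linarith
  have e1 : 1 / (x - p) - 1 / (x - q) = -((q - p) / ((x - p) * (x - q))) := by
    field_simp; ring
  have e2 : 1 / (y - p) - 1 / (y - q) = -((q - p) / ((y - p) * (y - q))) := by
    field_simp; ring
  rw [e1, e2]
  apply neg_le_neg
  apply div_le_div_of_nonneg_left (by linarith) (mul_pos h2 h1)
  exact mul_le_mul (by linarith) (by linarith) h1.le h4.le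

theorem inv_sub_inv_mono' {p q x y : ℝ} (hpq : p ≤ q) (hyp : y < p) (hxy : x ≤ y) :
    1 / (p - x) - 1 / (q - x) ≤ 1 / (p - y) - 1 / (q - y) := by
  have h1 : 0 < p - x := by linarith
  have h2 : 0 < q - x := by linarith
  have h3 : 0 < p - y := by linarith
  have h4 : 0 < q - y := by linarith
  have e1 : 1 / (p - x) - 1 / (q - x) = (q - p) / ((p - x) * (q - x)) := by
    field_simp; ring
  have e2 : 1 / (p - y) - 1 / (q - y) = (q - p) / ((p - y) * (q - y)) := by
    field_simp; ring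
  rw [e1, e2]
  apply div_le_div_of_nonneg_left (by linarith) (mul_pos h3 h4)
  exact mul_le_mul (by linarith) (by linarith) h4.le h1.le

theorem inv_add_inv_mono {p q x y : ℝ} (hyp : y < p) (hqx : 0 < x + q) (hxy : x ≤ y)
    (hs : p - q ≤ x + y) :
    1 / (p - x) + 1 / (x + q) ≤ 1 / (p - y) + 1 / (y + q) := by
  have h1 : 0 < p - x := by linarith
  have h3 : 0 < p - y := by linarith
  have h4 : 0 < y + q := by linarith
  have e1 : 1 / (p - x) + 1 / (x + q) = (p + q) / ((p - x) * (x + q)) := by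
    field_simp; ring
  have e2 : 1 / (p - y) + 1 / (y + q) = (p + q) / ((p - y) * (y + q)) := by
    field_simp; ring
  rw [e1, e2]
  apply div_le_div_of_nonneg_left (by linarith) (mul_pos h3 h4)
  nlinarith

theorem LR'_mono {c t x y : ℝ} (hc : 0 < c) (hc1 : c < 1) (hc2 : 2 * c ^ 2 < 1) (ht : 0 < t)
    (ht1 : t ≤ 2 * c - 1) (hx : (c - t) ^ 2 < x) (hxy : x ≤ y) (hy : y < c ^ 2) :
    LR' c t x ≤ LR' c t y := by
  have htc : t < c := by linarith
  have g1 := inv_sub_inv_mono (p := (1 - c) ^ 2) (q := (c - t) ^ 2) (x := x) (y := y)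
    (by nlinarith) hx hxy
  have g2 := inv_sub_inv_mono' (p := (c + t) ^ 2) (q := (1 + c) ^ 2) (x := x) (y := y)
    (by nlinarith) (by nlinarith) hxy
  have g3 := inv_add_inv_mono (p := 1 - c ^ 2) (q := c ^ 2 - t ^ 2) (x := x) (y := y)
    (by linarith) (by nlinarith) hxy (by nlinarith [mul_nonneg (sub_nonneg.mpr ht1) (by linarith : 0 ≤ 2 * c - t + 1)])
  unfold LR'
  have e1 : 2 / (1 - c ^ 2 - x) = 2 * (1 / (1 - c ^ 2 - x)) := by ring
  have e2 : 2 / (1 - c ^ 2 - y) = 2 * (1 / (1 - c ^ 2 - y)) := by ring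
  have e3 : 2 / (x + (c ^ 2 - t ^ 2)) = 2 * (1 / (x + (c ^ 2 - t ^ 2))) := by ring
  have e4 : 2 / (y + (c ^ 2 - t ^ 2)) = 2 * (1 / (y + (c ^ 2 - t ^ 2))) := by ring
  rw [e1, e2, e3, e4]
  linarith

theorem R_eq_exp {c t σ : ℝ} (h1 : 0 < (1 + c) ^ 2 - σ) (h2 : 0 < σ - (1 - c) ^ 2)
    (h3 : 0 < 1 - c ^ 2 - σ) (h4 : 0 < (c + t) ^ 2 - σ) (h5 : 0 < σ - (c - t) ^ 2)
    (h6 : 0 < σ + (c ^ 2 - t ^ 2)) : R c t σ = exp (LR c t σ) := by
  have ha : √(al c σ) = exp ((log ((1 + c) ^ 2 - σ) + log (σ - (1 - c) ^ 2)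
      - 2 * log (1 - c ^ 2 - σ)) / 2) := by
    rw [al_eq (by linarith), ← log_mul h1.ne' h2.ne']
    have e : 2 * log (1 - c ^ 2 - σ) = log ((1 - c ^ 2 - σ) ^ 2) := by
      rw [log_pow]; norm_num
    rw [e, ← log_div (by positivity) (by positivity), ← log_sqrt (by positivity), exp_log (by positivity)]
  have hb : √(be c t σ) = exp ((log ((c + t) ^ 2 - σ) + log (σ - (c - t) ^ 2)
      - 2 * log (σ + (c ^ 2 - t ^ 2))) / 2) := by
    rw [be_eq (by linarith), ← log_mul h4.ne' h5.ne']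
    have e : 2 * log (σ + (c ^ 2 - t ^ 2)) = log ((σ + (c ^ 2 - t ^ 2)) ^ 2) := by
      rw [log_pow]; norm_num
    have e' : σ + c ^ 2 - t ^ 2 = σ + (c ^ 2 - t ^ 2) := by ring
    rw [e, e', ← log_div (by positivity) (by positivity), ← log_sqrt (by positivity), exp_log (by positivity)]
  unfold R LR
  rw [ha, hb, ← exp_sub]

theorem R_convex {c t : ℝ} (hc : 0 < c) (hc1 : c < 1) (hc2 : 2 * c ^ 2 < 1) (ht : 0 < t)
    (ht1 : t ≤ 2 * c - 1) : ConvexOn ℝ (Ioo ((c - t) ^ 2) (c ^ 2)) (R c t) := by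
  have htc : t < c := by linarith
  have hpos : ∀ σ ∈ Ioo ((c - t) ^ 2) (c ^ 2), 0 < (1 + c) ^ 2 - σ ∧ 0 < σ - (1 - c) ^ 2 ∧
      0 < 1 - c ^ 2 - σ ∧ 0 < (c + t) ^ 2 - σ ∧ 0 < σ - (c - t) ^ 2 ∧ 0 < σ + (c ^ 2 - t ^ 2) := by
    rintro σ ⟨h1, h2⟩
    refine ⟨by nlinarith, by nlinarith, by linarith, by nlinarith, by linarith, by nlinarith⟩
  have hder : ∀ σ ∈ Ioo ((c - t) ^ 2) (c ^ 2), HasDerivAt (LR c t) (LR' c t σ) σ := by
    intro σ hσ
    obtain ⟨h1, h2, h3, h4, h5, h6⟩ := hpos σ hσ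
    exact hasDerivAt_LR h1.ne' h2.ne' h3.ne' h4.ne' h5.ne' h6.ne'
  have hLconv : ConvexOn ℝ (Ioo ((c - t) ^ 2) (c ^ 2)) (LR c t) := by
    apply MonotoneOn.convexOn_of_deriv (convex_Ioo _ _)
    · exact fun σ hσ => (hder σ hσ).continuousAt.continuousWithinAt
    · rw [interior_Ioo]
      exact fun σ hσ => (hder σ hσ).differentiableAt.differentiableWithinAt
    · rw [interior_Ioo]
      intro x hx y hy hxy
      rw [(hder x hx).deriv, (hder y hy).deriv]
      exact LR'_mono hc hc1 hc2 ht ht1 hx.1 hxy hy.2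
  have hR : ∀ σ ∈ Ioo ((c - t) ^ 2) (c ^ 2), R c t σ = exp (LR c t σ) := by
    intro σ hσ
    obtain ⟨h1, h2, h3, h4, h5, h6⟩ := hpos σ hσ
    exact R_eq_exp h1 h2 h3 h4 h5 h6
  refine ⟨convex_Ioo _ _, ?_⟩
  intro x hx y hy p q hp hq hpq
  have hz := convex_Ioo ((c - t) ^ 2) (c ^ 2) hx hy hp hq hpq
  rw [hR x hx, hR y hy, hR _ hz]
  calc exp (LR c t (p • x + q • y)) ≤ exp (p • LR c t x + q • LR c t y) :=
        exp_le_exp.mpr (hLconv.2 hx hy hp hq hpq)
    _ ≤ p • exp (LR c t x) + q • exp (LR c t y) :=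
        convexOn_exp.2 (mem_univ _) (mem_univ _) hp hq hpq


theorem sq_u {c s t G X : ℝ} (hs : 0 < s) (ht : 0 < t) (hX : 0 < X)
    (hG : G * X ^ 2 = 4 * c ^ 2 * s ^ 2 - X ^ 2)
    (hX2 : X ^ 2 = (s ^ 2 + c ^ 2 - t ^ 2) ^ 2) :
    √(1 - (u c s t) ^ 2) = √G * X / (2 * s * t) := by
  have h1 : 1 - (u c s t) ^ 2 = G * (X / (2 * s * t)) ^ 2 := by
    rw [div_pow, mul_div_assoc', hG, hX2]
    unfold u
    field_simp
    ring
  rw [h1, sqrt_mul' _ (by positivity), sqrt_sq (by positivity)]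
  ring

theorem dk_inner {c s t : ℝ} (hs : 0 < s) (ht : 0 < t) (hpos : 0 < s ^ 2 + c ^ 2 - t ^ 2) :
    dk c s t = -(1 / (s * √(be c t (s ^ 2)))) := by
  unfold dk
  rw [sq_u (G := be c t (s ^ 2)) hs ht hpos _ rfl]
  · rcases eq_or_ne (√(be c t (s ^ 2))) 0 with h0 | h0
    · simp [h0]
    · field_simp
  · unfold be
    field_simp

theorem dk_one {c s : ℝ} (hs : 0 < s) (hpos : 0 < 1 - c ^ 2 - s ^ 2) :
    dk c s 1 = 1 / (s * √(al c (s ^ 2))) := by
  unfold dk
  have hX2 : (1 - c ^ 2 - s ^ 2) ^ 2 = (s ^ 2 + c ^ 2 - 1 ^ 2) ^ 2 := by ring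
  rw [sq_u (G := al c (s ^ 2)) hs one_pos hpos _ hX2]
  · rcases eq_or_ne (√(al c (s ^ 2))) 0 with h0 | h0
    · simp [h0]
    · field_simp
      ring
  · unfold al
    field_simp

/-- numerator of the derivative of `P` -/
noncomputable def wt (c y σ t : ℝ) : ℝ := if t = 1 then 1 else if y ≤ t then -R c t σ else 0

noncomputable def M (c : ℝ) (B : Finset ℝ) (b : ℝ → ℝ) (y σ : ℝ) : ℝ := ∑ t ∈ B, b t * wt c y σ t

namespace Sad

variable {c V : ℝ} {A B : Finset ℝ} {a b : ℝ → ℝ} (h : Sad c V A B a b)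

include h

theorem M_lt {y σ σ' : ℝ} (hyB : y ∈ B) (hy1 : y ≠ 1)
    (hR : ∀ t ∈ B, y ≤ t → t ≠ 1 → R c t σ < R c t σ') : M c B b y σ' < M c B b y σ := by
  unfold M
  apply Finset.sum_lt_sum
  · intro t ht
    apply mul_le_mul_of_nonneg_left _ (h.hb t ht).le
    unfold wt
    split_ifs with h1 h2
    · exact le_rfl
    · exact neg_le_neg (hR t ht h2 h1).le
    · exact le_rfl
  · refine ⟨y, hyB, mul_lt_mul_of_pos_left ?_ (h.hb y hyB)⟩
    unfold wt
    rw [if_neg hy1, if_pos le_rfl, if_neg hy1, if_pos le_rfl]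
    exact neg_lt_neg (hR y hyB le_rfl hy1)

theorem M_concave {y : ℝ} (hy0 : 0 < y) :
    ConcaveOn ℝ (Ioo ((c - y) ^ 2) (c ^ 2)) (M c B b y) := by
  refine ⟨convex_Ioo _ _, ?_⟩
  intro x hx z hz p q hp hq hpq
  unfold M
  rw [Finset.smul_sum, Finset.smul_sum, ← Finset.sum_add_distrib]
  apply Finset.sum_le_sum
  intro t ht
  have hb := (h.hb t ht).le
  have key : p • wt c y x t + q • wt c y z t ≤ wt c y (p • x + q • z) t := by
    unfold wt
    split_ifs with h1 h2
    · simp only [smul_eq_mul]; linarith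
    · have ht0 : 0 < t := by linarith
      have htτ := h.B_le ht h1
      have hτ := h.tau_lt
      have hc1 := h.c_lt_one
      have hconv := R_convex (c := c) (t := t) h.c0 h.c_lt_one h.c2 ht0 (by linarith)
      have hsub : Ioo ((c - y) ^ 2) (c ^ 2) ⊆ Ioo ((c - t) ^ 2) (c ^ 2) := by
        intro v hv
        refine ⟨lt_of_le_of_lt ?_ hv.1, hv.2⟩
        apply pow_le_pow_left₀ <;> linarith
      have := hconv.2 (hsub hx) (hsub hz) hp hq hpq
      simp only [smul_eq_mul] at this ⊢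
      linarith
    · simp only [smul_eq_mul]; linarith
  calc p • (b t * wt c y x t) + q • (b t * wt c y z t)
      = b t * (p • wt c y x t + q • wt c y z t) := by simp only [smul_eq_mul]; ring
    _ ≤ _ := mul_le_mul_of_nonneg_left key hb

/-- derivative of BLUE's payoff function -/
theorem hasDerivAt_P {s : ℝ} (hs : 0 < s) (h0 : (0 : ℝ) ∈ B → s ≠ c)
    (h1 : ∀ t ∈ B, 0 < t → u c s t ≠ -1 ∧ u c s t ≠ 1) :
    HasDerivAt (P c B b) (∑ t ∈ B, b t * (if t = 0 then 0 else dk c s t)) s := by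
  unfold P
  apply HasDerivAt.fun_sum
  intro t ht
  apply HasDerivAt.const_mul
  rcases (h.hB t ht).1.eq_or_lt with h2 | h2
  · rw [if_pos h2.symm]
    subst h2
    have hc := h.c0
    rcases lt_or_gt_of_ne (h0 ht) with h3 | h3
    · have : (fun _ : ℝ => π) =ᶠ[𝓝 s] fun x => k c x 0 := by
        filter_upwards [lt_mem_nhds hs, gt_mem_nhds h3] with x hx1 hx2
        rw [k_eq_pi hc hx1.le le_rfl (by linarith)]
      exact (hasDerivAt_const s π).congr_of_eventuallyEq this.symm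
    · have : (fun _ : ℝ => (0 : ℝ)) =ᶠ[𝓝 s] fun x => k c x 0 := by
        filter_upwards [lt_mem_nhds h3] with x hx1
        rw [k_eq_zero hc (by linarith) le_rfl (by left; linarith)]
      exact (hasDerivAt_const s (0 : ℝ)).congr_of_eventuallyEq this.symm
  · rw [if_neg h2.ne']
    exact hasDerivAt_k hs h2 (h1 t ht h2).1 (h1 t ht h2).2

omit h in
theorem dk_eq_zero {s t : ℝ} (h1 : u c s t < -1 ∨ 1 < u c s t) : dk c s t = 0 := by
  unfold dk
  have : 1 - (u c s t) ^ 2 ≤ 0 := by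
    rcases h1 with h1 | h1 <;> nlinarith
  rw [sqrt_eq_zero_of_nonpos this]
  simp

/-- In a shell the derivative of `P` has the sign of `M`. -/
theorem deriv_eq {s y : ℝ} (hs : 1 - c < s) (hsS : s ^ 2 < 1 - c ^ 2) (hy0 : 0 < y)
    (hshell : ∀ t ∈ B, 0 < t → t ≠ 1 → (t < y → t < |s - c|) ∧ (y ≤ t → |s - c| < t)) :
    ∑ t ∈ B, b t * (if t = 0 then 0 else dk c s t) =
      1 / (s * √(al c (s ^ 2))) * M c B b y (s ^ 2) := by
  have hc := h.c0
  have hc1 := h.c_lt_one
  have hc2 := h.c2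
  have hs0 : 0 < s := by linarith
  have hal : 0 < al c (s ^ 2) := al_pos hsS (by nlinarith) hc
  have hsal : 0 < √(al c (s ^ 2)) := sqrt_pos.mpr hal
  unfold M
  rw [Finset.mul_sum]
  apply Finset.sum_congr rfl
  intro t ht
  have ht01 := h.hB t ht
  unfold wt
  by_cases ht1 : t = 1
  · subst ht1
    rw [if_neg one_ne_zero, if_pos rfl, dk_one hs0 (by linarith)]
    ring
  · rw [if_neg ht1]
    rcases ht01.1.eq_or_lt with ht0 | ht0
    · rw [if_pos ht0.symm, if_neg (by linarith)]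
      ring
    · rw [if_neg ht0.ne']
      have htc := h.inner_le_c ht ht1
      have htτ := h.B_le ht ht1
      have hτ := h.tau_lt
      obtain ⟨h3, h4⟩ := hshell t ht ht0 ht1
      by_cases hyt : y ≤ t
      · rw [if_pos hyt]
        have h5 := abs_lt.mp (h4 hyt)
        have hpos : 0 < s ^ 2 + c ^ 2 - t ^ 2 := by nlinarith
        rw [dk_inner hs0 ht0 hpos]
        unfold R
        have hbe : 0 < be c t (s ^ 2) := be_pos hpos (by nlinarith) (by nlinarith)
        have hsbe : 0 < √(be c t (s ^ 2)) := sqrt_pos.mpr hbe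
        field_simp
      · rw [if_neg hyt]
        have h5 := h3 (not_le.mp hyt)
        rw [dk_eq_zero]
        · ring
        · rcases lt_abs.mp h5 with h6 | h6
          · right
            exact one_lt_u hc hs0 ht0 (by left; linarith)
          · left
            exact u_lt_neg_one hc hs0 ht0 (by linarith)

end Sad

end Pool.Agent.H66.Disc
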