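import Pool.Agent.H66.DiscCore

set_option autoImplicit false

namespace Pool.Agent.H66.Disc

open Real Set Filter Topology

theorem sq_lt' {a b : ℝ} (ha : 0 ≤ a) (h : a < b) : a ^ 2 < b ^ 2 :=
  pow_lt_pow_left₀ h ha two_ne_zero

namespace Sad

variable {c V : ℝ} {A B : Finset ℝ} {a b : ℝ → ℝ} (h : Sad c V A B a b)

include h

/-- the derivative of `P` vanishes on RED's support -/
theorem first_order {s : ℝ} (hs : s ∈ A) (hs0 : 0 < s) (hs1 : 1 - c < s) :
    ∑ t ∈ B, b t * (if t = 0 then 0 else dk c s t) = 0 := by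
  obtain ⟨S, hcS, hS1, hS⟩ := h.exists_S
  have hc := h.c0
  have hc1 := h.c_lt_one
  have hsS := h.A_le_S hcS hS hs
  have hd := h.hasDerivAt_P hs0 (fun h0 h1 => h.c_not_mem h0 (h1 ▸ hs)) (fun t ht ht0 => by
    by_cases ht1 : t = 1
    · subst ht1
      exact ⟨(neg_one_lt_u hc hs0 one_pos (by linarith)).ne',
        (u_lt_one hs0 one_pos (by linarith) (by linarith)).ne⟩
    · have htc := h.inner_le_c ht ht1
      constructor
      · rcases lt_trichotomy (s + t) c with h1 | h1 | h1
        · exact (u_lt_neg_one hc hs0 ht0 h1).ne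
        · exact absurd h1 (h.add_ne hs ht hs0 ht0)
        · exact (neg_one_lt_u hc hs0 ht0 h1).ne'
      · rcases lt_trichotomy s (c + t) with h1 | h1 | h1
        · exact (u_lt_one hs0 ht0 (by linarith) (by linarith)).ne
        · exact absurd h1 (h.ne_add hs ht ht0 ht1)
        · exact (one_lt_u hc hs0 ht0 (by left; linarith)).ne')
  apply IsLocalMax.hasDerivAt_eq_zero _ hd
  filter_upwards [Icc_mem_nhds hs0 (lt_of_le_of_lt hsS hS1)] with x hx
  rw [h.P_eq hs]
  exact h.P_le hx.1 hx.2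

/-- basic facts on active atoms -/
theorem act {S y : ℝ} (hcS : c < S) (hS : S ^ 2 = 1 - c ^ 2)
    (hyB : y ∈ B) (hy0 : 0 < y) (hy1 : y ≠ 1)
    (hmin : ∀ t ∈ B, 0 < t → t < y → ∀ s ∈ A, t < |s - c|) {s : ℝ} (hs : s ∈ A)
    (hsy : |s - c| < y) : 0 < s ∧ 1 - c < s ∧ s < S ∧ M c B b y (s ^ 2) = 0 := by
  have hc := h.c0
  have hc1 := h.c_lt_one
  have hyτ := h.B_le hyB hy1
  have hτ := h.tau_lt
  have hyc : y < c := by linarith
  have h5 := abs_lt.mp hsy
  have hs0 : 0 < s := by linarith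
  have hs1 : 1 - c < s := by linarith
  have hfo := h.first_order hs hs0 hs1
  have hsS : s < S := by
    refine lt_of_le_of_ne (h.A_le_S hcS hS hs) ?_
    intro heq
    have hs2 : s ^ 2 = 1 - c ^ 2 := by rw [heq, hS]
    have hneg : ∑ t ∈ B, b t * (if t = 0 then 0 else dk c s t) < 0 := by
      apply Finset.sum_neg'
      · intro t ht
        have ht01 := h.hB t ht
        rcases ht01.1.eq_or_lt with ht0 | ht0
        · rw [if_pos ht0.symm]; simp
        · rw [if_neg ht0.ne']
          apply mul_nonpos_of_nonneg_of_nonpos (h.hb t ht).le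
          unfold dk
          rw [neg_mul]
          apply neg_nonpos.mpr
          apply mul_nonneg (by positivity)
          apply div_nonneg _ (by positivity)
          rw [hs2]
          have : t ^ 2 ≤ 1 := pow_le_one₀ ht01.1 ht01.2
          linarith
      · refine ⟨y, hyB, ?_⟩
        rw [if_neg hy0.ne']
        apply mul_neg_of_pos_of_neg (h.hb y hyB)
        have hyc2 := sq_lt' hy0.le hyc
        have hs22 : 0 < s ^ 2 := by positivity
        have hpos : 0 < s ^ 2 + c ^ 2 - y ^ 2 := by linarith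
        rw [dk_inner hs0 hy0 hpos]
        have hbe : 0 < be c y (s ^ 2) := be_pos hpos (sq_lt' (by linarith) (by linarith))
          (sq_lt' (by linarith) (by linarith))
        have hsbe : 0 < √(be c y (s ^ 2)) := sqrt_pos.mpr hbe
        have : 0 < 1 / (s * √(be c y (s ^ 2))) := by positivity
        linarith
    linarith
  have hsS2 : s ^ 2 < 1 - c ^ 2 := by rw [← hS]; exact sq_lt' hs0.le hsS
  refine ⟨hs0, hs1, hsS, ?_⟩
  rw [h.deriv_eq hs1 hsS2 hy0 (fun t ht ht0 ht1 =>
    ⟨fun h1 => hmin t ht ht0 h1 s hs, fun h1 => lt_of_lt_of_le hsy h1⟩)] at hfo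
  have hal : 0 < al c (s ^ 2) := al_pos hsS2 (sq_lt' (by linarith) hs1) hc
  have hsal : 0 < √(al c (s ^ 2)) := sqrt_pos.mpr hal
  rcases mul_eq_zero.mp hfo with h6 | h6
  · exfalso
    have : 0 < 1 / (s * √(al c (s ^ 2))) := by positivity
    linarith
  · exact h6

/-- monotonicity comparison -/
theorem comp {S y : ℝ} (_hcS : c < S) (hS : S ^ 2 = 1 - c ^ 2)
    (hyB : y ∈ B) (hy0 : 0 < y) (hy1 : y ≠ 1) {s s' : ℝ} (hsy : |s - c| < y) (hsy' : |s' - c| < y)
    (hss : s < s') (hS' : s' < S) (hprod : c ^ 2 - y ^ 2 ≤ s * s') :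
      M c B b y (s' ^ 2) < M c B b y (s ^ 2) := by
  have hc := h.c0
  have hc1 := h.c_lt_one
  have hyτ := h.B_le hyB hy1
  have hτ := h.tau_lt
  have hyc : y < c := by linarith
  have h5 := abs_lt.mp hsy
  have h6 := abs_lt.mp hsy'
  have hs0 : 0 < s := by linarith
  apply h.M_lt hyB hy1
  intro t ht hyt ht1
  have htτ := h.B_le ht ht1
  have ht0 : 0 < t := by linarith
  have htc : t < c := by linarith
  have htc2 := sq_lt' ht0.le htc
  have hyt2 : y ^ 2 ≤ t ^ 2 := pow_le_pow_left₀ hy0.le hyt 2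
  apply R_lt hc (by linarith)
  · exact sq_lt' (by linarith) (by linarith)
  · exact sq_lt' hs0.le hss
  · rw [← hS]; exact sq_lt' (by linarith) hS'
  · have h7 : c ^ 2 - t ^ 2 ≤ s * s' := by linarith
    have h8 : 0 ≤ c ^ 2 - t ^ 2 := by linarith
    calc (c ^ 2 - t ^ 2) ^ 2 ≤ (s * s') ^ 2 := pow_le_pow_left₀ h8 h7 2
      _ = s ^ 2 * s' ^ 2 := by ring
  · exact sq_lt' (by linarith) (by linarith)
  · exact sq_lt' (by linarith) (by linarith)

theorem claim1 {y : ℝ} (hyB : y ∈ B) (hy0 : 0 < y) (hy1 : y ≠ 1) (hex : ∃ s ∈ A, |s - c| < y) :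
    ∃ s ∈ A, |s - c| < y ∧ c ^ 2 + y ^ 2 ≤ s ^ 2 := by
  have hc := h.c0
  have hc1 := h.c_lt_one
  have hyτ := h.B_le hyB hy1
  have hτ := h.tau_lt
  have hyc : y < c := by linarith
  by_contra hcon
  push Not at hcon
  obtain ⟨s₀, hs₀, hs₀y⟩ := hex
  have hev : ∀ᶠ ε in 𝓝[>] (0 : ℝ), ∀ x ∈ A, c + y < x → ε < x - c - y := by
    rw [Filter.eventually_all_finset]
    intro x hx
    by_cases hxc : c + y < x
    · have h1 : 0 < x - c - y := by linarith
      filter_upwards [mem_nhdsWithin_of_mem_nhds (gt_mem_nhds h1)] with ε hε _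
      exact hε
    · exact Eventually.of_forall fun ε h1 => absurd h1 hxc
  have hy11 : 0 < 1 - y := by linarith
  obtain ⟨ε, ⟨hε1, hε2⟩, hε3⟩ := (hev.and (mem_nhdsWithin_of_mem_nhds (gt_mem_nhds hy11))).and
    self_mem_nhdsWithin |>.exists
  have hε0 : 0 < ε := hε3
  have hε1' : ε < 1 - y := hε2
  have hstrict : ∀ x ∈ A, |x - c| < y → k c x (y + ε) < k c x y := by
    intro x hx hxy
    have h5 := abs_lt.mp hxy
    have hx0 : 0 < x := by linarith
    have hye : 0 < y + ε := by linarith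
    have hx2 := hcon x hx hxy
    rw [k_pos_def hx0 hy0, k_pos_def hx0 hye]
    have hu : u c x y < u c x (y + ε) := by
      have h1 := u_sub_t (c := c) hx0 hy0 hye
      have h2 : 0 < (y + ε - y) * (y * (y + ε) + c ^ 2 - x ^ 2) / (2 * x * y * (y + ε)) := by
        apply div_pos
        · apply mul_pos (by linarith)
          have : 0 < y * ε := mul_pos hy0 hε0
          have e : y * (y + ε) = y ^ 2 + y * ε := by ring
          rw [e]; linarith
        · positivity
      linarith
    exact arccos_lt_of_lt hu ((neg_one_lt_u hc hx0 hy0 (by linarith)).trans hu)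
      (u_lt_one hx0 hy0 (by linarith) (by linarith))
  have hQ : Q c A a (y + ε) < Q c A a y := by
    unfold Q
    apply Finset.sum_lt_sum
    · intro x hx
      apply mul_le_mul_of_nonneg_left _ (h.ha x hx).le
      rcases lt_or_ge (|x - c|) y with hxy | hxy
      · exact (hstrict x hx hxy).le
      · rcases le_abs.mp hxy with h6 | h6
        · have h7 : c + y < x := lt_of_le_of_ne (by linarith) (h.ne_add hx hyB hy0 hy1).symm
          rw [k_eq_zero hc (by linarith) (by linarith : 0 ≤ y + ε)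
            (by left; have := hε1 x hx h7; linarith)]
          exact k_nonneg _ _ _
        · exact k_anti_t hy0.le (by linarith) (h.hA x hx).1 (by linarith)
    · exact ⟨s₀, hs₀, mul_lt_mul_of_pos_left (hstrict s₀ hs₀ hs₀y) (h.ha s₀ hs₀)⟩
  have h6 := h.le_Q (t := y + ε) (by linarith) (by linarith)
  rw [h.Q_eq hyB] at hQ
  linarith

/-- concavity argument -/
theorem M_neg {y s w v : ℝ} (hyB : y ∈ B) (hy0 : 0 < y) (hy1 : y ≠ 1) (hM : M c B b y (s ^ 2) = 0)
    (hsw : s < w) (hwc : w < c) (hw : 0 < M c B b y (w ^ 2)) (hv1 : c - y < v) (hv2 : v < s) :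
    M c B b y (v ^ 2) < 0 := by
  have hc := h.c0
  have hyτ := h.B_le hyB hy1
  have hτ := h.tau_lt
  have hc1 := h.c_lt_one
  have hyc : y < c := by linarith
  by_contra hge
  push Not at hge
  have hv0 : 0 < v := by linarith
  have hconc := h.M_concave hy0
  have hlt1 : v ^ 2 < s ^ 2 := sq_lt' hv0.le hv2
  have hlt2 : s ^ 2 < w ^ 2 := sq_lt' (by linarith) hsw
  have hlt3 : w ^ 2 < c ^ 2 := sq_lt' (by linarith) hwc
  have hlt0 : (c - y) ^ 2 < v ^ 2 := sq_lt' (by linarith) hv1
  have hmem1 : v ^ 2 ∈ Ioo ((c - y) ^ 2) (c ^ 2) := ⟨hlt0, by linarith⟩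
  have hmem2 : w ^ 2 ∈ Ioo ((c - y) ^ 2) (c ^ 2) := ⟨by linarith, hlt3⟩
  have hden : 0 < w ^ 2 - v ^ 2 := by linarith
  have hp : 0 ≤ (w ^ 2 - s ^ 2) / (w ^ 2 - v ^ 2) := by
    apply div_nonneg <;> linarith
  have hq : 0 < (s ^ 2 - v ^ 2) / (w ^ 2 - v ^ 2) := by
    apply div_pos <;> linarith
  have hpq : (w ^ 2 - s ^ 2) / (w ^ 2 - v ^ 2) + (s ^ 2 - v ^ 2) / (w ^ 2 - v ^ 2) = 1 := by
    rw [← add_div, div_eq_one_iff_eq hden.ne']
    ring
  have hcomb : (w ^ 2 - s ^ 2) / (w ^ 2 - v ^ 2) * v ^ 2 +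
      (s ^ 2 - v ^ 2) / (w ^ 2 - v ^ 2) * w ^ 2 = s ^ 2 := by
    rw [div_mul_eq_mul_div, div_mul_eq_mul_div, ← add_div, div_eq_iff hden.ne']
    ring
  have h3 := hconc.2 hmem1 hmem2 hp hq.le hpq
  simp only [smul_eq_mul] at h3
  rw [hcomb, hM] at h3
  have h4 := mul_nonneg hp hge
  have h5 := mul_pos hq hw
  linarith

/-- differentiability of `P` to the left of a negative atom -/
theorem hasDerivAt_left {y s v : ℝ} (hyB : y ∈ B) (hy1 : y ≠ 1)
    (hmin : ∀ t ∈ B, 0 < t → t < y → ∀ s ∈ A, t < |s - c|) (hsA : s ∈ A) (hsc : s < c)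
    (hv1 : c - y < v) (hv2 : v ≤ s) :
    HasDerivAt (P c B b) (∑ t ∈ B, b t * (if t = 0 then 0 else dk c v t)) v := by
  have hc := h.c0
  have hyτ := h.B_le hyB hy1
  have hτ := h.tau_lt
  have hc1 := h.c_lt_one
  have hv0 : 0 < v := by linarith
  apply h.hasDerivAt_P hv0 (fun _ h1 => by linarith)
  intro t ht ht0
  by_cases ht1 : t = 1
  · subst ht1
    exact ⟨(neg_one_lt_u hc hv0 one_pos (by linarith)).ne',
      (u_lt_one hv0 one_pos (by linarith) (by linarith)).ne⟩
  · have htc := h.inner_le_c ht ht1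
    refine ⟨?_, (u_lt_one hv0 ht0 (by linarith) (by linarith)).ne⟩
    rcases lt_or_ge t y with hty | hty
    · have h7 := hmin t ht ht0 hty s hsA
      rw [abs_of_neg (by linarith)] at h7
      exact (u_lt_neg_one hc hv0 ht0 (by linarith)).ne
    · exact (neg_one_lt_u hc hv0 ht0 (by linarith)).ne'

theorem neg_side {S y s w : ℝ} (hcS : c < S) (hS : S ^ 2 = 1 - c ^ 2)
    (hyB : y ∈ B) (hy0 : 0 < y) (hy1 : y ≠ 1)
    (hmin : ∀ t ∈ B, 0 < t → t < y → ∀ s ∈ A, t < |s - c|) (hsA : s ∈ A) (hsy : |s - c| < y)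
    (hM : M c B b y (s ^ 2) = 0)
    (hsw : s < w) (hwc : w < c) (hw : 0 < M c B b y (w ^ 2)) : False := by
  have hc := h.c0
  have hyτ := h.B_le hyB hy1
  have hτ := h.tau_lt
  have hc1 := h.c_lt_one
  have hsc : s < c := by linarith
  have hsy' := abs_lt.mp hsy
  obtain ⟨v₀, hv₀1, hv₀2⟩ := exists_between (show c - y < s by linarith)
  obtain ⟨ξ, hξ, hξeq⟩ := exists_hasDerivAt_eq_slope (P c B b)
    (fun v => ∑ t ∈ B, b t * (if t = 0 then 0 else dk c v t)) hv₀2
    (fun v hv => (h.hasDerivAt_left hyB hy1 hmin hsA hsc (by linarith [hv.1]) hv.2).continuousAt.continuousWithinAt)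
    (fun v hv => h.hasDerivAt_left hyB hy1 hmin hsA hsc (by linarith [hv.1]) hv.2.le)
  have hξ1 := hξ.1
  have hξ2 := hξ.2
  have hξ0 : 0 < ξ := by linarith
  have hξ3 : 1 - c < ξ := by linarith
  have hξ4 : ξ ^ 2 < 1 - c ^ 2 := by rw [← hS]; exact sq_lt' hξ0.le (by linarith)
  have hξabs : |ξ - c| = c - ξ := by
    rw [abs_of_neg (by linarith)]; ring
  have hde := h.deriv_eq (s := ξ) hξ3 hξ4 hy0 (fun t ht ht0 ht1 => by
    rw [hξabs]
    constructor
    · intro hty
      have h7 := hmin t ht ht0 hty s hsA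
      rw [abs_of_neg (by linarith)] at h7
      linarith
    · intro hty
      linarith)
  have hal : 0 < al c (ξ ^ 2) := al_pos hξ4 (sq_lt' (by linarith) hξ3) hc
  have hsal : 0 < √(al c (ξ ^ 2)) := sqrt_pos.mpr hal
  have hMneg := h.M_neg hyB hy0 hy1 hM hsw hwc hw (show c - y < ξ by linarith) hξ2
  have hdneg : (∑ t ∈ B, b t * (if t = 0 then 0 else dk c ξ t)) < 0 := by
    rw [hde]
    apply mul_neg_of_pos_of_neg _ hMneg
    positivity
  have hslope : (P c B b s - P c B b v₀) / (s - v₀) < 0 := by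
    rw [← hξeq]; exact hdneg
  have hnum : P c B b s - P c B b v₀ < 0 := by
    by_contra hge
    push Not at hge
    have : 0 ≤ (P c B b s - P c B b v₀) / (s - v₀) := div_nonneg hge (by linarith)
    linarith
  have h8 := h.P_le (s := v₀) (by linarith) (by linarith)
  rw [h.P_eq hsA] at hnum
  linarith

theorem no_shell {y : ℝ} (hyB : y ∈ B) (hy0 : 0 < y) (hy1 : y ≠ 1) (hex : ∃ s ∈ A, |s - c| < y)
    (hmin : ∀ t ∈ B, 0 < t → t < y → ∀ s ∈ A, t < |s - c|) : False := by
  obtain ⟨S, hcS, hS1, hS⟩ := h.exists_S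
  have hc := h.c0
  have hc1 := h.c_lt_one
  have hyτ := h.B_le hyB hy1
  have hτ := h.tau_lt
  have hyc : y < c := by linarith
  obtain ⟨sp, hspA, hspy, hsp2⟩ := h.claim1 hyB hy0 hy1 hex
  obtain ⟨hsp0, hsp1, hspS, hMp⟩ := h.act hcS hS hyB hy0 hy1 hmin hspA hspy
  have hspc : c < sp := by
    have : c ^ 2 < sp ^ 2 := by
      have : 0 < y ^ 2 := by positivity
      linarith
    exact lt_of_pow_lt_pow_left₀ 2 hsp0.le this
  have hspy' := abs_lt.mp hspy
  -- uniqueness
  have huniq : ∀ s ∈ A, |s - c| < y → s = sp := by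
    intro s hsA hsy
    by_contra hne
    obtain ⟨hs0, hs1, hsS, hM⟩ := h.act hcS hS hyB hy0 hy1 hmin hsA hsy
    have hsy' := abs_lt.mp hsy
    have hy2 : 0 < y ^ 2 := by positivity
    rcases le_or_gt c s with hcs | hcs
    · have hprod : c * c ≤ s * sp := mul_le_mul hcs hspc.le hc.le hs0.le
      rcases lt_or_gt_of_ne hne with hlt | hlt
      · have := h.comp hcS hS hyB hy0 hy1 hsy hspy hlt hspS (by linarith)
        linarith
      · have := h.comp hcS hS hyB hy0 hy1 hspy hsy hlt hsS (by linarith)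
        linarith
    · -- s < c
      rcases le_or_gt (c - s) (sp - c) with hzx | hzx
      · have hprod : c ^ 2 - y ^ 2 ≤ s * sp := by
          have h1 : s * (2 * c - s) ≤ s * sp := mul_le_mul_of_nonneg_left (by linarith) hs0.le
          have h2 : (c - s) ^ 2 ≤ y ^ 2 := by
            apply pow_le_pow_left₀ <;> linarith
          have h3 : s * (2 * c - s) = c ^ 2 - (c - s) ^ 2 := by ring
          linarith
        have := h.comp hcS hS hyB hy0 hy1 hsy hspy (by linarith) hspS hprod
        linarith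
      · -- z > x : use concavity of M
        have hw1 : |2 * c - sp - c| < y := by rw [abs_lt]; constructor <;> linarith
        have hprod : c ^ 2 - y ^ 2 ≤ (2 * c - sp) * sp := by
          have h2 : (sp - c) ^ 2 ≤ y ^ 2 := by
            apply pow_le_pow_left₀ <;> linarith
          have h3 : (2 * c - sp) * sp = c ^ 2 - (sp - c) ^ 2 := by ring
          linarith
        have h1 := h.comp hcS hS hyB hy0 hy1 hw1 hspy (by linarith) hspS hprod
        exact h.neg_side hcS hS hyB hy0 hy1 hmin hsA hsy hM (w := 2 * c - sp) (by linarith)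
          (by linarith) (by linarith)
  -- final contradiction
  have hstrict : k c sp (y / 2) < k c sp y := by
    have hy2 : 0 < y / 2 := by linarith
    rw [k_pos_def hsp0 hy0, k_pos_def hsp0 hy2]
    have hu : u c sp y < u c sp (y / 2) := by
      have h1 := u_sub_t (c := c) hsp0 hy2 hy0
      have h2 : (y - y / 2) * (y / 2 * y + c ^ 2 - sp ^ 2) / (2 * sp * (y / 2) * y) < 0 := by
        apply div_neg_of_neg_of_pos
        · apply mul_neg_of_pos_of_neg (by linarith)
          have : 0 < y ^ 2 := by positivity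
          have e : y / 2 * y = y ^ 2 / 2 := by ring
          rw [e]; linarith
        · positivity
      linarith
    exact arccos_lt_of_lt hu ((neg_one_lt_u hc hsp0 hy0 (by linarith)).trans hu)
      (u_lt_one hsp0 hy0 (by linarith) (by linarith))
  have hQ : Q c A a (y / 2) < Q c A a y := by
    unfold Q
    apply Finset.sum_lt_sum
    · intro x hx
      apply mul_le_mul_of_nonneg_left _ (h.ha x hx).le
      rcases lt_or_ge (|x - c|) y with hxy | hxy
      · rw [huniq x hx hxy]
        exact hstrict.le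
      · rcases le_abs.mp hxy with h6 | h6
        · rw [k_eq_zero hc (by linarith) (by linarith : 0 ≤ y / 2) (by left; linarith)]
          exact k_nonneg _ _ _
        · rw [k_eq_pi hc (h.hA x hx).1 hy0.le (by linarith)]
          exact k_le_pi _ _ _
    · exact ⟨sp, hspA, mul_lt_mul_of_pos_left hstrict (h.ha sp hspA)⟩
  have h9 := h.le_Q (t := y / 2) (by linarith) (by linarith)
  rw [h.Q_eq hyB] at hQ
  linarith

/-- all RED's radii exceed `c` -/
theorem c_lt_A : ∀ s ∈ A, c < s := by
  obtain ⟨S, hcS, hS1, hS⟩ := h.exists_S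
  have hc := h.c0
  have hc1 := h.c_lt_one
  have hτ := h.tau_lt
  have hτ0 := h.tau_pos
  intro s hs
  by_cases hI : (B.filter fun t => 0 < t ∧ t ≠ 1).Nonempty
  · -- some inner radius
    set I := B.filter fun t => 0 < t ∧ t ≠ 1 with hIdef
    have hmemI : ∀ t, t ∈ I ↔ t ∈ B ∧ 0 < t ∧ t ≠ 1 := by
      intro t; rw [hIdef, Finset.mem_filter]
    set Y := I.max' hI with hY
    obtain ⟨hYB, hY0, hY1⟩ := (hmemI Y).mp (I.max'_mem hI)
    have hYτ := h.B_le hYB hY1
    have hYle : ∀ t ∈ B, t ≠ 1 → t ≤ Y := by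
      intro t ht ht1
      rcases (h.hB t ht).1.eq_or_lt with ht0 | ht0
      · rw [← ht0]; exact hY0.le
      · exact I.le_max' t ((hmemI t).mpr ⟨ht, ht0, ht1⟩)
    have hno : ∀ s ∈ A, Y ≤ |s - c| := by
      intro s₀ hs₀
      by_contra hlt
      push Not at hlt
      classical
      set J := I.filter fun t => ∃ s ∈ A, |s - c| < t with hJdef
      have hJ : J.Nonempty := ⟨Y, Finset.mem_filter.mpr ⟨I.max'_mem hI, s₀, hs₀, hlt⟩⟩
      obtain ⟨hyI, hyex⟩ := Finset.mem_filter.mp (J.min'_mem hJ)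
      obtain ⟨hyB, hy0, hy1⟩ := (hmemI _).mp hyI
      apply h.no_shell hyB hy0 hy1 hyex
      intro t ht ht0 hty s₁ hs₁
      have ht1 : t ≠ 1 := by
        intro h1
        have := h.B_le hyB hy1
        linarith
      have h1 : ¬ |s₁ - c| < t := by
        intro h2
        have h3 : t ∈ J := Finset.mem_filter.mpr ⟨(hmemI t).mpr ⟨ht, ht0, ht1⟩, s₁, hs₁, h2⟩
        exact absurd (J.min'_le t h3) (not_le.mpr hty)
      push Not at h1
      refine lt_of_le_of_ne h1 ?_
      intro heq
      rcases le_or_gt c s₁ with h2 | h2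
      · rw [abs_of_nonneg (by linarith)] at heq
        exact h.ne_add hs₁ ht ht0 ht1 (by linarith)
      · rw [abs_of_neg (by linarith)] at heq
        have htc := h.inner_le_c ht ht1
        exact h.add_ne hs₁ ht (by linarith) ht0 (by linarith)
    have h1 := h.le_A hY0.le hYτ hYle hs
    rcases le_abs.mp (hno s hs) with h2 | h2
    · linarith
    · exfalso
      exact h.add_ne hs hYB (by linarith) hY0 (by linarith)
  · -- BLUE only uses 0 and 1
    rw [Finset.not_nonempty_iff_eq_empty, Finset.filter_eq_empty_iff] at hI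
    have hB01 : ∀ t ∈ B, t = 0 ∨ t = 1 := by
      intro t ht
      have := hI ht
      rcases (h.hB t ht).1.eq_or_lt with ht0 | ht0
      · exact Or.inl ht0.symm
      · right
        by_contra h1
        exact this ⟨ht0, h1⟩
    have h1 := h.le_A le_rfl hτ0.le (fun t ht ht1 => by
      rcases hB01 t ht with h2 | h2
      · exact h2.le
      · exact absurd h2 ht1) hs
    refine lt_of_le_of_ne (by linarith) ?_
    intro heq
    have h0 : (0 : ℝ) ∉ B := fun h0 => h.c_not_mem h0 (heq ▸ hs)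
    have hB1 : ∀ t ∈ B, t = 1 := by
      intro t ht
      rcases hB01 t ht with h2 | h2
      · exact absurd (h2 ▸ ht) h0
      · exact h2
    have hlt : k c s 1 < k c S 1 := by
      have hs0 : 0 < s := by linarith
      have hS0 : 0 < S := by linarith
      rw [k_pos_def hs0 one_pos, k_pos_def hS0 one_pos]
      have hu : u c S 1 < u c s 1 := by
        have h1 := u_sub_s (c := c) hs0 hS0 one_pos
        have h2 : (S - s) * (s * S + c ^ 2 - 1 ^ 2) / (2 * s * S * 1) < 0 := by
          apply div_neg_of_neg_of_pos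
          · apply mul_neg_of_pos_of_neg (by linarith)
            rw [← heq]
            nlinarith
          · positivity
        linarith
      exact arccos_lt_of_lt hu (neg_one_lt_u hc hs0 one_pos (by linarith))
        (u_lt_one hS0 one_pos (by linarith) (by linarith))
    have h2 : P c B b S ≤ P c B b s :=
      (h.P_le (by linarith) hS1.le).trans (h.P_eq hs).symm.le
    have h3 := sum_compare h.hb (f := fun t => k c s t) (g := fun t => k c S t) (fun t ht => by
      rw [hB1 t ht]; exact hlt.le) h2 1 h.one_mem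
    exact hlt.ne h3

theorem false_of_sad : False := by
  have hc := h.c0
  have h1 : Q c A a 0 = 0 := by
    unfold Q
    apply Finset.sum_eq_zero
    intro s hs
    have h2 := h.c_lt_A s hs
    rw [k_eq_zero hc (by linarith) le_rfl (by left; linarith), mul_zero]
  have h2 := h.le_Q le_rfl zero_le_one
  have h3 := h.V_pos
  linarith

end Sad

end Pool.Agent.H66.Disc
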