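import Pool.Agent.H66.FlagHom

set_option autoImplicit false
set_option linter.unusedSectionVars false

namespace Pool.Agent.H66.Flag

open Finset

section Basic

variable {V : Type} (G : SimpleGraph V)

/-- the cliques inside `W` -/
def Cl (W : Set V) : Set (Finset V) :=
  {τ | (∀ x ∈ τ, x ∈ W) ∧ ∀ x ∈ τ, ∀ y ∈ τ, x ≠ y → G.Adj x y}

theorem Cl_down (W : Set V) : ∀ s ∈ Cl G W, ∀ t, t ⊆ s → t ∈ Cl G W := by
  rintro s ⟨h1, h2⟩ t ht
  exact ⟨fun x hx => h1 x (ht hx), fun x hx y hy => h2 x (ht hx) y (ht hy)⟩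

/-- the clique complex -/
def cliqueCx : SCx V where
  faces := {τ | ∀ x ∈ τ, ∀ y ∈ τ, x ≠ y → G.Adj x y}
  empty_mem := by simp
  down := fun _ h _ ht x hx y hy => h x (ht hx) y (ht hy)

/-- common neighbours -/
def CN (σ : Finset V) : Set V := {w | ∀ s ∈ σ, G.Adj s w}

/-- combinatorial acyclicity -/
inductive Ac : Set V → Prop
  | cone (W : Set V) (a : V) (ha : a ∈ W) (h : ∀ w ∈ W, w ≠ a → G.Adj a w) : Ac W
  | step (W : Set V) (v : V) (hv : v ∈ W) (h1 : Ac {w | w ∈ W ∧ G.Adj v w})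
      (h2 : Ac {w | w ∈ W ∧ w ≠ v}) : Ac W

/-- combinatorial spheres -/
inductive Sp : Set V → ℕ → Prop
  | empty : Sp ∅ 0
  | keep (W : Set V) (k : ℕ) (v : V) (hv : v ∈ W) (h1 : Ac G {w | w ∈ W ∧ G.Adj v w})
      (h2 : Sp {w | w ∈ W ∧ w ≠ v} k) : Sp W k
  | susp (W : Set V) (k : ℕ) (v : V) (hv : v ∈ W) (h1 : Ac G {w | w ∈ W ∧ w ≠ v})
      (h2 : Sp {w | w ∈ W ∧ G.Adj v w} k) : Sp W (k + 1)

open Polynomial in
/-- clique counting -/
inductive Cnt : Set V → ℤ[X] → Prop
  | empty : Cnt ∅ 1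
  | step (W : Set V) (v : V) (hv : v ∈ W) (p q : ℤ[X]) (h1 : Cnt {w | w ∈ W ∧ w ≠ v} p)
      (h2 : Cnt {w | w ∈ W ∧ G.Adj v w} q) : Cnt W (p + X * q)

end Basic

section Transport

variable {U V : Type} {H : SimpleGraph U} {G : SimpleGraph V} {φ : U → V}

theorem image_adj {W : Set U} (hadj : ∀ x ∈ W, ∀ y ∈ W, H.Adj x y ↔ G.Adj (φ x) (φ y)) {v : U}
    (hv : v ∈ W) : {w | w ∈ φ '' W ∧ G.Adj (φ v) w} = φ '' {w | w ∈ W ∧ H.Adj v w} := by
  ext w
  constructor
  · rintro ⟨⟨x, hx, rfl⟩, h⟩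
    exact ⟨x, ⟨hx, (hadj v hv x hx).mpr h⟩, rfl⟩
  · rintro ⟨x, ⟨hx, h⟩, rfl⟩
    exact ⟨⟨x, hx, rfl⟩, (hadj v hv x hx).mp h⟩

theorem image_ne {W : Set U} (hinj : Set.InjOn φ W) {v : U}
    (hv : v ∈ W) : {w | w ∈ φ '' W ∧ w ≠ φ v} = φ '' {w | w ∈ W ∧ w ≠ v} := by
  ext w
  constructor
  · rintro ⟨⟨x, hx, rfl⟩, h⟩
    exact ⟨x, ⟨hx, fun h' => h (by rw [h'])⟩, rfl⟩
  · rintro ⟨x, ⟨hx, h⟩, rfl⟩
    exact ⟨⟨x, hx, rfl⟩, fun h' => h (hinj hx hv h')⟩

theorem Ac.map {W : Set U} (h : Ac H W) (hinj : Set.InjOn φ W)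
    (hadj : ∀ x ∈ W, ∀ y ∈ W, H.Adj x y ↔ G.Adj (φ x) (φ y)) : Ac G (φ '' W) := by
  induction h with
  | cone W a ha h =>
    refine Ac.cone _ (φ a) ⟨a, ha, rfl⟩ ?_
    rintro _ ⟨x, hx, rfl⟩ hne
    exact (hadj a ha x hx).mp (h x hx (fun h' => hne (by rw [h'])))
  | step W v hv h1 h2 ih1 ih2 =>
    refine Ac.step _ (φ v) ⟨v, hv, rfl⟩ ?_ ?_
    · rw [image_adj hadj hv]
      exact ih1 (hinj.mono (fun x hx => hx.1)) (fun x hx y hy => hadj x hx.1 y hy.1)
    · rw [image_ne hinj hv]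
      exact ih2 (hinj.mono (fun x hx => hx.1)) (fun x hx y hy => hadj x hx.1 y hy.1)

theorem Sp.map {W : Set U} {k : ℕ} (h : Sp H W k) (hinj : Set.InjOn φ W)
    (hadj : ∀ x ∈ W, ∀ y ∈ W, H.Adj x y ↔ G.Adj (φ x) (φ y)) : Sp G (φ '' W) k := by
  induction h with
  | empty => rw [Set.image_empty]; exact Sp.empty
  | keep W k v hv h1 h2 ih2 =>
    refine Sp.keep _ k (φ v) ⟨v, hv, rfl⟩ ?_ ?_
    · rw [image_adj hadj hv]
      exact h1.map (hinj.mono (fun x hx => hx.1)) (fun x hx y hy => hadj x hx.1 y hy.1)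
    · rw [image_ne hinj hv]
      exact ih2 (hinj.mono (fun x hx => hx.1)) (fun x hx y hy => hadj x hx.1 y hy.1)
  | susp W k v hv h1 h2 ih2 =>
    refine Sp.susp _ k (φ v) ⟨v, hv, rfl⟩ ?_ ?_
    · rw [image_ne hinj hv]
      exact h1.map (hinj.mono (fun x hx => hx.1)) (fun x hx y hy => hadj x hx.1 y hy.1)
    · rw [image_adj hadj hv]
      exact ih2 (hinj.mono (fun x hx => hx.1)) (fun x hx y hy => hadj x hx.1 y hy.1)

open Polynomial in
theorem Cnt.map {W : Set U} {q : ℤ[X]} (h : Cnt H W q) (hinj : Set.InjOn φ W)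
    (hadj : ∀ x ∈ W, ∀ y ∈ W, H.Adj x y ↔ G.Adj (φ x) (φ y)) : Cnt G (φ '' W) q := by
  induction h with
  | empty => rw [Set.image_empty]; exact Cnt.empty
  | step W v hv p q h1 h2 ih1 ih2 =>
    refine Cnt.step (φ '' W) (φ v) ⟨v, hv, rfl⟩ p q ?_ ?_
    · rw [image_ne hinj hv]
      exact ih1 (hinj.mono (fun x hx => hx.1)) (fun x hx y hy => hadj x hx.1 y hy.1)
    · rw [image_adj hadj hv]
      exact ih2 (hinj.mono (fun x hx => hx.1)) (fun x hx y hy => hadj x hx.1 y hy.1)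

end Transport

section ToHom

variable {V : Type} [LinearOrder V] {G : SimpleGraph V} {R : Type} [CommRing R]

theorem lnk_Cl {W : Set V} {v : V} (hv : v ∈ W) :
    lnk (Cl G W) v = Cl G {w | w ∈ W ∧ G.Adj v w} := by
  ext τ
  constructor
  · rintro ⟨h1, h2, h3⟩
    refine ⟨fun x hx => ?_, fun x hx y hy =>
      h3 x (mem_insert_of_mem hx) y (mem_insert_of_mem hy)⟩
    refine ⟨h2 x (mem_insert_of_mem hx), ?_⟩
    exact h3 v (mem_insert_self _ _) x (mem_insert_of_mem hx) (fun h => h1 (h ▸ hx))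
  · rintro ⟨h1, h2⟩
    refine ⟨fun h => (h1 v h).2.ne rfl, ?_, ?_⟩
    · intro x hx
      rcases mem_insert.mp hx with rfl | hx
      · exact hv
      · exact (h1 x hx).1
    · intro x hx y hy hxy
      rcases mem_insert.mp hx with rfl | hx
      · rcases mem_insert.mp hy with rfl | hy
        · exact absurd rfl hxy
        · exact (h1 y hy).2
      · rcases mem_insert.mp hy with hy' | hy
        · rw [hy']; exact (h1 x hx).2.symm
        · exact h2 x hx y hy hxy

theorem del_Cl {W : Set V} {v : V} :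
    del (Cl G W) v = Cl G {w | w ∈ W ∧ w ≠ v} := by
  ext τ
  constructor
  · rintro ⟨⟨h1, h2⟩, h3⟩
    refine ⟨fun x hx => ?_, h2⟩
    exact ⟨h1 x hx, fun h => h3 (h ▸ hx)⟩
  · rintro ⟨h1, h2⟩
    exact ⟨⟨fun x hx => (h1 x hx).1, h2⟩, fun h => (h1 v h).2 rfl⟩

theorem Ac.acyc {W : Set V} (h : Ac G W) : Acyc R (Cl G W) := by
  induction h with
  | cone W a ha h =>
    refine Acyc_of_cone R a ?_
    rintro τ ⟨h1, h2⟩
    refine ⟨?_, ?_⟩
    · intro x hx
      rcases mem_insert.mp hx with rfl | hx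
      · exact ha
      · exact h1 x hx
    · intro x hx y hy hxy
      rcases mem_insert.mp hx with rfl | hx
      · rcases mem_insert.mp hy with rfl | hy
        · exact absurd rfl hxy
        · exact h y (h1 y hy) hxy.symm
      · rcases mem_insert.mp hy with hy' | hy
        · rw [hy'] at hxy ⊢; exact (h x (h1 x hx) hxy).symm
        · exact h2 x hx y hy hxy
  | step W v hv h1 h2 ih1 ih2 =>
    refine Acyc_of_lnk_del (Cl_down G W) v ?_ ?_
    · rw [lnk_Cl hv]; exact ih1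
    · rw [del_Cl]; exact ih2

theorem Cl_empty : Cl G ∅ = {∅} := by
  ext τ
  constructor
  · rintro ⟨h1, _⟩
    exact Finset.eq_empty_of_forall_notMem (fun x hx => h1 x hx)
  · rintro rfl
    exact ⟨by simp, by simp⟩

theorem Sp.sph {W : Set V} {k : ℕ} (h : Sp G W k) : Sph R (Cl G W) k := by
  induction h with
  | empty => rw [Cl_empty]; exact Sph_empty
  | keep W k v hv h1 h2 ih2 =>
    refine Sph_of_lnk_acyc (Cl_down G W) v ?_ ?_
    · rw [lnk_Cl hv]; exact h1.acyc
    · rw [del_Cl]; exact ih2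
  | susp W k v hv h1 h2 ih2 =>
    refine Sph_of_del_acyc (Cl_down G W) v ?_ ?_
    · rw [lnk_Cl hv]; exact ih2
    · rw [del_Cl]; exact h1.acyc

theorem link_cliqueCx {σ : Finset V} (hσ : σ ∈ (cliqueCx G).faces) :
    linkFaces (cliqueCx G) σ = Cl G (CN G σ) := by
  ext τ
  constructor
  · rintro ⟨h1, h2⟩
    refine ⟨fun x hx s hs => ?_, fun x hx y hy => ?_⟩
    · exact h2 s (mem_union_left _ hs) x (mem_union_right _ hx)
        (fun h => (Finset.disjoint_left.mp h1 hs) (h ▸ hx))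
    · exact h2 x (mem_union_right _ hx) y (mem_union_right _ hy)
  · rintro ⟨h1, h2⟩
    refine ⟨Finset.disjoint_left.mpr fun s hs hs' => (h1 s hs' s hs).ne rfl, ?_⟩
    intro x hx y hy hxy
    rcases mem_union.mp hx with hx | hx
    · rcases mem_union.mp hy with hy | hy
      · exact hσ x hx y hy hxy
      · exact h1 y hy x hx
    · rcases mem_union.mp hy with hy | hy
      · exact (h1 x hx y hy).symm
      · exact h2 x hx y hy hxy

theorem cliqueCx_flag : IsFlag (cliqueCx G) := by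
  intro s hs x hx y hy hxy
  exact hs x hx y hy x (by simp) y (by simp) hxy

end ToHom

/-- all links of nonempty cliques are combinatorial spheres -/
def GraphMfd {V : Type} (G : SimpleGraph V) (d : ℕ) : Prop :=
  ∀ σ ∈ (cliqueCx G).faces, σ.Nonempty → ∃ k : ℕ, k + σ.card = d ∧ Sp G (CN G σ) k

theorem GraphMfd.mfd {V : Type} [LinearOrder V] {G : SimpleGraph V} {d : ℕ} (h : GraphMfd G d)
    (R : Type) [CommRing R] : IsHomologyManifold R d (cliqueCx G) := by
  intro σ hσ hne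
  obtain ⟨k, hk, hsp⟩ := h σ hσ hne
  refine ⟨k, hk, ?_⟩
  rw [link_cliqueCx hσ]
  exact hsp.sph.has

theorem GraphMfd.comap {U V : Type} [DecidableEq U] [DecidableEq V] {G : SimpleGraph V} {d : ℕ}
    (h : GraphMfd G d) (e : U ≃ V) : GraphMfd (G.comap e) d := by
  intro σ hσ hne
  have h1 : σ.map e.toEmbedding ∈ (cliqueCx G).faces := by
    intro x hx y hy hxy
    obtain ⟨x', hx', rfl⟩ := Finset.mem_map.mp hx
    obtain ⟨y', hy', rfl⟩ := Finset.mem_map.mp hy
    exact hσ x' hx' y' hy' (fun h => hxy (by rw [h]))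
  obtain ⟨k, hk, hsp⟩ := h _ h1 ((Finset.map_nonempty).mpr hne)
  rw [Finset.card_map] at hk
  refine ⟨k, hk, ?_⟩
  have h2 : CN (G.comap e) σ = e.symm '' (CN G (σ.map e.toEmbedding)) := by
    ext w
    constructor
    · intro hw
      refine ⟨e w, ?_, by simp⟩
      intro s hs
      obtain ⟨x', hx', rfl⟩ := Finset.mem_map.mp hs
      exact hw x' hx'
    · rintro ⟨x, hx, rfl⟩ s hs
      have := hx (e s) (Finset.mem_map.mpr ⟨s, hs, rfl⟩)
      simpa [SimpleGraph.comap_adj] using this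
  rw [h2]
  refine hsp.map e.symm.injective.injOn ?_
  intro x _ y _
  simp [SimpleGraph.comap_adj]

section Cross

variable {ι : Type} [DecidableEq ι] {G : SimpleGraph (ι × Bool)}

theorem cross_split (P : Finset ι) (p : ι) (w : ι × Bool) :
    w.1 ∈ insert p P ↔ w = (p, true) ∨ w = (p, false) ∨ w.1 ∈ P := by
  rcases w with ⟨q, e⟩
  simp only [mem_insert, Prod.mk.injEq]
  cases e <;> simp

theorem cross_Sp (P : Finset ι) (hadj : ∀ p ∈ P, ∀ q ∈ P, p ≠ q → ∀ e f, G.Adj (p, e) (q, f))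
    (hnon : ∀ p ∈ P, ∀ e f, ¬ G.Adj (p, e) (p, f)) : Sp G {w | w.1 ∈ P} P.card := by
  induction P using Finset.induction_on with
  | empty =>
    have : {w : ι × Bool | w.1 ∈ (∅ : Finset ι)} = ∅ := by ext w; simp
    rw [this]; exact Sp.empty
  | insert p P hp ih =>
    rw [card_insert_of_notMem hp]
    refine Sp.susp _ _ (p, true) (by simp) ?_ ?_
    · refine Ac.cone _ (p, false) (by simp) ?_
      rintro w ⟨hw1, hw2⟩ hw3
      rcases (cross_split P p w).mp hw1 with h | h | h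
      · exact absurd h hw2
      · exact absurd h hw3
      · exact hadj p (mem_insert_self _ _) w.1 (mem_insert_of_mem h) (fun h' => hp (h' ▸ h)) _ _
    · have : {w : ι × Bool | w ∈ {w : ι × Bool | w.1 ∈ insert p P} ∧ G.Adj (p, true) w} =
          {w | w.1 ∈ P} := by
        ext w
        constructor
        · rintro ⟨hw1, hw2⟩
          rcases (cross_split P p w).mp hw1 with h | h | h
          · rw [h] at hw2; exact absurd hw2 (hnon p (mem_insert_self _ _) _ _)
          · rw [h] at hw2; exact absurd hw2 (hnon p (mem_insert_self _ _) _ _)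
          · exact h
        · intro hw
          exact ⟨mem_insert_of_mem hw, hadj p (mem_insert_self _ _) w.1 (mem_insert_of_mem hw)
            (fun h' => hp (h' ▸ hw)) _ _⟩
      rw [this]
      exact ih (fun a ha b hb => hadj a (mem_insert_of_mem ha) b (mem_insert_of_mem hb))
        (fun a ha => hnon a (mem_insert_of_mem ha))

open Polynomial in
theorem cross_Cnt (P : Finset ι) (hadj : ∀ p ∈ P, ∀ q ∈ P, p ≠ q → ∀ e f, G.Adj (p, e) (q, f))
    (hnon : ∀ p ∈ P, ∀ e f, ¬ G.Adj (p, e) (p, f)) :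
    Cnt G {w | w.1 ∈ P} ((1 + 2 * X) ^ P.card) := by
  induction P using Finset.induction_on with
  | empty =>
    have : {w : ι × Bool | w.1 ∈ (∅ : Finset ι)} = ∅ := by ext w; simp
    rw [this]; simpa using Cnt.empty
  | insert p P hp ih =>
    rw [card_insert_of_notMem hp]
    have hih := ih (fun a ha b hb => hadj a (mem_insert_of_mem ha) b (mem_insert_of_mem hb))
        (fun a ha => hnon a (mem_insert_of_mem ha))
    have h1 : {w : ι × Bool | w ∈ {w : ι × Bool | w.1 ∈ insert p P} ∧ G.Adj (p, true) w} =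
          {w | w.1 ∈ P} := by
      ext w
      constructor
      · rintro ⟨hw1, hw2⟩
        rcases (cross_split P p w).mp hw1 with h | h | h
        · rw [h] at hw2; exact absurd hw2 (hnon p (mem_insert_self _ _) _ _)
        · rw [h] at hw2; exact absurd hw2 (hnon p (mem_insert_self _ _) _ _)
        · exact h
      · intro hw
        exact ⟨mem_insert_of_mem hw, hadj p (mem_insert_self _ _) w.1 (mem_insert_of_mem hw)
          (fun h' => hp (h' ▸ hw)) _ _⟩
    set W' : Set (ι × Bool) := {w | w ∈ {w : ι × Bool | w.1 ∈ insert p P} ∧ w ≠ (p, true)} with hW'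
    have hmem : ∀ w, w ∈ W' ↔ w = (p, false) ∨ w.1 ∈ P := by
      intro w
      constructor
      · rintro ⟨hw1, hw2⟩
        rcases (cross_split P p w).mp hw1 with h | h | h
        · exact absurd h hw2
        · exact Or.inl h
        · exact Or.inr h
      · rintro (h | h)
        · rw [h]; exact ⟨by simp, by simp⟩
        · exact ⟨mem_insert_of_mem h, fun h' => hp (by rw [h'] at h; exact h)⟩
    have h2 : {w | w ∈ W' ∧ w ≠ (p, false)} = {w | w.1 ∈ P} := by
      ext w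
      constructor
      · rintro ⟨hw1, hw2⟩
        rcases (hmem w).mp hw1 with h | h
        · exact absurd h hw2
        · exact h
      · intro hw
        exact ⟨(hmem w).mpr (Or.inr hw), fun h' => hp (by
          have hw' : w.1 ∈ P := hw
          rw [h'] at hw'; exact hw')⟩
    have h3 : {w | w ∈ W' ∧ G.Adj (p, false) w} = {w | w.1 ∈ P} := by
      ext w
      constructor
      · rintro ⟨hw1, hw2⟩
        rcases (hmem w).mp hw1 with h | h
        · rw [h] at hw2; exact absurd hw2 (hnon p (mem_insert_self _ _) _ _)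
        · exact h
      · intro hw
        exact ⟨(hmem w).mpr (Or.inr hw), hadj p (mem_insert_self _ _) w.1 (mem_insert_of_mem hw)
          (fun h' => hp (h' ▸ hw)) _ _⟩
    have h4 : Cnt G W' ((1 + 2 * X) ^ P.card + X * (1 + 2 * X) ^ P.card) := by
      refine Cnt.step W' (p, false) ((hmem _).mpr (Or.inl rfl)) _ _ ?_ ?_
      · rw [h2]; exact hih
      · rw [h3]; exact hih
    have h5 : Cnt G {w : ι × Bool | w.1 ∈ insert p P}
        (((1 + 2 * X) ^ P.card + X * (1 + 2 * X) ^ P.card) + X * (1 + 2 * X) ^ P.card) := by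
      refine Cnt.step _ (p, true) (by simp) _ _ h4 ?_
      rw [h1]; exact hih
    convert h5 using 1
    ring

end Cross

end Pool.Agent.H66.Flag
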