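import Pool.Agent.H66.FlagRing

set_option autoImplicit false
set_option linter.unusedSectionVars false

namespace Pool.Agent.H66.Flag

open Finset Polynomial

section General

/-- splitting a sum according to a uniquely determined label -/
theorem sum_unique {ι β : Type} [Fintype β] (s : Finset ι) (T : ι → β → Prop)
    [∀ i b, Decidable (T i b)] (h : ∀ i ∈ s, ∃! b, T i b) (f : ι → ℤ[X]) :
    ∑ i ∈ s, f i = ∑ b : β, ∑ i ∈ s.filter (fun i => T i b), f i := by
  classical
  simp_rw [Finset.sum_filter]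
  rw [Finset.sum_comm]
  apply Finset.sum_congr rfl
  intro i hi
  obtain ⟨b, hb, hb'⟩ := h i hi
  rw [Finset.sum_eq_single b]
  · rw [if_pos hb]
  · intro c _ hc
    rw [if_neg (fun hT => hc (hb' c hT))]
  · intro h; exact absurd (mem_univ b) h

theorem gen_comap {U V : Type} [Fintype U] [Fintype V] (G : SimpleGraph V) (e : U ≃ V) :
    gen (cliqueCx (G.comap e)).faces = gen (cliqueCx G).faces := by
  classical
  unfold gen
  refine Finset.sum_bij' (fun τ _ => τ.map e.toEmbedding) (fun τ _ => τ.map e.symm.toEmbedding)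
    ?_ ?_ ?_ ?_ ?_
  · intro τ hτ
    simp only [mem_filter, mem_univ, true_and] at hτ ⊢
    intro x hx y hy hxy
    obtain ⟨x', hx', rfl⟩ := Finset.mem_map.mp hx
    obtain ⟨y', hy', rfl⟩ := Finset.mem_map.mp hy
    exact hτ x' hx' y' hy' (fun h => hxy (by rw [h]))
  · intro τ hτ
    simp only [mem_filter, mem_univ, true_and] at hτ ⊢
    intro x hx y hy hxy
    obtain ⟨x', hx', rfl⟩ := Finset.mem_map.mp hx
    obtain ⟨y', hy', rfl⟩ := Finset.mem_map.mp hy
    have := hτ x' hx' y' hy' (fun h => hxy (by rw [h]))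
    simpa [SimpleGraph.comap_adj] using this
  · intro τ _
    ext x; simp
  · intro τ _
    ext x; simp
  · intro τ _
    rw [Finset.card_map]

open Classical in
/-- the nonempty members of `Cl G W` -/
noncomputable def neCl {V : Type} [Fintype V] (G : SimpleGraph V) (W : Set V) :
    Finset (Finset V) := univ.filter fun τ : Finset V => τ ∈ Cl G W ∧ τ.Nonempty

theorem mem_neCl {V : Type} [Fintype V] {G : SimpleGraph V} {W : Set V} {τ : Finset V} :
    τ ∈ neCl G W ↔ τ ∈ Cl G W ∧ τ.Nonempty := by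
  simp [neCl]

theorem gen_split {V : Type} [Fintype V] (G : SimpleGraph V) (W : Set V) :
    gen (Cl G W) = 1 + ∑ τ ∈ neCl G W, X ^ τ.card := by
  classical
  unfold gen
  have h : (∅ : Finset V) ∈ univ.filter (fun τ : Finset V => τ ∈ Cl G W) := by
    simp only [mem_filter, mem_univ, true_and]
    exact ⟨by simp, by simp⟩
  rw [← Finset.add_sum_erase _ _ h]
  rw [card_empty, pow_zero]
  congr 1
  apply Finset.sum_congr _ (fun _ _ => rfl)
  ext τ
  simp only [mem_neCl, mem_erase, mem_filter, mem_univ, true_and, Finset.nonempty_iff_ne_empty]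
  tauto

end General

section RingCount

variable {m N : ℕ}

/-- forward neighbourhood in the ring graph -/
def Fw (m N : ℕ) (b : ZMod N × Bool) : Set (ZMod N × Bool) :=
  {w | (MG m N).Adj b w ∧ 0 ≤ (w.1 - b.1).valMinAbs}

theorem natAbs_symm (a b : ZMod N) : (a - b).valMinAbs.natAbs = (b - a).valMinAbs.natAbs := by
  rw [← neg_sub a b, ZMod.natAbs_valMinAbs_neg]

theorem Fw_eq (hN : 4 * m < N) (b : ZMod N × Bool) :
    Fw m N b = chart N b.1 '' {w | (0 < w.1 ∧ w.1 < m) ∨ (w = ((m : ℤ), b.2) ∧ 1 ≤ m)} := by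
  ext w
  constructor
  · rintro ⟨h1, h2⟩
    rw [MG_adj, natAbs_symm] at h1
    refine ⟨((w.1 - b.1).valMinAbs, w.2), ?_, chart_surj b.1 w⟩
    rcases h1 with ⟨h4, h5 | ⟨h5, h6⟩⟩
    · left
      dsimp only
      exact ⟨by omega, by omega⟩
    · right
      refine ⟨Prod.ext ?_ h6.symm, by omega⟩
      dsimp only
      omega
  · rintro ⟨x, hx, rfl⟩
    have hx' : 0 < x.1 ∧ x.1 ≤ m := by
      rcases hx with h | ⟨h, h'⟩
      · exact ⟨h.1, h.2.le⟩
      · rw [h]; dsimp only; omega
    have hsub : (chart N b.1 x).1 - b.1 = ((x.1 : ℤ) : ZMod N) := by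
      simp [chart]
    have hval : ((chart N b.1 x).1 - b.1).valMinAbs = x.1 := by
      rw [hsub, cast_valMinAbs _ (by omega)]
    refine ⟨?_, by rw [hval]; omega⟩
    rw [MG_adj, natAbs_symm, hval]
    refine ⟨by omega, ?_⟩
    rcases hx with h | ⟨h, h'⟩
    · left; omega
    · right
      rw [h]
      exact ⟨by dsimp only; omega, rfl⟩

theorem Fw_gen [Fintype (ZMod N)] (hm : 1 ≤ m) (hN : 4 * m < N) (b : ZMod N × Bool) :
    gen (Cl (MG m N) (Fw m N b)) = (1 + X) * (1 + 2 * X) ^ (m - 1) := by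
  have hIoo : ∀ p ∈ Finset.Ioo (0 : ℤ) m, 0 < p ∧ p < m := fun p hp => Finset.mem_Ioo.mp hp
  have hcr := cross_Cnt (G := MZ m) (Finset.Ioo (0 : ℤ) m) (MZ_cross_adj hIoo) MZ_cross_non
  have hcard : (Finset.Ioo (0 : ℤ) m).card = m - 1 := by rw [Int.card_Ioo]; omega
  rw [hcard] at hcr
  set W : Set (ℤ × Bool) := {w | (0 < w.1 ∧ w.1 < m) ∨ (w = ((m : ℤ), b.2) ∧ 1 ≤ m)} with hW
  have h1 : {w | w ∈ W ∧ w ≠ ((m : ℤ), b.2)} = {w | w.1 ∈ Finset.Ioo (0 : ℤ) m} := by
    ext w
    simp only [Set.mem_ofPred_eq, Finset.mem_Ioo]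
    constructor
    · rintro ⟨h | ⟨h, _⟩, h2⟩
      · exact h
      · exact absurd h h2
    · intro h
      exact ⟨Or.inl h, fun h' => by rw [h'] at h; dsimp only at h; omega⟩
  have h2 : {w | w ∈ W ∧ (MZ m).Adj ((m : ℤ), b.2) w} = {w | w.1 ∈ Finset.Ioo (0 : ℤ) m} := by
    ext w
    simp only [Set.mem_ofPred_eq, Finset.mem_Ioo]
    constructor
    · rintro ⟨h | ⟨h, _⟩, h2⟩
      · exact h
      · rw [h] at h2; exact absurd rfl h2.ne
    · intro h
      refine ⟨Or.inl h, ?_⟩
      rw [MZ_adj]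
      dsimp only
      exact ⟨by omega, Or.inl (by omega)⟩
  have h3 : Cnt (MZ m) W ((1 + 2 * X) ^ (m - 1) + X * (1 + 2 * X) ^ (m - 1)) := by
    refine Cnt.step W ((m : ℤ), b.2) (Or.inr ⟨rfl, hm⟩) _ _ ?_ ?_
    · rw [h1]; exact hcr
    · rw [h2]; exact hcr
  have hwin : ∀ x ∈ W, 0 ≤ x.1 ∧ x.1 ≤ m := by
    intro x hx
    rcases hx with h | ⟨h, _⟩
    · exact ⟨h.1.le, h.2.le⟩
    · rw [h]; dsimp only; omega
  have h4 := h3.map (G := MG m N) (φ := chart N b.1) (fun x hx y hy h => by
      have h1 := hwin x hx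
      have h2 := hwin y hy
      exact chart_inj b.1 x y (by omega) h) (fun x hx y hy => by
      have h1 := hwin x hx
      have h2 := hwin y hy
      exact chart_adj b.1 x y (by omega))
  rw [← Fw_eq hN b] at h4
  rw [h4.gen_eq]
  ring

theorem ring_gen [Fintype (ZMod N)] (hm : 1 ≤ m) (hN : 4 * m < N) :
    gen (cliqueCx (MG m N)).faces = 1 + 2 * (N : ℤ[X]) * (X * (1 + X) * (1 + 2 * X) ^ (m - 1)) := by
  classical
  have hNe : NeZero N := ⟨by omega⟩
  rw [cliqueCx_faces_univ, gen_split]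
  congr 1
  set T : Finset (ZMod N × Bool) → ZMod N × Bool → Prop :=
    fun τ b => b ∈ τ ∧ ∀ s ∈ τ, 0 ≤ (s.1 - b.1).valMinAbs with hT
  rw [sum_unique (neCl (MG m N) Set.univ) T]
  · have hb : ∀ b : ZMod N × Bool,
        ∑ τ ∈ (neCl (MG m N) Set.univ).filter (fun τ => T τ b), (X : ℤ[X]) ^ τ.card =
        X * ((1 + X) * (1 + 2 * X) ^ (m - 1)) := by
      intro b
      rw [← Fw_gen hm hN b, gen, Finset.mul_sum]
      symm
      refine Finset.sum_bij' (fun τ _ => insert b τ) (fun τ _ => τ.erase b) ?_ ?_ ?_ ?_ ?_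
      · intro τ hτ
        simp only [mem_filter, mem_univ, true_and] at hτ
        have hbτ : b ∉ τ := fun h => (hτ.1 b h).1.ne rfl
        rw [mem_filter, mem_neCl]
        refine ⟨⟨⟨fun _ _ => Set.mem_univ _, ?_⟩, insert_nonempty _ _⟩, mem_insert_self _ _, ?_⟩
        · intro x hx y hy hxy
          rcases mem_insert.mp hx with hx' | hx'
          · rcases mem_insert.mp hy with hy' | hy'
            · exact absurd (hx'.trans hy'.symm) hxy
            · rw [hx']; exact (hτ.1 y hy').1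
          · rcases mem_insert.mp hy with hy' | hy'
            · rw [hy']; exact (hτ.1 x hx').1.symm
            · exact hτ.2 x hx' y hy' hxy
        · intro s hs
          rcases mem_insert.mp hs with hs' | hs'
          · rw [hs', sub_self, ZMod.valMinAbs_zero]
          · exact (hτ.1 s hs').2
      · intro τ hτ
        rw [mem_filter, mem_neCl] at hτ
        obtain ⟨⟨⟨_, h1⟩, h2⟩, h3, h4⟩ := hτ
        simp only [mem_filter, mem_univ, true_and]
        refine ⟨fun x hx => ?_, fun x hx y hy => h1 x (mem_of_mem_erase hx) y (mem_of_mem_erase hy)⟩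
        exact ⟨h1 b h3 x (mem_of_mem_erase hx) (fun h => (mem_erase.mp hx).1 h.symm),
          h4 x (mem_of_mem_erase hx)⟩
      · intro τ hτ
        simp only [mem_filter, mem_univ, true_and] at hτ
        have hbτ : b ∉ τ := fun h => (hτ.1 b h).1.ne rfl
        exact erase_insert hbτ
      · intro τ hτ
        rw [mem_filter] at hτ
        exact insert_erase hτ.2.1
      · intro τ hτ
        simp only [mem_filter, mem_univ, true_and] at hτ
        have hbτ : b ∉ τ := fun h => (hτ.1 b h).1.ne rfl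
        rw [card_insert_of_notMem hbτ, pow_succ']
    rw [Finset.sum_congr rfl (fun b _ => hb b), Finset.sum_const, Finset.card_univ,
      Fintype.card_prod, ZMod.card, Fintype.card_bool, nsmul_eq_mul]
    push_cast
    ring
  · intro τ hτ
    rw [mem_neCl] at hτ
    obtain ⟨⟨_, h1⟩, h2⟩ := hτ
    obtain ⟨b, hb, hbase⟩ := exists_base hN τ h1 h2
    refine ⟨b, ⟨hb, fun s hs => (hbase s hs).1⟩, ?_⟩
    rintro c ⟨hc, hc'⟩
    by_contra hne
    have h3 := hbase c hc
    have h4 := hc' b hb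
    have h5 : b.1 - c.1 = ((-(c.1 - b.1).valMinAbs : ℤ) : ZMod N) := by
      push_cast
      ring
    have h6 : (b.1 - c.1).valMinAbs = -(c.1 - b.1).valMinAbs := by
      rw [h5, cast_valMinAbs]
      omega
    have h7 := (h1 c hc b hb hne).1
    omega

/-- the ring graph is connected -/
theorem ring_conn (hm : 2 ≤ m) (hN : 4 * m < N) (x y : ZMod N × Bool) :
    Relation.ReflTransGen (MG m N).Adj x y := by
  have hNe : NeZero N := ⟨by omega⟩
  have hstep : ∀ (p : ZMod N) (e f : Bool), (MG m N).Adj (p, e) (p + 1, f) := by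
    intro p e f
    rw [MG_adj, natAbs_symm]
    have h : ((p + 1, f) : ZMod N × Bool).1 - ((p, e) : ZMod N × Bool).1 = ((1 : ℤ) : ZMod N) := by
      push_cast; ring
    rw [h, cast_valMinAbs 1 (by norm_num; omega)]
    exact ⟨by norm_num, Or.inl (by norm_num; omega)⟩
  have hk : ∀ (k : ℕ) (f : Bool), Relation.ReflTransGen (MG m N).Adj x (x.1 + (k : ZMod N) + 1, f) := by
    intro k
    induction k with
    | zero =>
      intro f
      have := hstep x.1 x.2 f
      simpa using Relation.ReflTransGen.single this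
    | succ k ih =>
      intro f
      have h1 := hstep (x.1 + (k : ZMod N) + 1) true f
      have h2 : x.1 + ((k + 1 : ℕ) : ZMod N) + 1 = x.1 + (k : ZMod N) + 1 + 1 := by push_cast; ring
      rw [h2]
      exact (ih true).tail h1
  have h3 := hk (y.1 - x.1 - 1).val y.2
  rw [ZMod.natCast_zmod_val] at h3
  have h4 : x.1 + (y.1 - x.1 - 1) + 1 = y.1 := by ring
  rw [h4] at h3
  exact h3

end RingCount

section Disj

/-- the disjoint union of `k` cross-polytope graphs -/
def DG (k d : ℕ) : SimpleGraph (Fin k × (Fin d × Bool)) where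
  Adj x y := x.1 = y.1 ∧ x.2.1 ≠ y.2.1
  symm := ⟨fun _ _ h => ⟨h.1.symm, h.2.symm⟩⟩
  loopless := ⟨fun _ h => h.2 rfl⟩

/-- the cross-polytope graph -/
def XG (d : ℕ) : SimpleGraph (Fin d × Bool) where
  Adj x y := x.1 ≠ y.1
  symm := ⟨fun _ _ h => h.symm⟩
  loopless := ⟨fun _ h => h rfl⟩

theorem DG_mfd (k d : ℕ) : GraphMfd (DG k d) d := by
  classical
  intro σ hσ hne
  obtain ⟨s₀, hs₀⟩ := hne
  have hfst : ∀ s ∈ σ, s.1 = s₀.1 := by
    intro s hs
    by_cases h : s = s₀
    · rw [h]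
    · exact (hσ s hs s₀ hs₀ h).1
  set P : Finset (Fin d) := σ.image (fun s => s.2.1) with hP
  have hcard : P.card = σ.card := by
    apply Finset.card_image_of_injOn
    intro s hs t ht h
    by_contra hne
    exact (hσ s hs t ht hne).2 h
  have hle : P.card ≤ d := by
    have := Finset.card_le_univ P
    rwa [Fintype.card_fin] at this
  refine ⟨(univ \ P).card, ?_, ?_⟩
  · rw [Finset.card_sdiff_of_subset (Finset.subset_univ P), Finset.card_univ, Fintype.card_fin]
    omega
  · have h1 := cross_Sp (G := XG d) (univ \ P) (fun p _ q _ h _ _ => h) (fun p _ _ _ h => h rfl)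
    have h2 : CN (DG k d) σ = (fun w : Fin d × Bool => (s₀.1, w)) '' {w | w.1 ∈ univ \ P} := by
      ext w
      constructor
      · intro hw
        refine ⟨w.2, ?_, ?_⟩
        · simp only [Set.mem_ofPred_eq, mem_sdiff, mem_univ, true_and]
          intro h
          obtain ⟨s, hs, hs'⟩ := mem_image.mp h
          exact (hw s hs).2 hs'
        · have := (hw s₀ hs₀).1
          exact Prod.ext this rfl
      · rintro ⟨x, hx, rfl⟩ s hs
        simp only [Set.mem_ofPred_eq, mem_sdiff, mem_univ, true_and] at hx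
        exact ⟨hfst s hs, fun h => hx (mem_image.mpr ⟨s, hs, h⟩)⟩
    rw [h2]
    refine h1.map (fun x _ y _ h => (Prod.mk.inj h).2) ?_
    intro x _ y _
    exact ⟨fun h => ⟨rfl, h⟩, fun h => h.2⟩

theorem DG_gen (k d : ℕ) :
    gen (cliqueCx (DG k d)).faces = 1 + (k : ℤ[X]) * ((1 + 2 * X) ^ d - 1) := by
  classical
  rw [cliqueCx_faces_univ, gen_split]
  congr 1
  set T : Finset (Fin k × (Fin d × Bool)) → Fin k → Prop := fun τ i => ∀ s ∈ τ, s.1 = i with hT
  rw [sum_unique (neCl (DG k d) Set.univ) T]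
  · have hb : ∀ i : Fin k,
        ∑ τ ∈ (neCl (DG k d) Set.univ).filter (fun τ => T τ i), (X : ℤ[X]) ^ τ.card =
        (1 + 2 * X) ^ d - 1 := by
      intro i
      have h1 := cross_Cnt (G := XG d) univ (fun p _ q _ h _ _ => h) (fun p _ _ _ h => h rfl)
      rw [Finset.card_univ, Fintype.card_fin] at h1
      have h2 := h1.map (G := DG k d) (φ := fun w : Fin d × Bool => (i, w))
        (fun x _ y _ h => (Prod.mk.inj h).2)
        (fun x _ y _ => ⟨fun h => ⟨rfl, h⟩, fun h => h.2⟩)
      have h3 := h2.gen_eq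
      rw [gen_split] at h3
      rw [← h3, add_sub_cancel_left]
      apply Finset.sum_congr _ (fun _ _ => rfl)
      ext τ
      rw [mem_filter, mem_neCl, mem_neCl]
      constructor
      · rintro ⟨⟨⟨_, h4⟩, h5⟩, h6⟩
        refine ⟨⟨fun x hx => ⟨x.2, by simp, Prod.ext (h6 x hx).symm rfl⟩, h4⟩, h5⟩
      · rintro ⟨⟨h4, h5⟩, h6⟩
        refine ⟨⟨⟨fun _ _ => Set.mem_univ _, h5⟩, h6⟩, ?_⟩
        intro s hs
        obtain ⟨x, _, hx⟩ := h4 s hs
        rw [← hx]
    rw [Finset.sum_congr rfl (fun b _ => hb b), Finset.sum_const, Finset.card_univ,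
      Fintype.card_fin, nsmul_eq_mul]
  · intro τ hτ
    rw [mem_neCl] at hτ
    obtain ⟨⟨_, h1⟩, s₀, hs₀⟩ := hτ
    refine ⟨s₀.1, ?_, ?_⟩
    · intro s hs
      by_cases h : s = s₀
      · rw [h]
      · exact (h1 s hs s₀ hs₀ h).1
    · intro i hi
      exact (hi s₀ hs₀).symm

end Disj

end Pool.Agent.H66.Flag
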