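import Mathlib

set_option autoImplicit false

/-! Definitions: finite simplicial complexes, links, reduced simplicial homology, flag complexes,
homology manifolds, face numbers and the derived vectors, the join of cycles. -/

namespace Pool.Agent.H66.Flag

/-- An abstract simplicial complex on the vertex type `V`: a family of finite subsets of `V`
containing `∅` and closed under passing to subsets. -/
structure SCx (V : Type) where
  /-- the faces (the empty face included) -/
  faces : Set (Finset V)
  /-- the empty set is a face -/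
  empty_mem : ∅ ∈ faces
  /-- every subset of a face is a face -/
  down : ∀ s ∈ faces, ∀ t, t ⊆ s → t ∈ faces

/-- The faces of the link of `σ` in `K`. -/
def linkFaces {V : Type} [DecidableEq V] (K : SCx V) (σ : Finset V) : Set (Finset V) :=
  {τ | Disjoint σ τ ∧ σ ∪ τ ∈ K.faces}

/-- `K` is flag: every finite set of pairwise adjacent vertices is a face. -/
def IsFlag {V : Type} [DecidableEq V] (K : SCx V) : Prop :=
  ∀ s : Finset V, (∀ x ∈ s, ∀ y ∈ s, ({x, y} : Finset V) ∈ K.faces) → s ∈ K.faces

/-- `K` is connected: any two elements of `V` are joined by a path of edges of `K`. -/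
def IsConn {V : Type} [DecidableEq V] (K : SCx V) : Prop :=
  ∀ x y : V, Relation.ReflTransGen (fun u v => ({u, v} : Finset V) ∈ K.faces) x y

section Homology

variable {V : Type} [LinearOrder V] (R : Type) [CommRing R]

/-- The simplicial boundary map: `∂ τ = ∑_{v ∈ τ} (-1)^{#{w ∈ τ : w < v}} (τ \ {v})`. -/
noncomputable def bd : (Finset V →₀ R) →ₗ[R] (Finset V →₀ R) :=
  Finsupp.linearCombination R fun τ : Finset V =>
    ∑ v ∈ τ, Finsupp.single (τ.erase v) ((-1 : R) ^ (τ.filter (· < v)).card)

/-- Chains spanned by the members of `X` with exactly `c` elements (dimension `c - 1`). -/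
def chains (X : Set (Finset V)) (c : ℕ) : Submodule R (Finset V →₀ R) :=
  Finsupp.supported R R {τ | τ ∈ X ∧ τ.card = c}

/-- Cycles of dimension `c - 1`. -/
noncomputable def cycles (X : Set (Finset V)) (c : ℕ) : Submodule R (Finset V →₀ R) :=
  chains R X c ⊓ LinearMap.ker (bd R)

/-- Boundaries of dimension `c - 1`. -/
noncomputable def boundaries (X : Set (Finset V)) (c : ℕ) : Submodule R (Finset V →₀ R) :=
  (chains R X (c + 1)).map (bd R)

/-- Reduced simplicial homology of `X` in dimension `c - 1` with coefficients in `R`: the cycles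
modulo the boundaries (as the image of the cycles in the quotient by the boundaries). -/
abbrev RedHom (X : Set (Finset V)) (c : ℕ) : Type :=
  ↥((cycles R X c).map (boundaries R X c).mkQ)

/-- `X` has the homology over `R` of a sphere of dimension `k - 1`: the reduced homology is
`R` in dimension `k - 1` and zero in all other dimensions. -/
def HasSphereHomology (X : Set (Finset V)) (k : ℕ) : Prop :=
  Nonempty (RedHom R X k ≃ₗ[R] R) ∧ ∀ c, c ≠ k → Subsingleton (RedHom R X c)

/-- `K` is a homology `(d-1)`-manifold over `R`: the link of every nonempty face `σ` has the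
homology of a sphere of dimension `d - 1 - |σ|`. -/
def IsHomologyManifold (d : ℕ) (K : SCx V) : Prop :=
  ∀ σ ∈ K.faces, σ.Nonempty →
    ∃ k : ℕ, k + σ.card = d ∧ HasSphereHomology R (linkFaces K σ) k

end Homology

section Numbers

open Polynomial

variable {V : Type}

/-- `fNum K i` is the number of faces of `K` with exactly `i` elements, that is `f_{i-1}(K)`. -/
noncomputable def fNum (K : SCx V) (i : ℕ) : ℤ := (Nat.card {τ // τ ∈ K.faces ∧ τ.card = i} : ℤ)

/-- The polynomial `∑_i f_{i-1} (x-1)^{d-i}`. -/
noncomputable def hPoly (d : ℕ) (K : SCx V) : ℤ[X] :=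
  ∑ i ∈ Finset.range (d + 1), C (fNum K i) * (X - 1) ^ (d - i)

/-- The `h`-numbers, defined by `∑_i h_i x^{d-i} = ∑_i f_{i-1} (x-1)^{d-i}`. -/
noncomputable def hNum (d : ℕ) (K : SCx V) (i : ℕ) : ℤ := (hPoly d K).coeff (d - i)

/-- The `g`-numbers `g_i = h_i - h_{i-1}` (for `i ≥ 1`). -/
noncomputable def gNum (d : ℕ) (K : SCx V) (i : ℕ) : ℤ := hNum d K i - hNum d K (i - 1)

/-- `γ` is the `γ`-vector of `K` (`d = 2r`):
`∑_{i=0}^{2r} h_i x^i = ∑_{i=0}^{r} γ_i x^i (1+x)^{2r-2i}`. -/
def IsGammaVector (r : ℕ) (K : SCx V) (γ : ℕ → ℤ) : Prop :=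
  ∑ i ∈ Finset.range (2 * r + 1), C (hNum (2 * r) K i) * X ^ i =
    ∑ i ∈ Finset.range (r + 1), C (γ i) * X ^ i * (1 + X) ^ (2 * r - 2 * i)

end Numbers

section Join

/-- The cycle `C_a` as a complex on `ZMod a` (for `a ≥ 3`): the faces are `∅`, the vertices `{i}`
and the edges `{i, i+1}`. -/
def cycleCx (a : ℕ) : SCx (ZMod a) where
  faces := {τ | τ = ∅ ∨ ∃ i, τ = {i} ∨ τ = {i, i + 1}}
  empty_mem := Or.inl rfl
  down := by
    rintro s hs t hts
    rcases hs with rfl | ⟨i, rfl | rfl⟩
    · exact Or.inl (Finset.subset_empty.mp hts)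
    · rcases Finset.subset_singleton_iff.mp hts with h | h
      · exact Or.inl h
      · exact Or.inr ⟨i, Or.inl h⟩
    · by_cases h1 : i ∈ t
      · by_cases h2 : i + 1 ∈ t
        · refine Or.inr ⟨i, Or.inr (Finset.Subset.antisymm hts ?_)⟩
          intro x hx
          rcases Finset.mem_insert.mp hx with rfl | hx
          · exact h1
          · rw [Finset.mem_singleton.mp hx]; exact h2
        · refine Or.inr ⟨i, Or.inl (Finset.Subset.antisymm ?_ ?_)⟩
          · intro x hx
            rcases Finset.mem_insert.mp (hts hx) with rfl | hx'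
            · exact Finset.mem_singleton_self _
            · rw [Finset.mem_singleton.mp hx'] at hx; exact absurd hx h2
          · intro x hx
            rw [Finset.mem_singleton.mp hx]; exact h1
      · have h3 : t ⊆ {i + 1} := by
          intro x hx
          rcases Finset.mem_insert.mp (hts hx) with rfl | hx'
          · exact absurd hx h1
          · exact hx'
        rcases Finset.subset_singleton_iff.mp h3 with h | h
        · exact Or.inl h
        · exact Or.inr ⟨i + 1, Or.inl h⟩

/-- The part of `τ` in the `j`-th summand. -/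
noncomputable def part {r : ℕ} {α : Fin r → Type} (τ : Finset (Σ j, α j)) (j : Fin r) :
    Finset (α j) :=
  τ.preimage (Sigma.mk j) (sigma_mk_injective.injOn)

/-- The join `K_0 * ⋯ * K_{r-1}` on the disjoint union of the vertex sets: the faces are the sets
whose part in the `j`-th summand is a face of `K_j` for every `j`. -/
noncomputable def joinCx {r : ℕ} {α : Fin r → Type} (K : ∀ j, SCx (α j)) : SCx (Σ j, α j) where
  faces := {τ | ∀ j, part τ j ∈ (K j).faces}
  empty_mem := by
    intro j
    have : part (∅ : Finset (Σ j, α j)) j = ∅ := by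
      ext x; simp [part]
    rw [this]; exact (K j).empty_mem
  down := by
    intro s hs t hts j
    refine (K j).down _ (hs j) _ ?_
    intro x hx
    simp only [part, Finset.mem_preimage] at hx ⊢
    exact hts hx

/-- The lengths of the `r` cycles: `n = a_0 + ⋯ + a_{r-1}`, any two lengths differing by at
most `1`. -/
def cycLen (r n : ℕ) (j : Fin r) : ℕ := n / r + if (j : ℕ) < n % r then 1 else 0

/-- `J_r(n)`: the join of `r` cycles of as equal as possible lengths with `n` vertices in all. -/
noncomputable def J (r n : ℕ) : SCx (Σ j : Fin r, ZMod (cycLen r n j)) :=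
  joinCx fun j => cycleCx (cycLen r n j)

end Join

end Pool.Agent.H66.Flag
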