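import Pool.Agent.H66.FlagDefs

set_option autoImplicit false
set_option linter.unusedSectionVars false

namespace Pool.Agent.H66.Flag

open Finset

section

variable {V : Type} [LinearOrder V] (R : Type) [CommRing R]

/-- position of `v` in `τ` -/
def pos (τ : Finset V) (v : V) : ℕ := (τ.filter (· < v)).card

/-- the cone operator -/
noncomputable def cone (a : V) : (Finset V →₀ R) →ₗ[R] (Finset V →₀ R) :=
  Finsupp.linearCombination R fun τ : Finset V =>
    if a ∈ τ then 0 else Finsupp.single (insert a τ) ((-1 : R) ^ pos τ a)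

/-- contraction with `a` -/
noncomputable def ctr (a : V) : (Finset V →₀ R) →ₗ[R] (Finset V →₀ R) :=
  Finsupp.linearCombination R fun τ : Finset V =>
    if a ∈ τ then Finsupp.single (τ.erase a) ((-1 : R) ^ pos τ a) else 0

/-- restriction to the sets avoiding `a` -/
noncomputable def avd (a : V) : (Finset V →₀ R) →ₗ[R] (Finset V →₀ R) :=
  Finsupp.linearCombination R fun τ : Finset V =>
    if a ∈ τ then 0 else Finsupp.single τ (1 : R)

theorem bd_single (τ : Finset V) : bd R (Finsupp.single τ 1) =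
    ∑ v ∈ τ, Finsupp.single (τ.erase v) ((-1 : R) ^ pos τ v) := by
  simp [bd, pos]

theorem cone_single (a : V) (τ : Finset V) : cone R a (Finsupp.single τ 1) =
    if a ∈ τ then 0 else Finsupp.single (insert a τ) ((-1 : R) ^ pos τ a) := by
  simp [cone]

theorem ctr_single (a : V) (τ : Finset V) : ctr R a (Finsupp.single τ 1) =
    if a ∈ τ then Finsupp.single (τ.erase a) ((-1 : R) ^ pos τ a) else 0 := by
  simp [ctr]

theorem avd_single (a : V) (τ : Finset V) : avd R a (Finsupp.single τ 1) =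
    if a ∈ τ then 0 else Finsupp.single τ (1 : R) := by
  simp [avd]

theorem single_eq_smul (τ : Finset V) (c : R) :
    (Finsupp.single τ c : Finset V →₀ R) = c • Finsupp.single τ (1 : R) := by
  simp

theorem pos_erase_lt {τ : Finset V} {v a : V} (hv : v ∈ τ) (h : v < a) :
    pos τ a = pos (τ.erase v) a + 1 := by
  unfold pos
  have : (τ.erase v).filter (· < a) = (τ.filter (· < a)).erase v := by
    ext x; simp only [mem_filter, mem_erase]; tauto
  rw [this, card_erase_add_one]
  exact mem_filter.mpr ⟨hv, h⟩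

theorem pos_erase_ge {τ : Finset V} {v a : V} (h : ¬ v < a) :
    pos (τ.erase v) a = pos τ a := by
  unfold pos
  congr 1
  ext x; simp only [mem_filter, mem_erase]
  constructor
  · rintro ⟨⟨_, h1⟩, h2⟩; exact ⟨h1, h2⟩
  · rintro ⟨h1, h2⟩; exact ⟨⟨fun hx => h (hx ▸ h2), h1⟩, h2⟩

theorem pos_insert_lt {τ : Finset V} {v a : V} (ha : a ∉ τ) (h : a < v) :
    pos (insert a τ) v = pos τ v + 1 := by
  have := pos_erase_lt (τ := insert a τ) (v := a) (a := v) (mem_insert_self _ _) h
  rwa [erase_insert ha] at this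

theorem pos_insert_ge {τ : Finset V} {v a : V} (ha : a ∉ τ) (h : ¬ a < v) :
    pos (insert a τ) v = pos τ v := by
  have := pos_erase_ge (τ := insert a τ) (v := a) (a := v) h
  rwa [erase_insert ha, eq_comm] at this

theorem neg_one_pow_mul_self (n : ℕ) : (-1 : R) ^ n * (-1) ^ n = 1 := by
  rw [← mul_pow]; simp

/-- the homotopy identity -/
theorem bd_cone_add (a : V) (x : Finset V →₀ R) : bd R (cone R a x) + cone R a (bd R x) = x := by
  suffices h : bd R ∘ₗ cone R a + cone R a ∘ₗ bd R = LinearMap.id by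
    have := LinearMap.congr_fun h x
    simpa using this
  refine Finsupp.lhom_ext' fun τ => LinearMap.ext_ring ?_
  simp only [LinearMap.comp_apply, LinearMap.add_apply, Finsupp.lsingle_apply, LinearMap.id_apply]
  rw [cone_single, bd_single, map_sum]
  by_cases ha : a ∈ τ
  · rw [if_pos ha, map_zero, zero_add, Finset.sum_eq_single_of_mem a ha]
    · rw [single_eq_smul, map_smul, cone_single, if_neg (notMem_erase a τ), insert_erase ha,
        pos_erase_ge (lt_irrefl a), Finsupp.smul_single, smul_eq_mul, neg_one_pow_mul_self]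
    · intro b _ hba
      rw [single_eq_smul, map_smul, cone_single, if_pos (mem_erase.mpr ⟨hba.symm, ha⟩), smul_zero]
  · rw [if_neg ha, single_eq_smul, map_smul, bd_single, sum_insert ha, erase_insert ha,
      pos_insert_ge ha (lt_irrefl a), smul_add, Finsupp.smul_single, smul_eq_mul,
      neg_one_pow_mul_self, add_assoc]
    convert add_zero _
    rw [Finset.smul_sum, ← Finset.sum_add_distrib]
    apply Finset.sum_eq_zero
    intro v hv
    have hva : v ≠ a := fun h => ha (h ▸ hv)
    rw [Finsupp.smul_single, smul_eq_mul, single_eq_smul R (τ.erase v), map_smul, cone_single,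
      if_neg (fun h => ha (mem_of_mem_erase h)), Finsupp.smul_single, smul_eq_mul,
      erase_insert_of_ne hva.symm, ← Finsupp.single_add]
    have hz : (-1 : R) ^ pos τ a * (-1) ^ pos (insert a τ) v +
        (-1) ^ pos τ v * (-1) ^ pos (τ.erase v) a = 0 := by
      rcases lt_or_gt_of_ne hva with h | h
      · rw [pos_erase_lt hv h, pos_insert_ge ha h.not_gt]; ring
      · rw [pos_insert_lt ha h, pos_erase_ge h.not_gt]; ring
    rw [hz, Finsupp.single_zero]

theorem bd_bd_single (τ : Finset V) : bd R (bd R (Finsupp.single τ 1)) = 0 := by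
  induction τ using Finset.induction_on with
  | empty => simp [bd_single]
  | insert a τ ha ih =>
    have h1 : (Finsupp.single (insert a τ) (1 : R) : Finset V →₀ R) =
        (-1 : R) ^ pos τ a • cone R a (Finsupp.single τ 1) := by
      rw [cone_single, if_neg ha, Finsupp.smul_single, smul_eq_mul, neg_one_pow_mul_self]
    have h2 := bd_cone_add R a (Finsupp.single τ 1)
    have h3 : bd R (cone R a (Finsupp.single τ 1)) =
        Finsupp.single τ 1 - cone R a (bd R (Finsupp.single τ 1)) := by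
      rw [eq_sub_iff_add_eq, h2]
    have h4 := bd_cone_add R a (bd R (Finsupp.single τ 1))
    rw [ih, map_zero, add_zero] at h4
    rw [h1, map_smul, map_smul, h3, map_sub, h4, sub_self, smul_zero]

theorem bd_bd (x : Finset V →₀ R) : bd R (bd R x) = 0 := by
  suffices h : bd R ∘ₗ bd R = 0 by
    have := LinearMap.congr_fun h x
    simpa using this
  refine Finsupp.lhom_ext' fun τ => LinearMap.ext_ring ?_
  simp only [LinearMap.comp_apply, Finsupp.lsingle_apply, LinearMap.zero_apply]
  exact bd_bd_single R τ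

theorem lc_mem {g : Finset V → (Finset V →₀ R)} {s : Set (Finset V)}
    {N : Submodule R (Finset V →₀ R)} (h : ∀ τ ∈ s, g τ ∈ N) {x : Finset V →₀ R}
    (hx : x ∈ Finsupp.supported R R s) : Finsupp.linearCombination R g x ∈ N := by
  rw [Finsupp.linearCombination_apply, Finsupp.sum]
  apply Submodule.sum_mem
  intro τ hτ
  exact N.smul_mem _ (h τ ((Finsupp.mem_supported R x).mp hx hτ))

theorem single_mem {s : Set (Finset V)} {τ : Finset V} (h : τ ∈ s) (c : R) :
    (Finsupp.single τ c) ∈ Finsupp.supported R R s := by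
  apply Finsupp.single_mem_supported
  exact h

/-- sets avoiding `a` -/
def Av (a : V) : Submodule R (Finset V →₀ R) := Finsupp.supported R R {τ | a ∉ τ}

theorem bd_Av {a : V} {x : Finset V →₀ R} (hx : x ∈ Av R a) : bd R x ∈ Av R a := by
  refine lc_mem R ?_ hx
  intro τ hτ
  apply Submodule.sum_mem
  intro v _
  have h2 : τ.erase v ∈ {τ : Finset V | a ∉ τ} := fun h => hτ (mem_of_mem_erase h)
  exact single_mem R h2 _

theorem ctr_Av {a : V} {x : Finset V →₀ R} (hx : x ∈ Av R a) : ctr R a x = 0 := by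
  have : ctr R a x ∈ (⊥ : Submodule R (Finset V →₀ R)) := by
    refine lc_mem R ?_ hx
    intro τ hτ
    rw [if_neg hτ]; exact Submodule.zero_mem _
  simpa using this

theorem ctr_cone {a : V} {x : Finset V →₀ R} (hx : x ∈ Av R a) : ctr R a (cone R a x) = x := by
  have : x ∈ LinearMap.ker (ctr R a ∘ₗ cone R a - LinearMap.id) := by
    have hs : Finsupp.supported R R {τ : Finset V | a ∉ τ} ≤
        LinearMap.ker (ctr R a ∘ₗ cone R a - LinearMap.id) := by
      rw [Finsupp.supported_eq_span_single, Submodule.span_le]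
      rintro _ ⟨τ, hτ, rfl⟩
      simp only [SetLike.mem_coe, LinearMap.mem_ker, LinearMap.sub_apply, LinearMap.comp_apply,
        LinearMap.id_apply]
      rw [cone_single, if_neg hτ, single_eq_smul, map_smul, ctr_single,
        if_pos (mem_insert_self _ _), erase_insert hτ, pos_insert_ge hτ (lt_irrefl a),
        Finsupp.smul_single, smul_eq_mul, neg_one_pow_mul_self, sub_self]
    exact hs hx
  simpa [sub_eq_zero] using this

/-- uniqueness of the decomposition -/
theorem dec_unique {a : V} {y w y' w' : Finset V →₀ R} (hy : y ∈ Av R a) (hw : w ∈ Av R a)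
    (hy' : y' ∈ Av R a) (hw' : w' ∈ Av R a) (h : y + cone R a w = y' + cone R a w') :
    y = y' ∧ w = w' := by
  have h1 := congrArg (ctr R a) h
  rw [map_add, map_add, ctr_Av R hy, ctr_Av R hy', ctr_cone R hw, ctr_cone R hw', zero_add,
    zero_add] at h1
  subst h1
  exact ⟨add_right_cancel h, rfl⟩

theorem dec_exists (a : V) (x : Finset V →₀ R) : x = avd R a x + cone R a (ctr R a x) := by
  suffices h : avd R a + cone R a ∘ₗ ctr R a = LinearMap.id by
    have := LinearMap.congr_fun h x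
    simpa using this.symm
  refine Finsupp.lhom_ext' fun τ => LinearMap.ext_ring ?_
  simp only [LinearMap.comp_apply, LinearMap.add_apply, Finsupp.lsingle_apply, LinearMap.id_apply]
  rw [avd_single, ctr_single]
  by_cases ha : a ∈ τ
  · rw [if_pos ha, if_pos ha, zero_add, single_eq_smul, map_smul, cone_single,
      if_neg (notMem_erase a τ), insert_erase ha, pos_erase_ge (lt_irrefl a), Finsupp.smul_single,
      smul_eq_mul, neg_one_pow_mul_self]
  · rw [if_neg ha, if_neg ha, map_zero, add_zero]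

theorem avd_mem {a : V} {s t : Set (Finset V)} {x : Finset V →₀ R}
    (hx : x ∈ Finsupp.supported R R s) (h : ∀ τ ∈ s, a ∉ τ → τ ∈ t) :
    avd R a x ∈ Finsupp.supported R R t := by
  refine lc_mem R ?_ hx
  intro τ hτ
  split_ifs with ha
  · exact Submodule.zero_mem _
  · exact single_mem R (h τ hτ ha) _

theorem ctr_mem {a : V} {s t : Set (Finset V)} {x : Finset V →₀ R}
    (hx : x ∈ Finsupp.supported R R s) (h : ∀ τ ∈ s, a ∈ τ → τ.erase a ∈ t) :
    ctr R a x ∈ Finsupp.supported R R t := by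
  refine lc_mem R ?_ hx
  intro τ hτ
  split_ifs with ha
  · exact single_mem R (h τ hτ ha) _
  · exact Submodule.zero_mem _

theorem cone_mem {a : V} {s t : Set (Finset V)} {x : Finset V →₀ R}
    (hx : x ∈ Finsupp.supported R R s) (h : ∀ τ ∈ s, a ∉ τ → insert a τ ∈ t) :
    cone R a x ∈ Finsupp.supported R R t := by
  refine lc_mem R ?_ hx
  intro τ hτ
  split_ifs with ha
  · exact Submodule.zero_mem _
  · exact single_mem R (h τ hτ ha) _

end

section

variable {V : Type} [LinearOrder V] (R : Type) [CommRing R]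

/-- acyclic families -/
def Acyc (X : Set (Finset V)) : Prop :=
  ∀ c, ∀ z ∈ chains R X c, bd R z = 0 → ∃ u ∈ chains R X (c + 1), bd R u = z

/-- homology spheres, elementary form -/
def Sph (X : Set (Finset V)) (k : ℕ) : Prop :=
  (∀ c, c ≠ k → ∀ z ∈ chains R X c, bd R z = 0 → ∃ u ∈ chains R X (c + 1), bd R u = z) ∧
  ∃ z₀ ∈ chains R X k, bd R z₀ = 0 ∧
    (∀ z ∈ chains R X k, bd R z = 0 → ∃ a : R, ∃ u ∈ chains R X (k + 1), z = a • z₀ + bd R u) ∧
    (∀ a : R, ∀ u ∈ chains R X (k + 1), bd R u = a • z₀ → a = 0)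

theorem Acyc_of_cone {X : Set (Finset V)} (a : V) (h : ∀ τ ∈ X, insert a τ ∈ X) : Acyc R X := by
  intro c z hz h0
  refine ⟨cone R a z, cone_mem R hz ?_, ?_⟩
  · rintro τ ⟨h1, h2⟩ ha
    exact ⟨h τ h1, by rw [card_insert_of_notMem ha, h2]⟩
  · have := bd_cone_add R a z
    rwa [h0, map_zero, add_zero] at this

/-- deletion -/
def del (X : Set (Finset V)) (v : V) : Set (Finset V) := {τ | τ ∈ X ∧ v ∉ τ}

/-- vertex link -/
def lnk (X : Set (Finset V)) (v : V) : Set (Finset V) := {τ | v ∉ τ ∧ insert v τ ∈ X}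

theorem chains_mono {X Y : Set (Finset V)} (h : X ⊆ Y) (c : ℕ) : chains R X c ≤ chains R Y c := by
  apply Finsupp.supported_mono
  rintro τ ⟨h1, h2⟩
  exact ⟨h h1, h2⟩

theorem chains_del_Av {X : Set (Finset V)} {v : V} {c : ℕ} {x : Finset V →₀ R}
    (hx : x ∈ chains R (del X v) c) : x ∈ Av R v := by
  refine Finsupp.supported_mono ?_ hx
  rintro τ ⟨⟨_, h1⟩, _⟩
  exact h1

theorem chains_lnk_Av {X : Set (Finset V)} {v : V} {c : ℕ} {x : Finset V →₀ R}
    (hx : x ∈ chains R (lnk X v) c) : x ∈ Av R v := by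
  refine Finsupp.supported_mono ?_ hx
  rintro τ ⟨⟨h1, _⟩, _⟩
  exact h1

theorem chains_dec {X : Set (Finset V)} (v : V) {c : ℕ} {x : Finset V →₀ R}
    (hx : x ∈ chains R X (c + 1)) :
    ∃ y ∈ chains R (del X v) (c + 1), ∃ w ∈ chains R (lnk X v) c, x = y + cone R v w := by
  refine ⟨avd R v x, avd_mem R hx ?_, ctr R v x, ctr_mem R hx ?_, dec_exists R v x⟩
  · rintro τ ⟨h1, h2⟩ h3
    exact ⟨⟨h1, h3⟩, h2⟩
  · rintro τ ⟨h1, h2⟩ h3
    refine ⟨⟨notMem_erase _ _, by rwa [insert_erase h3]⟩, ?_⟩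
    rw [card_erase_of_mem h3, h2]; rfl

theorem chains_zero_del {X : Set (Finset V)} (v : V) {x : Finset V →₀ R}
    (hx : x ∈ chains R X 0) : x ∈ chains R (del X v) 0 := by
  refine Finsupp.supported_mono ?_ hx
  rintro τ ⟨h1, h2⟩
  have : τ = ∅ := card_eq_zero.mp h2
  subst this
  exact ⟨⟨h1, by simp⟩, h2⟩

theorem cone_chains {X : Set (Finset V)} {v : V} {c : ℕ} {w : Finset V →₀ R}
    (hw : w ∈ chains R (lnk X v) c) : cone R v w ∈ chains R X (c + 1) := by
  refine cone_mem R hw ?_
  rintro τ ⟨⟨h1, h2⟩, h3⟩ _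
  exact ⟨h2, by rw [card_insert_of_notMem h1, h3]⟩

theorem bd_dec {v : V} {y w : Finset V →₀ R} :
    bd R (y + cone R v w) = (bd R y + w) + cone R v (- bd R w) := by
  have h := bd_cone_add R v w
  have h' : bd R (cone R v w) = w - cone R v (bd R w) := by rw [eq_sub_iff_add_eq, h]
  rw [map_add, h', map_neg]; abel

/-- If the boundary of `y + v * w` avoids `v`, then it equals `∂ y + w` and `∂ w = 0`. -/
theorem bd_dec_Av {v : V} {y w z : Finset V →₀ R} (hy : y ∈ Av R v) (hw : w ∈ Av R v)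
    (hz : z ∈ Av R v) (h : bd R (y + cone R v w) = z) : z = bd R y + w ∧ bd R w = 0 := by
  rw [bd_dec] at h
  have h1 : (bd R y + w) + cone R v (- bd R w) = z + cone R v 0 := by rw [h, map_zero, add_zero]
  have h2 := dec_unique R (Submodule.add_mem _ (bd_Av R hy) hw)
    (Submodule.neg_mem _ (bd_Av R hw)) hz (Submodule.zero_mem _) h1
  exact ⟨h2.1.symm, by simpa using h2.2⟩

variable {R}

theorem Acyc_of_lnk_del {X : Set (Finset V)} (hX : ∀ s ∈ X, ∀ t, t ⊆ s → t ∈ X) (v : V)
    (hL : Acyc R (lnk X v)) (hD : Acyc R (del X v)) : Acyc R X := by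
  have hDX : del X v ⊆ X := fun τ h => h.1
  have hLD : lnk X v ⊆ del X v := fun τ h => ⟨hX _ h.2 _ (subset_insert _ _), h.1⟩
  intro c z hz h0
  rcases c with _ | c
  · obtain ⟨u, hu, hu'⟩ := hD 0 z (chains_zero_del R v hz) h0
    exact ⟨u, chains_mono R hDX _ hu, hu'⟩
  · obtain ⟨y, hy, w, hw, rfl⟩ := chains_dec R v hz
    obtain ⟨h1, h2⟩ := bd_dec_Av R (chains_del_Av R hy) (chains_lnk_Av R hw)
      (Submodule.zero_mem _) h0
    obtain ⟨u, hu, hu'⟩ := hL c w hw h2
    have h3 : bd R (y + u) = 0 := by rw [map_add, hu', ← h1]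
    obtain ⟨t, ht, ht'⟩ := hD (c + 1) (y + u)
      (Submodule.add_mem _ hy (chains_mono R hLD _ hu)) h3
    refine ⟨t - cone R v u, Submodule.sub_mem _ (chains_mono R hDX _ ht) (cone_chains R hu), ?_⟩
    have h := bd_cone_add R v u
    have h' : bd R (cone R v u) = u - cone R v (bd R u) := by rw [eq_sub_iff_add_eq, h]
    rw [map_sub, ht', h', hu']; abel

theorem Sph_of_lnk_acyc {X : Set (Finset V)} (hX : ∀ s ∈ X, ∀ t, t ⊆ s → t ∈ X) (v : V) {k : ℕ}
    (hL : Acyc R (lnk X v)) (hD : Sph R (del X v) k) : Sph R X k := by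
  have hDX : del X v ⊆ X := fun τ h => h.1
  have hLD : lnk X v ⊆ del X v := fun τ h => ⟨hX _ h.2 _ (subset_insert _ _), h.1⟩
  obtain ⟨hD1, z₀, hz₀, hz₀', hD2, hD3⟩ := hD
  -- every cycle is homologous to a cycle in the deletion
  have key : ∀ c, ∀ z ∈ chains R X c, bd R z = 0 → ∃ z' ∈ chains R (del X v) c, bd R z' = 0 ∧
      ∃ u ∈ chains R X (c + 1), z = z' + bd R u := by
    intro c z hz h0
    rcases c with _ | c
    · exact ⟨z, chains_zero_del R v hz, h0, 0, Submodule.zero_mem _, by simp⟩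
    · obtain ⟨y, hy, w, hw, rfl⟩ := chains_dec R v hz
      obtain ⟨h1, h2⟩ := bd_dec_Av R (chains_del_Av R hy) (chains_lnk_Av R hw)
        (Submodule.zero_mem _) h0
      obtain ⟨u, hu, hu'⟩ := hL c w hw h2
      have h3 : bd R (y + u) = 0 := by rw [map_add, hu', ← h1]
      refine ⟨y + u, Submodule.add_mem _ hy (chains_mono R hLD _ hu), h3, - cone R v u,
        Submodule.neg_mem _ (cone_chains R hu), ?_⟩
      have h := bd_cone_add R v u
      have h' : bd R (cone R v u) = u - cone R v (bd R u) := by rw [eq_sub_iff_add_eq, h]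
      rw [map_neg, h', hu']; abel
  refine ⟨?_, z₀, chains_mono R hDX _ hz₀, hz₀', ?_, ?_⟩
  · intro c hc z hz h0
    obtain ⟨z', hz', h0', u, hu, rfl⟩ := key c z hz h0
    obtain ⟨t, ht, ht'⟩ := hD1 c hc z' hz' h0'
    exact ⟨t + u, Submodule.add_mem _ (chains_mono R hDX _ ht) hu, by rw [map_add, ht']⟩
  · intro z hz h0
    obtain ⟨z', hz', h0', u, hu, rfl⟩ := key k z hz h0
    obtain ⟨a, t, ht, ht'⟩ := hD2 z' hz' h0'
    refine ⟨a, t + u, Submodule.add_mem _ (chains_mono R hDX _ ht) hu, ?_⟩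
    rw [ht', map_add]; abel
  · intro a u hu h0
    obtain ⟨y, hy, w, hw, rfl⟩ := chains_dec R v hu
    obtain ⟨h1, h2⟩ := bd_dec_Av R (chains_del_Av R hy) (chains_lnk_Av R hw)
      (Submodule.smul_mem _ _ (chains_del_Av R hz₀)) h0
    obtain ⟨t, ht, ht'⟩ := hL k w hw h2
    refine hD3 a (y + t) (Submodule.add_mem _ hy (chains_mono R hLD _ ht)) ?_
    rw [map_add, ht', ← h1]

theorem Sph_of_del_acyc {X : Set (Finset V)} (hX : ∀ s ∈ X, ∀ t, t ⊆ s → t ∈ X) (v : V) {k : ℕ}
    (hL : Sph R (lnk X v) k) (hD : Acyc R (del X v)) : Sph R X (k + 1) := by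
  have hDX : del X v ⊆ X := fun τ h => h.1
  have hLD : lnk X v ⊆ del X v := fun τ h => ⟨hX _ h.2 _ (subset_insert _ _), h.1⟩
  obtain ⟨hL1, z₀, hz₀, hz₀', hL2, hL3⟩ := hL
  obtain ⟨y₀, hy₀, hy₀'⟩ := hD k (-z₀) (Submodule.neg_mem _ (chains_mono R hLD _ hz₀))
    (by rw [map_neg, hz₀', neg_zero])
  refine ⟨?_, y₀ + cone R v z₀, Submodule.add_mem _ (chains_mono R hDX _ hy₀)
    (cone_chains R hz₀), ?_, ?_, ?_⟩
  · intro c hc z hz h0
    rcases c with _ | c
    · obtain ⟨u, hu, hu'⟩ := hD 0 z (chains_zero_del R v hz) h0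
      exact ⟨u, chains_mono R hDX _ hu, hu'⟩
    · obtain ⟨y, hy, w, hw, rfl⟩ := chains_dec R v hz
      obtain ⟨h1, h2⟩ := bd_dec_Av R (chains_del_Av R hy) (chains_lnk_Av R hw)
        (Submodule.zero_mem _) h0
      obtain ⟨u, hu, hu'⟩ := hL1 c (fun h => hc (by rw [h])) w hw h2
      have h3 : bd R (y + u) = 0 := by rw [map_add, hu', ← h1]
      obtain ⟨t, ht, ht'⟩ := hD (c + 1) (y + u)
        (Submodule.add_mem _ hy (chains_mono R hLD _ hu)) h3
      refine ⟨t - cone R v u, Submodule.sub_mem _ (chains_mono R hDX _ ht) (cone_chains R hu), ?_⟩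
      have h := bd_cone_add R v u
      have h' : bd R (cone R v u) = u - cone R v (bd R u) := by rw [eq_sub_iff_add_eq, h]
      rw [map_sub, ht', h', hu']; abel
  · rw [bd_dec, hy₀', hz₀']; simp
  · intro z hz h0
    obtain ⟨y, hy, w, hw, rfl⟩ := chains_dec R v hz
    obtain ⟨h1, h2⟩ := bd_dec_Av R (chains_del_Av R hy) (chains_lnk_Av R hw)
      (Submodule.zero_mem _) h0
    obtain ⟨a, u, hu, hu'⟩ := hL2 w hw h2
    have h3 : bd R (y - a • y₀ + u) = 0 := by
      rw [map_add, map_sub, map_smul, hy₀', smul_neg, sub_neg_eq_add, add_assoc, ← hu', ← h1]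
    obtain ⟨t, ht, ht'⟩ := hD (k + 1) (y - a • y₀ + u)
      (Submodule.add_mem _ (Submodule.sub_mem _ hy (Submodule.smul_mem _ _ hy₀))
        (chains_mono R hLD _ hu)) h3
    refine ⟨a, t - cone R v u,
      Submodule.sub_mem _ (chains_mono R hDX _ ht) (cone_chains R hu), ?_⟩
    have h := bd_cone_add R v u
    have h' : bd R (cone R v u) = u - cone R v (bd R u) := by rw [eq_sub_iff_add_eq, h]
    rw [map_sub, ht', h', hu', map_add, map_smul, smul_add]; abel
  · intro a u hu h0
    obtain ⟨y, hy, w, hw, rfl⟩ := chains_dec R v hu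
    rw [bd_dec] at h0
    have h1 : a • (y₀ + cone R v z₀) = a • y₀ + cone R v (a • z₀) := by
      rw [smul_add, map_smul]
    rw [h1] at h0
    have h2 := dec_unique R
      (Submodule.add_mem _ (bd_Av R (chains_del_Av R hy)) (chains_lnk_Av R hw))
      (Submodule.neg_mem _ (bd_Av R (chains_lnk_Av R hw)))
      (Submodule.smul_mem _ _ (chains_del_Av R hy₀))
      (Submodule.smul_mem _ _ (chains_lnk_Av R hz₀)) h0
    exact hL3 a (-w) (Submodule.neg_mem _ hw) (by rw [map_neg]; exact h2.2)

theorem Sph_empty : Sph R ({∅} : Set (Finset V)) 0 := by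
  have hc : ∀ c, c ≠ 0 → ∀ z ∈ chains R ({∅} : Set (Finset V)) c, z = 0 := by
    intro c hc z hz
    have : {τ : Finset V | τ ∈ ({∅} : Set (Finset V)) ∧ τ.card = c} = ∅ := by
      ext τ
      simp only [Set.mem_singleton_iff, Set.mem_ofPred_eq, Set.mem_empty_iff_false, iff_false]
      rintro ⟨rfl, h⟩
      exact hc (by simpa using h.symm)
    unfold chains at hz
    rw [this, Finsupp.supported_empty] at hz
    simpa using hz
  have h0 : ∀ z ∈ chains R ({∅} : Set (Finset V)) 0, ∃ a : R,
      z = a • Finsupp.single (∅ : Finset V) (1 : R) := by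
    intro z hz
    refine ⟨z ∅, ?_⟩
    ext τ
    simp only [Finsupp.smul_single, smul_eq_mul, mul_one]
    by_cases h : τ = ∅
    · subst h; simp
    · rw [Finsupp.single_apply, if_neg (fun h' => h h'.symm)]
      by_contra h2
      have := (Finsupp.mem_supported R z).mp hz (Finsupp.mem_support_iff.mpr h2)
      exact h this.1
  refine ⟨?_, Finsupp.single ∅ 1, ?_, ?_, ?_, ?_⟩
  · intro c hcc z hz _
    exact ⟨0, Submodule.zero_mem _, by rw [hc c hcc z hz, map_zero]⟩
  · have h2 : (∅ : Finset V) ∈ {τ : Finset V | τ ∈ ({∅} : Set (Finset V)) ∧ τ.card = 0} :=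
      ⟨rfl, rfl⟩
    exact single_mem R h2 _
  · simp [bd_single]
  · intro z hz _
    obtain ⟨a, ha⟩ := h0 z hz
    exact ⟨a, 0, Submodule.zero_mem _, by rw [map_zero, add_zero, ha]⟩
  · intro a u hu h
    rw [hc 1 (by norm_num) u hu, map_zero] at h
    have := congrArg (fun f => f ∅) h
    simpa using this.symm

theorem Sph.has {X : Set (Finset V)} {k : ℕ} (h : Sph R X k) : HasSphereHomology R X k := by
  obtain ⟨h1, z₀, hz₀, hz₀', h2, h3⟩ := h
  constructor
  · have hmem : ∀ a : R, (boundaries R X k).mkQ (a • z₀) ∈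
        (cycles R X k).map (boundaries R X k).mkQ := by
      intro a
      refine Submodule.mem_map_of_mem ?_
      exact Submodule.smul_mem _ _ ⟨hz₀, hz₀'⟩
    let φ : R →ₗ[R] RedHom R X k :=
      { toFun := fun a => ⟨(boundaries R X k).mkQ (a • z₀), hmem a⟩
        map_add' := by
          intro a b
          apply Subtype.ext
          simp only [add_smul, map_add]
          rfl
        map_smul' := by
          intro a b
          apply Subtype.ext
          simp only [smul_eq_mul, mul_smul, map_smul, RingHom.id_apply]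
          rfl }
    have hφ : Function.Bijective φ := by
      constructor
      · rw [← LinearMap.ker_eq_bot, LinearMap.ker_eq_bot']
        intro a ha
        have h4 : (boundaries R X k).mkQ (a • z₀) = 0 := congrArg Subtype.val ha
        rw [Submodule.mkQ_apply, Submodule.Quotient.mk_eq_zero] at h4
        obtain ⟨u, hu, hu'⟩ := h4
        exact h3 a u hu hu'
      · rintro ⟨q, z, ⟨hz, hz'⟩, rfl⟩
        obtain ⟨a, u, hu, hzu⟩ := h2 z hz hz'
        refine ⟨a, Subtype.ext ?_⟩
        change (boundaries R X k).mkQ (a • z₀) = (boundaries R X k).mkQ z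
        rw [Submodule.mkQ_apply, Submodule.mkQ_apply, Submodule.Quotient.eq]
        refine ⟨-u, Submodule.neg_mem _ hu, ?_⟩
        rw [map_neg, hzu]; abel
    exact ⟨(LinearEquiv.ofBijective φ hφ).symm⟩
  · intro c hc
    refine ⟨?_⟩
    have h0 : ∀ x : RedHom R X c, x = 0 := by
      rintro ⟨q, z, ⟨hz, hz'⟩, rfl⟩
      apply Subtype.ext
      obtain ⟨u, hu, hu'⟩ := h1 c hc z hz hz'
      change (boundaries R X c).mkQ z = 0
      rw [Submodule.mkQ_apply, Submodule.Quotient.mk_eq_zero]
      exact ⟨u, hu, hu'⟩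
    intro x y
    rw [h0 x, h0 y]

end

end Pool.Agent.H66.Flag
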