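import Pool.Agent.H66.FlagPoly

set_option autoImplicit false
set_option linter.unusedSectionVars false

namespace Pool.Agent.H66.Flag

open Finset Polynomial

section

theorem card_eq_sum_part {r : ℕ} {α : Fin r → Type} (τ : Finset (Σ j, α j)) :
    τ.card = ∑ j, (part τ j).card := by
  classical
  have h : τ = univ.sigma (fun j => part τ j) := by
    ext ⟨j, x⟩
    simp [part]
  conv_lhs => rw [h]
  rw [Finset.card_sigma]

theorem gen_join {r : ℕ} {α : Fin r → Type} [∀ j, Fintype (α j)] (K : ∀ j, SCx (α j)) :
    gen (joinCx K).faces = ∏ j, gen (K j).faces := by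
  classical
  unfold gen
  rw [Finset.prod_univ_sum]
  refine Finset.sum_bij' (fun τ _ j => part τ j) (fun p _ => univ.sigma p) ?_ ?_ ?_ ?_ ?_
  · intro τ hτ
    simp only [mem_filter, mem_univ, true_and] at hτ
    rw [Fintype.mem_piFinset]
    intro j
    simp only [mem_filter, mem_univ, true_and]
    exact hτ j
  · intro p hp
    rw [Fintype.mem_piFinset] at hp
    simp only [mem_filter, mem_univ, true_and]
    intro j
    have h1 : part (univ.sigma p) j = p j := by ext x; simp [part]
    rw [h1]
    have := hp j
    simp only [mem_filter, mem_univ, true_and] at this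
    exact this
  · intro τ _
    ext ⟨j, x⟩
    simp [part]
  · intro p _
    funext j
    ext x
    simp [part]
  · intro τ _
    rw [card_eq_sum_part, Finset.prod_pow_eq_pow_sum]

theorem gen_cycle (a : ℕ) (ha : 3 ≤ a) [Fintype (ZMod a)] :
    gen (cycleCx a).faces = 1 + (a : ℤ[X]) * (X * (1 + X)) := by
  classical
  have : NeZero a := ⟨by omega⟩
  have : Fact (1 < a) := ⟨by omega⟩
  have h1 : (1 : ZMod a) ≠ 0 := one_ne_zero
  have h2 : (2 : ZMod a) ≠ 0 := by
    intro h
    have h3 : ((2 : ℕ) : ZMod a) = 0 := by exact_mod_cast h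
    rw [ZMod.natCast_eq_zero_iff] at h3
    have := Nat.le_of_dvd (by norm_num) h3
    omega
  have hfil : (univ.filter (fun τ : Finset (ZMod a) => τ ∈ (cycleCx a).faces)) =
      insert ∅ ((univ.image fun i : ZMod a => ({i} : Finset (ZMod a))) ∪
        (univ.image fun i : ZMod a => ({i, i + 1} : Finset (ZMod a)))) := by
    ext τ
    simp only [mem_filter, mem_univ, true_and, mem_insert, mem_union, mem_image]
    constructor
    · rintro (h | ⟨i, h | h⟩)
      · exact Or.inl h
      · exact Or.inr (Or.inl ⟨i, h.symm⟩)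
      · exact Or.inr (Or.inr ⟨i, h.symm⟩)
    · rintro (h | ⟨i, h⟩ | ⟨i, h⟩)
      · exact Or.inl h
      · exact Or.inr ⟨i, Or.inl h.symm⟩
      · exact Or.inr ⟨i, Or.inr h.symm⟩
  have hcard2 : ∀ i : ZMod a, ({i, i + 1} : Finset (ZMod a)).card = 2 := by
    intro i
    apply Finset.card_pair
    intro h
    exact h1 (left_eq_add.mp h)
  unfold gen
  rw [hfil, Finset.sum_insert, Finset.sum_union, Finset.sum_image, Finset.sum_image]
  · simp only [card_empty, pow_zero, card_singleton, pow_one, hcard2, Finset.sum_const,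
      Finset.card_univ, ZMod.card, nsmul_eq_mul]
    ring
  · intro i _ j _ hij
    have hij' : ({i, i + 1} : Finset (ZMod a)) = {j, j + 1} := hij
    have hi : i ∈ ({j, j + 1} : Finset (ZMod a)) := by rw [← hij']; simp
    have hj : j ∈ ({i, i + 1} : Finset (ZMod a)) := by rw [hij']; simp
    simp only [mem_insert, mem_singleton] at hi hj
    rcases hi with h | h
    · exact h
    · rcases hj with h' | h'
      · exact h'.symm
      · exfalso
        rw [h] at h'
        apply h2
        have : j = j + 2 := by
          calc j = j + 1 + 1 := h'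
            _ = j + 2 := by ring
        exact (left_eq_add.mp this)
  · intro i _ j _ hij
    exact Finset.singleton_injective hij
  · rw [Finset.disjoint_left]
    intro τ hτ hτ'
    obtain ⟨i, _, rfl⟩ := mem_image.mp hτ
    obtain ⟨j, _, hj⟩ := mem_image.mp hτ'
    have := hcard2 j
    rw [hj, card_singleton] at this
    omega
  · intro h
    rcases mem_union.mp h with h | h
    · obtain ⟨i, _, hi⟩ := mem_image.mp h
      exact absurd hi (Finset.singleton_ne_empty i)
    · obtain ⟨i, _, hi⟩ := mem_image.mp h
      have := hcard2 i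
      rw [hi] at this
      simp at this

/-- The face numbers of `J_r(r a)`. -/
theorem J_coeff (r a : ℕ) (hr : 1 ≤ r) (ha : 3 ≤ a) (i : ℕ) :
    ((1 + (a : ℤ[X]) * (X * (1 + X))) ^ r : ℤ[X]).coeff i = fNum (J r (r * a)) i := by
  have hlen : ∀ j : Fin r, cycLen r (r * a) j = a := by
    intro j
    unfold cycLen
    rw [Nat.mul_div_cancel_left _ (by omega), Nat.mul_mod_right]
    simp
  have : ∀ j : Fin r, NeZero (cycLen r (r * a) j) := fun j => ⟨by rw [hlen]; omega⟩
  have : ∀ j : Fin r, Fintype (ZMod (cycLen r (r * a) j)) := fun j => ZMod.fintype _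
  rw [← gen_coeff]
  unfold J
  rw [gen_join]
  have : ∀ j : Fin r, gen (cycleCx (cycLen r (r * a) j)).faces =
      1 + (a : ℤ[X]) * (X * (1 + X)) := by
    intro j
    rw [gen_cycle _ (by rw [hlen]; exact ha), hlen]
  rw [Finset.prod_congr rfl (fun j _ => this j)]
  simp

end

end Pool.Agent.H66.Flag
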