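import Pool.Agent.H66.FlagComb

set_option autoImplicit false
set_option linter.unusedSectionVars false

namespace Pool.Agent.H66.Flag

open Finset Polynomial

section Count

open Classical in
/-- generating polynomial of a family of finite sets -/
noncomputable def gen {V : Type} [Fintype V] (X₀ : Set (Finset V)) : ℤ[X] :=
  ∑ τ ∈ univ.filter (fun τ : Finset V => τ ∈ X₀), X ^ τ.card

theorem gen_coeff {V : Type} [Fintype V] (K : SCx V) (i : ℕ) :
    (gen K.faces).coeff i = fNum K i := by
  classical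
  unfold gen fNum
  rw [Polynomial.finsetSum_coeff, Nat.card_eq_fintype_card, Fintype.card_subtype]
  simp only [Polynomial.coeff_X_pow]
  rw [Finset.sum_boole, Finset.filter_filter]
  congr 2
  ext τ
  simp only [mem_filter, mem_univ, true_and]
  constructor
  · rintro ⟨h1, h2⟩; exact ⟨h1, h2.symm⟩
  · rintro ⟨h1, h2⟩; exact ⟨h1, h2.symm⟩

theorem Cl_insert {V : Type} [DecidableEq V] {G : SimpleGraph V} {W : Set V} {v : V} (hv : v ∈ W)
    (τ : Finset V) (h : v ∉ τ) :
    insert v τ ∈ Cl G W ↔ τ ∈ Cl G {w | w ∈ W ∧ G.Adj v w} := by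
  constructor
  · rintro ⟨h2, h3⟩
    refine ⟨fun x hx => ?_, fun x hx y hy =>
      h3 x (mem_insert_of_mem hx) y (mem_insert_of_mem hy)⟩
    refine ⟨h2 x (mem_insert_of_mem hx), ?_⟩
    exact h3 v (mem_insert_self _ _) x (mem_insert_of_mem hx) (fun h' => h (h' ▸ hx))
  · rintro ⟨h1, h2⟩
    refine ⟨?_, ?_⟩
    · intro x hx
      rcases mem_insert.mp hx with rfl | hx
      · exact hv
      · exact (h1 x hx).1
    · intro x hx y hy hxy
      rcases mem_insert.mp hx with rfl | hx
      · rcases mem_insert.mp hy with rfl | hy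
        · exact absurd rfl hxy
        · exact (h1 y hy).2
      · rcases mem_insert.mp hy with hy' | hy
        · rw [hy']; exact (h1 x hx).2.symm
        · exact h2 x hx y hy hxy

theorem gen_rec {V : Type} [Fintype V] {G : SimpleGraph V} {W : Set V} {v : V} (hv : v ∈ W) :
    gen (Cl G W) = gen (Cl G {w | w ∈ W ∧ w ≠ v}) + X * gen (Cl G {w | w ∈ W ∧ G.Adj v w}) := by
  classical
  unfold gen
  rw [← Finset.sum_filter_add_sum_filter_not _ (fun τ : Finset V => v ∉ τ)]
  congr 1
  · rw [Finset.filter_filter]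
    apply Finset.sum_congr _ (fun _ _ => rfl)
    ext τ
    simp only [mem_filter, mem_univ, true_and]
    constructor
    · rintro ⟨⟨h1, h2⟩, h3⟩
      refine ⟨fun x hx => ?_, h2⟩
      exact ⟨h1 x hx, fun h => h3 (h ▸ hx)⟩
    · rintro ⟨h1, h2⟩
      exact ⟨⟨fun x hx => (h1 x hx).1, h2⟩, fun h => (h1 v h).2 rfl⟩
  · rw [Finset.filter_filter, Finset.mul_sum]
    symm
    refine Finset.sum_bij' (fun τ _ => insert v τ) (fun τ _ => τ.erase v) ?_ ?_ ?_ ?_ ?_
    · intro τ hτ
      simp only [mem_filter, mem_univ, true_and] at hτ ⊢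
      have hvτ : v ∉ τ := fun h => (hτ.1 v h).2.ne rfl
      exact ⟨(Cl_insert hv τ hvτ).mpr hτ, by simp⟩
    · intro τ hτ
      simp only [mem_filter, mem_univ, true_and, not_not] at hτ ⊢
      rw [← Cl_insert hv _ (notMem_erase v τ), insert_erase hτ.2]
      exact hτ.1
    · intro τ hτ
      simp only [mem_filter, mem_univ, true_and] at hτ
      have hvτ : v ∉ τ := fun h => (hτ.1 v h).2.ne rfl
      exact erase_insert hvτ
    · intro τ hτ
      simp only [mem_filter, mem_univ, true_and, not_not] at hτ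
      exact insert_erase hτ.2
    · intro τ hτ
      simp only [mem_filter, mem_univ, true_and] at hτ
      have hvτ : v ∉ τ := fun h => (hτ.1 v h).2.ne rfl
      rw [card_insert_of_notMem hvτ, pow_succ']

theorem Cnt.gen_eq {V : Type} [Fintype V] {G : SimpleGraph V} {W : Set V} {q : ℤ[X]}
    (h : Cnt G W q) : gen (Cl G W) = q := by
  induction h with
  | empty =>
    classical
    have : Cl G ∅ = {∅} := by
      ext τ
      constructor
      · rintro ⟨h1, _⟩
        exact Finset.eq_empty_of_forall_notMem (fun x hx => h1 x hx)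
      · rintro rfl
        exact ⟨by simp, by simp⟩
    rw [this]
    unfold gen
    simp only [Set.mem_singleton_iff]
    rw [Finset.filter_eq' univ (∅ : Finset V)]
    simp
  | step W v hv p q h1 h2 ih1 ih2 =>
    rw [gen_rec hv, ih1, ih2]

theorem cliqueCx_faces_univ {V : Type} (G : SimpleGraph V) :
    (cliqueCx G).faces = Cl G Set.univ := by
  ext τ
  constructor
  · intro h; exact ⟨fun _ _ => Set.mem_univ _, h⟩
  · rintro ⟨_, h⟩; exact h

end Count

section HPoly

/-- The `h`-polynomial from an evaluation identity. -/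
theorem hrev_eq {V : Type} (d : ℕ) (K : SCx V) (F Q : ℤ[X])
    (hF : ∀ i, F.coeff i = fNum K i) (hdeg : F.natDegree ≤ d)
    (hQ : ∀ x : ℚ, x ≠ 0 → x ≠ 1 →
      aeval x Q = (1 - x) ^ d * aeval (x / (1 - x)) F) :
    ∑ i ∈ range (d + 1), C (hNum d K i) * X ^ i = Q := by
  have hinj : Function.Injective (Polynomial.map (algebraMap ℤ ℚ)) :=
    Polynomial.map_injective _ (RingHom.injective_int _)
  apply hinj
  have hinf : Set.Infinite {x : ℚ | x ≠ 0 ∧ x ≠ 1} := by
    have : {x : ℚ | x ≠ 0 ∧ x ≠ 1} = ({0, 1} : Set ℚ)ᶜ := by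
      ext x; simp [not_or]
    rw [this]
    exact (Set.toFinite _).infinite_compl
  refine Polynomial.eq_of_infinite_eval_eq _ _ (hinf.mono ?_)
  rintro x ⟨hx0, hx1⟩
  have h1x : 1 - x ≠ 0 := sub_ne_zero.mpr (Ne.symm hx1)
  change Polynomial.eval x _ = Polynomial.eval x _
  rw [Polynomial.eval_map_algebraMap, Polynomial.eval_map_algebraMap, hQ x hx0 hx1]
  -- left side
  have hdegh : (hPoly d K).natDegree ≤ d := by
    unfold hPoly
    apply Polynomial.natDegree_sum_le_of_forall_le
    intro i hi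
    calc (C (fNum K i) * (X - 1) ^ (d - i) : ℤ[X]).natDegree
        ≤ ((X - 1 : ℤ[X]) ^ (d - i)).natDegree := Polynomial.natDegree_C_mul_le _ _
      _ ≤ (d - i) * (X - 1 : ℤ[X]).natDegree := Polynomial.natDegree_pow_le
      _ ≤ (d - i) * 1 := by
          apply Nat.mul_le_mul_left
          have := Polynomial.natDegree_X_sub_C (1 : ℤ)
          rw [Polynomial.C_1] at this
          exact this.le
      _ ≤ d := by omega
  have hL : aeval x (∑ i ∈ range (d + 1), C (hNum d K i) * X ^ i : ℤ[X]) =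
      x ^ d * aeval (1 / x) (hPoly d K) := by
    rw [Polynomial.aeval_eq_sum_range' (lt_of_le_of_lt hdegh (Nat.lt_succ_self d)),
      map_sum, Finset.mul_sum, ← Finset.sum_range_reflect]
    apply Finset.sum_congr rfl
    intro j hj
    rw [mem_range] at hj
    have h1 : d + 1 - 1 - j = d - j := by omega
    have h2 : d - (d - j) = j := by omega
    have h3 : x ^ d = x ^ (d - j) * x ^ j := by rw [← pow_add]; congr 1; omega
    rw [h1, map_mul, map_pow, aeval_X, Polynomial.aeval_C, hNum, h2, h3]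
    simp only [algebraMap_int_eq, eq_intCast, zsmul_eq_mul, one_div, inv_pow]
    field_simp
  rw [hL]
  have hH : aeval (1 / x) (hPoly d K) =
      ∑ i ∈ range (d + 1), (fNum K i : ℚ) * (1 / x - 1) ^ (d - i) := by
    unfold hPoly
    rw [map_sum]
    apply Finset.sum_congr rfl
    intro i _
    simp
  have hR : aeval (x / (1 - x)) F =
      ∑ i ∈ range (d + 1), (fNum K i : ℚ) * (x / (1 - x)) ^ i := by
    rw [Polynomial.aeval_eq_sum_range' (lt_of_le_of_lt hdeg (Nat.lt_succ_self d))]
    apply Finset.sum_congr rfl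
    intro i _
    rw [hF, zsmul_eq_mul]
  rw [hH, hR, Finset.mul_sum, Finset.mul_sum]
  apply Finset.sum_congr rfl
  intro i hi
  rw [mem_range] at hi
  have h3 : x ^ d = x ^ (d - i) * x ^ i := by rw [← pow_add]; congr 1; omega
  have h4 : (1 - x) ^ d = (1 - x) ^ (d - i) * (1 - x) ^ i := by rw [← pow_add]; congr 1; omega
  have h5 : (1 / x - 1) = (1 - x) / x := by field_simp
  rw [h3, h4, h5, div_pow, div_pow]
  field_simp

theorem hNum_eq {V : Type} {d : ℕ} {K : SCx V} {Q : ℤ[X]}
    (h : ∑ i ∈ range (d + 1), C (hNum d K i) * X ^ i = Q) {i : ℕ} (hi : i ≤ d) :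
    hNum d K i = Q.coeff i := by
  rw [← h, Polynomial.finsetSum_coeff]
  simp only [Polynomial.coeff_C_mul, Polynomial.coeff_X_pow, mul_ite, mul_one, mul_zero]
  rw [Finset.sum_ite_eq]
  rw [if_pos (mem_range.mpr (by omega))]

/-- The `γ`-vector from the `f`-polynomial. -/
theorem gamma_of_F {V : Type} (r : ℕ) (K : SCx V) (F : ℤ[X]) (γ : ℕ → ℤ)
    (hF : ∀ i, F.coeff i = fNum K i) (hdeg : F.natDegree ≤ 2 * r)
    (hγ : F = ∑ i ∈ range (r + 1), C (γ i) * (X * (1 + X)) ^ i * (1 + 2 * X) ^ (2 * r - 2 * i)) :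
    IsGammaVector r K γ := by
  unfold IsGammaVector
  apply hrev_eq (2 * r) K F _ hF hdeg
  intro x hx0 hx1
  have h1x : 1 - x ≠ 0 := sub_ne_zero.mpr (Ne.symm hx1)
  rw [hγ, map_sum, map_sum, Finset.mul_sum]
  apply Finset.sum_congr rfl
  intro i hi
  rw [mem_range] at hi
  simp only [map_mul, map_pow, map_add, map_one, aeval_X, Polynomial.aeval_C, map_ofNat]
  have e1 : x / (1 - x) * (1 + x / (1 - x)) = x / (1 - x) ^ 2 := by field_simp; ring
  have e2 : 1 + 2 * (x / (1 - x)) = (1 + x) / (1 - x) := by field_simp; ring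
  rw [e1, e2, div_pow, div_pow, ← pow_mul]
  have h4 : (1 - x) ^ (2 * r) = (1 - x) ^ (2 * i) * (1 - x) ^ (2 * r - 2 * i) := by
    rw [← pow_add]; congr 1; omega
  rw [h4]
  field_simp

/-- Uniqueness of the `γ`-vector. -/
theorem gamma_unique {V : Type} {r : ℕ} {K : SCx V} {γ γ' : ℕ → ℤ} (h : IsGammaVector r K γ)
    (h' : IsGammaVector r K γ') : ∀ i ≤ r, γ i = γ' i := by
  unfold IsGammaVector at h h'
  rw [h] at h'
  intro i
  induction i using Nat.strong_induction_on with
  | _ i ih =>
    intro hi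
    have hc := congrArg (fun p : ℤ[X] => p.coeff i) h'
    simp only [Polynomial.finsetSum_coeff] at hc
    have hz : ∀ (δ : ℕ → ℤ), ∀ j, i < j →
        (C (δ j) * X ^ j * (1 + X) ^ (2 * r - 2 * j) : ℤ[X]).coeff i = 0 := by
      intro δ j hj
      rw [mul_assoc, Polynomial.coeff_C_mul, Polynomial.coeff_X_pow_mul', if_neg (by omega),
        mul_zero]
    have hs : ∀ (δ : ℕ → ℤ),
        ∑ j ∈ range (r + 1), (C (δ j) * X ^ j * (1 + X) ^ (2 * r - 2 * j) : ℤ[X]).coeff i =
        ∑ j ∈ range i, (C (δ j) * X ^ j * (1 + X) ^ (2 * r - 2 * j) : ℤ[X]).coeff i + δ i := by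
      intro δ
      have h1 : range (r + 1) = range (i + 1) ∪ Finset.Ico (i + 1) (r + 1) := by
        ext j; simp only [mem_range, mem_union, Finset.mem_Ico]; omega
      rw [h1, Finset.sum_union, Finset.sum_range_succ]
      · rw [Finset.sum_eq_zero (s := Finset.Ico (i + 1) (r + 1)), add_zero]
        · congr 1
          rw [mul_assoc, Polynomial.coeff_C_mul, Polynomial.coeff_X_pow_mul', if_pos le_rfl,
            Nat.sub_self, Polynomial.coeff_zero_eq_eval_zero]
          simp
        · intro j hj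
          rw [Finset.mem_Ico] at hj
          exact hz δ j (by omega)
      · rw [Finset.disjoint_left]
        intro j hj hj'
        rw [mem_range] at hj
        rw [Finset.mem_Ico] at hj'
        omega
    rw [hs γ, hs γ'] at hc
    have h2 : ∑ j ∈ range i, (C (γ j) * X ^ j * (1 + X) ^ (2 * r - 2 * j) : ℤ[X]).coeff i =
        ∑ j ∈ range i, (C (γ' j) * X ^ j * (1 + X) ^ (2 * r - 2 * j) : ℤ[X]).coeff i := by
      apply Finset.sum_congr rfl
      intro j hj
      rw [mem_range] at hj
      rw [ih j hj (by omega)]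
    rw [h2] at hc
    exact add_left_cancel hc

end HPoly

end Pool.Agent.H66.Flag
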