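import Mathlib

set_option autoImplicit false

namespace Pool.Agent.H66.Flag

open Polynomial

/-- the coefficients of `(1 + c X + X^2)^r` in degrees `0, 1, 2, 3`. -/
theorem quad_coeff (c : ℤ) (r : ℕ) :
    ((1 + C c * X + X ^ 2 : ℤ[X]) ^ r).coeff 0 = 1 ∧
    ((1 + C c * X + X ^ 2 : ℤ[X]) ^ r).coeff 1 = r * c ∧
    2 * ((1 + C c * X + X ^ 2 : ℤ[X]) ^ r).coeff 2 = 2 * r + r * (r - 1) * c ^ 2 ∧
    6 * ((1 + C c * X + X ^ 2 : ℤ[X]) ^ r).coeff 3 =
      r * (r - 1) * (r - 2) * c ^ 3 + 6 * r * (r - 1) * c := by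
  induction r with
  | zero => simp [Polynomial.coeff_one]
  | succ r ih =>
    obtain ⟨h0, h1, h2, h3⟩ := ih
    set P : ℤ[X] := (1 + C c * X + X ^ 2 : ℤ[X]) ^ r with hP
    have hs : (1 + C c * X + X ^ 2 : ℤ[X]) ^ (r + 1) = P + C c * (P * X) + P * X ^ 2 := by
      rw [pow_succ, ← hP]; ring
    rw [hs]
    have e0 : (P + C c * (P * X) + P * X ^ 2).coeff 0 = P.coeff 0 := by
      simp [Polynomial.mul_coeff_zero]
    have e1 : (P + C c * (P * X) + P * X ^ 2).coeff 1 = P.coeff 1 + c * P.coeff 0 := by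
      rw [coeff_add, coeff_add, coeff_C_mul, coeff_mul_X P 0, coeff_mul_X_pow']
      simp
    have e2 : (P + C c * (P * X) + P * X ^ 2).coeff 2 =
        P.coeff 2 + c * P.coeff 1 + P.coeff 0 := by
      rw [coeff_add, coeff_add, coeff_C_mul, coeff_mul_X P 1, coeff_mul_X_pow']
      simp
    have e3 : (P + C c * (P * X) + P * X ^ 2).coeff 3 =
        P.coeff 3 + c * P.coeff 2 + P.coeff 1 := by
      rw [coeff_add, coeff_add, coeff_C_mul, coeff_mul_X P 2, coeff_mul_X_pow']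
      simp
    rw [e0, e1, e2, e3]
    push_cast
    refine ⟨h0, ?_, ?_, ?_⟩
    · rw [h1, h0]; ring
    · rw [h1, h0]; linear_combination h2
    · rw [h1]; linear_combination h3 + 3 * c * h2

theorem choose2 (r : ℕ) : 2 * ((2 * r).choose 2 : ℤ) = 2 * r * (2 * r - 1) := by
  have h := Nat.choose_two_right (2 * r)
  have h2 : 2 ∣ (2 * r) * (2 * r - 1) := Dvd.dvd.mul_right (Dvd.intro _ rfl) _
  have h3 : 2 * (2 * r).choose 2 = (2 * r) * (2 * r - 1) := by
    rw [h]; exact Nat.mul_div_cancel' h2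
  rcases Nat.eq_zero_or_pos r with rfl | hr
  · simp
  · have h4 : ((2 * (2 * r).choose 2 : ℕ) : ℤ) = (((2 * r) * (2 * r - 1) : ℕ) : ℤ) := by rw [h3]
    rw [Nat.cast_mul, Nat.cast_mul, Nat.cast_sub (by omega)] at h4
    push_cast at h4
    exact h4

theorem choose3 (r : ℕ) (hr : 1 ≤ r) :
    6 * ((2 * r).choose 3 : ℤ) = 2 * r * (2 * r - 1) * (2 * r - 2) := by
  have h := Nat.choose_succ_right_eq (2 * r) 2
  have h1 : (((2 * r).choose 3 * 3 : ℕ) : ℤ) = (((2 * r).choose 2 * (2 * r - 2) : ℕ) : ℤ) := by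
    rw [h]
  rw [Nat.cast_mul, Nat.cast_mul, Nat.cast_sub (by omega)] at h1
  push_cast at h1
  have h2 := choose2 r
  linear_combination 2 * h1 + (2 * (r : ℤ) - 2) * h2

theorem arith (r s A1 A2 A3 B2 B3 : ℤ) (hr : 3 ≤ r) (hs : 2 * r + 3 ≤ s)
    (q1 : A1 = r * (2 * s)) (q2 : 2 * A2 = 2 * r + r * (r - 1) * (2 * s) ^ 2)
    (q3 : 6 * A3 = r * (r - 1) * (r - 2) * (2 * s) ^ 3 + 6 * r * (r - 1) * (2 * s))
    (c2 : 2 * B2 = 2 * r * (2 * r - 1)) (c3 : 6 * B3 = 2 * r * (2 * r - 1) * (2 * r - 2)) :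
    0 < A2 ∧ 0 < A3 ∧ 0 < A2 - A1 ∧ 0 < A3 - A2 ∧ B2 * A3 < (s * B3) * A2 ∧
      B2 - 2 * r * s < 0 ∧ 0 < s * B3 - B2 := by
  have hr1 : 0 < r - 1 := by linarith
  have hr2 : 0 < r - 2 := by linarith
  have hr0 : 0 < r := by linarith
  have hs0 : 0 < s := by linarith
  have h2r : 0 < 2 * r - 1 := by linarith
  have f1 : 0 < (r - 1) * s - 1 := by nlinarith
  have f2 : 0 < 2 * (r - 2) * s - 3 := by nlinarith
  have f3 : 0 < 2 * (r - 1) * s - 1 := by nlinarith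
  have f4 : 0 < 2 * s - (2 * r - 1) := by linarith
  have f5 : 0 < s * (2 * r - 2) - 3 := by nlinarith
  have f6 : 0 < s ^ 2 - 1 := by nlinarith
  refine ⟨?_, ?_, ?_, ?_, ?_, ?_, ?_⟩
  · have : 0 < 2 * A2 := by rw [q2]; positivity
    linarith
  · have : 0 < 6 * A3 := by rw [q3]; positivity
    linarith
  · have e : 2 * (A2 - A1) = 2 * r + 4 * r * s * ((r - 1) * s - 1) := by
      rw [mul_sub, q2, q1]; ring
    have : 0 < 2 * (A2 - A1) := by rw [e]; positivity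
    linarith
  · have e : 6 * (A3 - A2) = r * (r - 1) * (4 * s ^ 2) * (2 * (r - 2) * s - 3) +
        6 * r * (2 * (r - 1) * s - 1) := by
      linear_combination q3 - 3 * q2
    have : 0 < 6 * (A3 - A2) := by rw [e]; positivity
    linarith
  · have e : 12 * ((s * B3) * A2 - B2 * A3) =
        2 * r * (2 * r - 1) * (r * (r - 1)) * (8 * s * (s ^ 2 - 1)) := by
      linear_combination (s * (6 * B3)) * q2 + s * (2 * r + r * (r - 1) * (2 * s) ^ 2) * c3 -
        (6 * A3) * c2 - (2 * r * (2 * r - 1)) * q3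
    have : 0 < 12 * ((s * B3) * A2 - B2 * A3) := by rw [e]; positivity
    linarith
  · have e : 2 * (2 * r * s - B2) = 2 * r * (2 * s - (2 * r - 1)) := by
      rw [mul_sub, c2]; ring
    have : 0 < 2 * (2 * r * s - B2) := by rw [e]; positivity
    linarith
  · have e : 6 * (s * B3 - B2) = 2 * r * (2 * r - 1) * (s * (2 * r - 2) - 3) := by
      linear_combination s * c3 - 3 * c2
    have : 0 < 6 * (s * B3 - B2) := by rw [e]; positivity
    linarith

end Pool.Agent.H66.Flag
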