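import Pool.Agent.H66.FlagPoly

set_option autoImplicit false
set_option linter.unusedSectionVars false

namespace Pool.Agent.H66.Flag

open Finset

/-- local model -/
def MZ (m : ℕ) : SimpleGraph (ℤ × Bool) where
  Adj x y := 0 < (x.1 - y.1).natAbs ∧
    ((x.1 - y.1).natAbs < m ∨ ((x.1 - y.1).natAbs = m ∧ x.2 = y.2))
  symm := ⟨by
    intro x y h
    have e : (y.1 - x.1).natAbs = (x.1 - y.1).natAbs := by omega
    rw [e]
    exact ⟨h.1, h.2.imp id (fun h' => ⟨h'.1, h'.2.symm⟩)⟩⟩
  loopless := ⟨by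
    intro x h
    have := h.1
    simp at this⟩

/-- the ring-shaped graph on `ZMod N × Bool` -/
def MG (m N : ℕ) : SimpleGraph (ZMod N × Bool) where
  Adj x y := 0 < (x.1 - y.1).valMinAbs.natAbs ∧
    ((x.1 - y.1).valMinAbs.natAbs < m ∨ ((x.1 - y.1).valMinAbs.natAbs = m ∧ x.2 = y.2))
  symm := ⟨by
    intro x y h
    have e : (y.1 - x.1).valMinAbs.natAbs = (x.1 - y.1).valMinAbs.natAbs := by
      rw [← neg_sub x.1 y.1, ZMod.natAbs_valMinAbs_neg]
    rw [e]
    exact ⟨h.1, h.2.imp id (fun h' => ⟨h'.1, h'.2.symm⟩)⟩⟩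
  loopless := ⟨by
    intro x h
    have := h.1
    simp at this⟩

theorem MZ_adj {m : ℕ} {x y : ℤ × Bool} : (MZ m).Adj x y ↔ 0 < (x.1 - y.1).natAbs ∧
    ((x.1 - y.1).natAbs < m ∨ ((x.1 - y.1).natAbs = m ∧ x.2 = y.2)) := Iff.rfl

theorem MG_adj {m N : ℕ} {x y : ZMod N × Bool} : (MG m N).Adj x y ↔
    0 < (x.1 - y.1).valMinAbs.natAbs ∧
    ((x.1 - y.1).valMinAbs.natAbs < m ∨ ((x.1 - y.1).valMinAbs.natAbs = m ∧ x.2 = y.2)) := Iff.rfl

/-- the acyclic part -/
theorem MZ_acyc (m : ℕ) (P : Finset ℤ) (D : ℤ) (hD0 : 0 ≤ D) (hDm : D < m) (hDP : D ∈ P)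
    (hP : ∀ p ∈ P, 0 ≤ p ∧ p ≤ D) (eD : Bool) (j : ℕ) : D + 1 + j ≤ m →
    Ac (MZ m) {w | (D - m < w.1 ∧ w.1 < D + 1 + j ∧ w.1 ∉ P) ∨ w = (D - m, eD)} := by
  induction j with
  | zero =>
    intro _
    refine Ac.cone _ (D - m, eD) (Or.inr rfl) ?_
    rintro w (⟨h1, h2, h3⟩ | h) hne
    · have h4 : w.1 ≠ D := fun h => h3 (h ▸ hDP)
      rw [MZ_adj]
      simp only [Nat.cast_zero] at h2
      refine ⟨?_, Or.inl ?_⟩
      · dsimp only; omega
      · dsimp only; omega
    · exact absurd h hne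
  | succ j ih =>
    intro hj
    push_cast at hj
    set t : ℤ := D + 1 + j with ht
    have htP : t ∉ P := fun h => by have := (hP t h).2; omega
    have htmP : t - m ∉ P := fun h => by have := (hP _ h).1; omega
    set B : Set (ℤ × Bool) :=
      {w | (D - m < w.1 ∧ w.1 < D + 1 + ((j + 1 : ℕ) : ℤ) ∧ w.1 ∉ P) ∨ w = (D - m, eD)} with hB
    -- common cone computation
    have hcone : ∀ (B' : Set (ℤ × Bool)) (δ : Bool), (∀ w ∈ B', w ∈ B) → (t - m, δ) ∈ B' →
        Ac (MZ m) {w | w ∈ B' ∧ (MZ m).Adj (t, δ) w} := by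
      intro B' δ hB' hmem
      refine Ac.cone _ (t - m, δ) ⟨hmem, ?_⟩ ?_
      · rw [MZ_adj]
        refine ⟨?_, Or.inr ⟨?_, rfl⟩⟩
        · dsimp only; omega
        · dsimp only; omega
      · rintro w ⟨hw1, hw2⟩ hne
        rw [MZ_adj] at hw2 ⊢
        obtain ⟨h1, h2⟩ := hw2
        dsimp only at h1 h2 ⊢
        have hlt : w.1 < t := by
          rcases hB' w hw1 with ⟨_, h4, _⟩ | h4
          · push_cast at h4; omega
          · have : w.1 = D - m := by rw [h4]
            omega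
        have hne' : w.1 ≠ t - m := by
          intro h
          rcases h2 with h2 | ⟨_, h2⟩
          · omega
          · exact hne (Prod.ext h h2.symm)
        have hle : (t - w.1).natAbs ≤ m := by
          rcases h2 with h2 | ⟨h2, _⟩
          · exact h2.le
          · exact h2.le
        exact ⟨by omega, Or.inl (by omega)⟩
    have hmB : ∀ δ : Bool, (t - m, δ) ∈ B := by
      intro δ
      refine Or.inl ⟨?_, ?_, htmP⟩
      · dsimp only; omega
      · dsimp only; push_cast; omega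
    refine Ac.step B (t, true) (Or.inl ⟨by dsimp only; omega, by dsimp only; push_cast; omega, htP⟩)
      (hcone B true (fun w hw => hw) (hmB true)) ?_
    refine Ac.step _ (t, false) ⟨Or.inl ⟨by dsimp only; omega, by dsimp only; push_cast; omega, htP⟩,
      by simp⟩ (hcone _ false (fun w hw => hw.1) ⟨hmB false, by simp⟩) ?_
    have hfin : {w | w ∈ {w | w ∈ B ∧ w ≠ (t, true)} ∧ w ≠ (t, false)} =
        {w | (D - m < w.1 ∧ w.1 < D + 1 + j ∧ w.1 ∉ P) ∨ w = (D - m, eD)} := by
      ext w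
      constructor
      · rintro ⟨⟨hw1, hw2⟩, hw3⟩
        rcases hw1 with ⟨h1, h2, h3⟩ | h
        · refine Or.inl ⟨h1, ?_, h3⟩
          have : w.1 ≠ t := by
            intro h
            rcases hb : w.2 with _ | _
            · exact hw3 (Prod.ext h hb)
            · exact hw2 (Prod.ext h hb)
          push_cast at h2
          omega
        · exact Or.inr h
      · rintro (⟨h1, h2, h3⟩ | h)
        · have hne : w.1 ≠ t := by omega
          exact ⟨⟨Or.inl ⟨h1, by push_cast; omega, h3⟩, fun h => hne (by rw [h])⟩,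
            fun h => hne (by rw [h])⟩
        · have h1 : w.1 = D - m := by rw [h]
          have hne : w.1 ≠ t := by omega
          exact ⟨⟨Or.inr h, fun h => hne (by rw [h])⟩, fun h => hne (by rw [h])⟩
    rw [hfin]
    exact ih (by omega)

theorem MZ_cross_adj {m : ℕ} {P : Finset ℤ} (hP : ∀ p ∈ P, 0 < p ∧ p < m) :
    ∀ p ∈ P, ∀ q ∈ P, p ≠ q → ∀ e f, (MZ m).Adj (p, e) (q, f) := by
  intro p hp q hq hpq e f
  have h1 := hP p hp
  have h2 := hP q hq
  rw [MZ_adj]
  dsimp only
  exact ⟨by omega, Or.inl (by omega)⟩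

theorem MZ_cross_non {m : ℕ} {P : Finset ℤ} :
    ∀ p ∈ P, ∀ e f, ¬ (MZ m).Adj (p, e) (p, f) := by
  intro p _ e f h
  rw [MZ_adj] at h
  simp at h

/-- the local model: links of cliques with least position `0`. -/
theorem MZ_link (m : ℕ) (σ : Finset (ℤ × Bool)) (hσ : σ ∈ (cliqueCx (MZ m)).faces)
    (e₀ : Bool) (h0 : (0, e₀) ∈ σ) (hpos : ∀ s ∈ σ, 0 ≤ s.1) (hm : 1 ≤ m) :
    ∃ k : ℕ, k + σ.card = m + 1 ∧ Sp (MZ m) (CN (MZ m) σ) k := by
  classical
  set P : Finset ℤ := σ.image Prod.fst with hPdef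
  have hinj : ∀ s ∈ σ, ∀ t ∈ σ, s.1 = t.1 → s = t := by
    intro s hs t ht h
    by_contra hne
    have := (hσ s hs t ht hne).1
    rw [h] at this
    simp at this
  have hcard : P.card = σ.card := Finset.card_image_of_injOn (fun s hs t ht h => hinj s hs t ht h)
  have hPm : ∀ p ∈ P, 0 ≤ p ∧ p ≤ m := by
    intro p hp
    obtain ⟨s, hs, rfl⟩ := mem_image.mp hp
    refine ⟨hpos s hs, ?_⟩
    by_cases h : (0, e₀) = s
    · rw [← h]; positivity
    · have := (hσ (0, e₀) h0 s hs h).2
      dsimp only at this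
      rcases this with h' | ⟨h', _⟩ <;> omega
  have h0P : (0 : ℤ) ∈ P := mem_image.mpr ⟨(0, e₀), h0, rfl⟩
  have hPne : P.Nonempty := ⟨0, h0P⟩
  set D := P.max' hPne with hDdef
  have hDP : D ∈ P := Finset.max'_mem P hPne
  have hDle : ∀ p ∈ P, p ≤ D := fun p hp => Finset.le_max' P p hp
  obtain ⟨sD, hsD, hsD1⟩ := mem_image.mp hDP
  have hDm := (hPm D hDP).2
  have hD0 := (hPm D hDP).1
  have hnotP : ∀ w ∈ CN (MZ m) σ, w.1 ∉ P := by
    intro w hw hwP
    obtain ⟨s, hs, hsw⟩ := mem_image.mp hwP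
    have := (hw s hs).1
    rw [hsw] at this
    simp at this
  have hw0 : ∀ w ∈ CN (MZ m) σ, (0 - w.1).natAbs < m ∨ ((0 - w.1).natAbs = m ∧ e₀ = w.2) :=
    fun w hw => (hw _ h0).2
  have hwD : ∀ w ∈ CN (MZ m) σ, (D - w.1).natAbs < m ∨ ((D - w.1).natAbs = m ∧ sD.2 = w.2) := by
    intro w hw
    have := (hw _ hsD).2
    rwa [hsD1] at this
  rcases eq_or_lt_of_le hDm with hDm' | hDm'
  · -- the clique spans the whole window
    have hCN : CN (MZ m) σ = {w | w.1 ∈ Finset.Icc (0 : ℤ) m \ P} := by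
      ext w
      constructor
      · intro hw
        have h1 := hw0 w hw
        have h2 := hwD w hw
        have h3 := hnotP w hw
        simp only [Set.mem_ofPred_eq, mem_sdiff, Finset.mem_Icc]
        refine ⟨⟨?_, ?_⟩, h3⟩
        · rcases h2 with h | ⟨h, _⟩ <;> omega
        · rcases h1 with h | ⟨h, _⟩ <;> omega
      · intro hw
        simp only [Set.mem_ofPred_eq, mem_sdiff, Finset.mem_Icc] at hw
        obtain ⟨⟨h1, h2⟩, h3⟩ := hw
        intro s hs
        have hsP : s.1 ∈ P := mem_image.mpr ⟨s, hs, rfl⟩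
        have h4 := hPm s.1 hsP
        have h5 : w.1 ≠ s.1 := fun h => h3 (h ▸ hsP)
        have h6 : w.1 ≠ 0 := fun h => h3 (h ▸ h0P)
        have h7 : w.1 ≠ m := fun h => h3 (by rw [h, ← hDm']; exact hDP)
        rw [MZ_adj]
        exact ⟨by omega, Or.inl (by omega)⟩
    have hP' : ∀ p ∈ Finset.Icc (0 : ℤ) m \ P, 0 < p ∧ p < m := by
      intro p hp
      simp only [mem_sdiff, Finset.mem_Icc] at hp
      obtain ⟨⟨h1, h2⟩, h3⟩ := hp
      have h6 : p ≠ 0 := fun h => h3 (h ▸ h0P)
      have h7 : p ≠ m := fun h => h3 (by rw [h, ← hDm']; exact hDP)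
      omega
    refine ⟨(Finset.Icc (0 : ℤ) m \ P).card, ?_, ?_⟩
    · have hsub : P ⊆ Finset.Icc (0 : ℤ) m := fun p hp => Finset.mem_Icc.mpr (hPm p hp)
      rw [Finset.card_sdiff_of_subset hsub, hcard, Int.card_Icc]
      have : P.card ≤ (Finset.Icc (0 : ℤ) m).card := Finset.card_le_card hsub
      rw [hcard, Int.card_Icc] at this
      omega
    · rw [hCN]
      exact cross_Sp _ (MZ_cross_adj hP') MZ_cross_non
  · -- the clique does not span the window
    have hCN : ∀ w, w ∈ CN (MZ m) σ ↔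
        (D - m < w.1 ∧ w.1 < m ∧ w.1 ∉ P) ∨ w = (D - m, sD.2) ∨ w = ((m : ℤ), e₀) := by
      intro w
      constructor
      · intro hw
        have h1 := hw0 w hw
        have h2 := hwD w hw
        have h3 := hnotP w hw
        by_cases h4 : w.1 = m
        · right; right
          rcases h1 with h | ⟨_, h⟩
          · omega
          · exact Prod.ext h4 h.symm
        · by_cases h5 : w.1 = D - m
          · right; left
            rcases h2 with h | ⟨_, h⟩
            · omega
            · exact Prod.ext h5 h.symm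
          · left
            refine ⟨?_, ?_, h3⟩
            · rcases h2 with h | ⟨h, _⟩ <;> omega
            · rcases h1 with h | ⟨h, _⟩ <;> omega
      · intro hw s hs
        have hsP : s.1 ∈ P := mem_image.mpr ⟨s, hs, rfl⟩
        have h4 := hPm s.1 hsP
        have h4' := hDle s.1 hsP
        rw [MZ_adj]
        rcases hw with ⟨h1, h2, h3⟩ | h | h
        · have h5 : w.1 ≠ s.1 := fun h => h3 (h ▸ hsP)
          exact ⟨by omega, Or.inl (by omega)⟩
        · have h1 : w.1 = D - m := by rw [h]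
          refine ⟨by omega, ?_⟩
          by_cases h2 : s.1 = D
          · right
            have : s = sD := hinj s hs sD hsD (by rw [h2, hsD1])
            refine ⟨by omega, ?_⟩
            rw [this, h]
          · left; omega
        · have h1 : w.1 = m := by rw [h]
          refine ⟨by omega, ?_⟩
          by_cases h2 : s.1 = 0
          · right
            have : s = (0, e₀) := hinj s hs _ h0 h2
            refine ⟨by omega, ?_⟩
            rw [this, h]
          · left; omega
    have hP' : ∀ p ∈ Finset.Ico (0 : ℤ) m \ P, 0 < p ∧ p < m := by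
      intro p hp
      simp only [mem_sdiff, Finset.mem_Ico] at hp
      obtain ⟨⟨h1, h2⟩, h3⟩ := hp
      have h6 : p ≠ 0 := fun h => h3 (h ▸ h0P)
      omega
    refine ⟨(Finset.Ico (0 : ℤ) m \ P).card + 1, ?_, ?_⟩
    · have hsub : P ⊆ Finset.Ico (0 : ℤ) m := fun p hp =>
        Finset.mem_Ico.mpr ⟨(hPm p hp).1, lt_of_le_of_lt (hDle p hp) hDm'⟩
      rw [Finset.card_sdiff_of_subset hsub, hcard, Int.card_Ico]
      have : P.card ≤ (Finset.Ico (0 : ℤ) m).card := Finset.card_le_card hsub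
      rw [hcard, Int.card_Ico] at this
      omega
    · refine Sp.susp _ _ ((m : ℤ), e₀) ((hCN _).mpr (Or.inr (Or.inr rfl))) ?_ ?_
      · have hB : {w | w ∈ CN (MZ m) σ ∧ w ≠ ((m : ℤ), e₀)} =
            {w | (D - m < w.1 ∧ w.1 < D + 1 + ((m - 1 - D).toNat : ℤ) ∧ w.1 ∉ P) ∨
              w = (D - m, sD.2)} := by
          have e1 : D + 1 + ((m - 1 - D).toNat : ℤ) = m := by omega
          rw [e1]
          ext w
          constructor
          · rintro ⟨h1, h2⟩
            rcases (hCN w).mp h1 with h | h | h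
            · exact Or.inl h
            · exact Or.inr h
            · exact absurd h h2
          · intro hw
            have hne : w.1 ≠ m := by
              rcases hw with ⟨_, h, _⟩ | h
              · omega
              · have : w.1 = D - m := by rw [h]
                omega
            refine ⟨(hCN w).mpr ?_, fun h => hne (by rw [h])⟩
            rcases hw with h | h
            · exact Or.inl h
            · exact Or.inr (Or.inl h)
        rw [hB]
        exact MZ_acyc m P D hD0 hDm' hDP (fun p hp => ⟨(hPm p hp).1, hDle p hp⟩) _ _ (by omega)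
      · have hB : {w | w ∈ CN (MZ m) σ ∧ (MZ m).Adj ((m : ℤ), e₀) w} =
            {w | w.1 ∈ Finset.Ico (0 : ℤ) m \ P} := by
          ext w
          simp only [Set.mem_ofPred_eq, mem_sdiff, Finset.mem_Ico]
          constructor
          · rintro ⟨h1, h2⟩
            have h3 := hnotP w h1
            rw [MZ_adj] at h2
            dsimp only at h2
            obtain ⟨h4, h5⟩ := h2
            rcases (hCN w).mp h1 with ⟨h6, h7, _⟩ | h6 | h6
            · refine ⟨⟨?_, h7⟩, h3⟩
              rcases h5 with h | ⟨h, _⟩ <;> omega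
            · have h7 : w.1 = D - m := by rw [h6]
              exfalso
              rcases h5 with h | ⟨h, _⟩ <;> omega
            · have h7 : w.1 = m := by rw [h6]
              omega
          · rintro ⟨⟨h1, h2⟩, h3⟩
            have h6 : w.1 ≠ 0 := fun h => h3 (h ▸ h0P)
            refine ⟨(hCN w).mpr (Or.inl ⟨by omega, h2, h3⟩), ?_⟩
            rw [MZ_adj]
            dsimp only
            exact ⟨by omega, Or.inl (by omega)⟩
        rw [hB]
        exact cross_Sp _ (MZ_cross_adj hP') MZ_cross_non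

section Ring

variable {m N : ℕ}

theorem cast_valMinAbs (z : ℤ) (hz : 2 * z.natAbs < N) : ((z : ZMod N)).valMinAbs = z := by
  have : NeZero N := ⟨by omega⟩
  rw [ZMod.valMinAbs_spec]
  refine ⟨rfl, ?_, ?_⟩ <;> omega

/-- the chart at `p` -/
def chart (N : ℕ) (p : ZMod N) (w : ℤ × Bool) : ZMod N × Bool := (p + (w.1 : ZMod N), w.2)

theorem chart_sub (p : ZMod N) (x y : ℤ × Bool) (h : 2 * (x.1 - y.1).natAbs < N) :
    ((chart N p x).1 - (chart N p y).1).valMinAbs = x.1 - y.1 := by
  have : (chart N p x).1 - (chart N p y).1 = ((x.1 - y.1 : ℤ) : ZMod N) := by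
    unfold chart; push_cast; ring
  rw [this, cast_valMinAbs _ h]

theorem chart_adj (p : ZMod N) (x y : ℤ × Bool) (h : 2 * (x.1 - y.1).natAbs < N) :
    (MZ m).Adj x y ↔ (MG m N).Adj (chart N p x) (chart N p y) := by
  rw [MZ_adj, MG_adj, chart_sub p x y h]
  rfl

theorem chart_inj (p : ZMod N) (x y : ℤ × Bool) (h : 2 * (x.1 - y.1).natAbs < N)
    (he : chart N p x = chart N p y) : x = y := by
  have h1 := chart_sub p x y h
  rw [he, sub_self, ZMod.valMinAbs_zero] at h1
  have h2 : (chart N p x).2 = (chart N p y).2 := by rw [he]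
  exact Prod.ext (by omega) h2

theorem chart_surj (p : ZMod N) (w : ZMod N × Bool) :
    chart N p ((w.1 - p).valMinAbs, w.2) = w := by
  unfold chart
  simp

/-- every nonempty clique has a first element -/
theorem exists_base (hN : 4 * m < N) (σ : Finset (ZMod N × Bool))
    (hσ : σ ∈ (cliqueCx (MG m N)).faces) (hne : σ.Nonempty) :
    ∃ b ∈ σ, ∀ s ∈ σ, 0 ≤ (s.1 - b.1).valMinAbs ∧ (s.1 - b.1).valMinAbs ≤ m := by
  obtain ⟨s₀, hs₀⟩ := hne
  obtain ⟨b, hb, hmin⟩ := Finset.exists_min_image σ (fun s => (s.1 - s₀.1).valMinAbs) ⟨s₀, hs₀⟩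
  refine ⟨b, hb, ?_⟩
  have hle : ∀ s ∈ σ, ∀ t ∈ σ, (s.1 - t.1).valMinAbs.natAbs ≤ m := by
    intro s hs t ht
    by_cases h : s = t
    · rw [h]; simp
    · rcases (hσ s hs t ht h).2 with h' | ⟨h', _⟩
      · exact h'.le
      · exact h'.le
  intro s hs
  have h1 := hmin s hs
  have h2 := hle s hs s₀ hs₀
  have h3 := hle b hb s₀ hs₀
  have h4 : s.1 - b.1 = (((s.1 - s₀.1).valMinAbs - (b.1 - s₀.1).valMinAbs : ℤ) : ZMod N) := by
    push_cast
    ring
  have h5 : (s.1 - b.1).valMinAbs = (s.1 - s₀.1).valMinAbs - (b.1 - s₀.1).valMinAbs := by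
    rw [h4, cast_valMinAbs]
    omega
  have h6 := hle s hs b hb
  constructor
  · rw [h5]; linarith
  · omega

theorem MG_mfd (hm : 1 ≤ m) (hN : 4 * m < N) : GraphMfd (MG m N) (m + 1) := by
  classical
  intro σ hσ hne
  obtain ⟨b, hb, hbase⟩ := exists_base hN σ hσ hne
  set ψ : ZMod N × Bool → ℤ × Bool := fun w => ((w.1 - b.1).valMinAbs, w.2) with hψ
  have hφψ : ∀ w, chart N b.1 (ψ w) = w := chart_surj b.1
  set σ' : Finset (ℤ × Bool) := σ.image ψ with hσ'
  have hψinj : Function.Injective ψ := fun x y h => by rw [← hφψ x, ← hφψ y, h]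
  have hcard : σ'.card = σ.card := Finset.card_image_of_injective _ hψinj
  have hwin : ∀ s ∈ σ', 0 ≤ s.1 ∧ s.1 ≤ m := by
    intro s hs
    obtain ⟨t, ht, rfl⟩ := mem_image.mp hs
    exact hbase t ht
  have hσ'c : σ' ∈ (cliqueCx (MZ m)).faces := by
    intro x hx y hy hxy
    obtain ⟨x', hx', rfl⟩ := mem_image.mp hx
    obtain ⟨y', hy', rfl⟩ := mem_image.mp hy
    have h1 := hwin _ hx
    have h2 := hwin _ hy
    rw [chart_adj b.1 (ψ x') (ψ y') (by omega), hφψ, hφψ]
    exact hσ x' hx' y' hy' (fun h => hxy (by rw [h]))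
  have h0 : (0, b.2) ∈ σ' := mem_image.mpr ⟨b, hb, by simp [hψ]⟩
  obtain ⟨k, hk, hsp⟩ := MZ_link m σ' hσ'c b.2 h0 (fun s hs => (hwin s hs).1) hm
  rw [hcard] at hk
  refine ⟨k, hk, ?_⟩
  have hwin2 : ∀ x ∈ CN (MZ m) σ', x.1.natAbs ≤ m := by
    intro x hx
    rcases (hx _ h0).2 with h | ⟨h, _⟩ <;> dsimp only at h <;> omega
  have hCN : CN (MG m N) σ = chart N b.1 '' CN (MZ m) σ' := by
    ext w
    constructor
    · intro hw
      have hw0 : (ψ w).1.natAbs ≤ m := by
        have h1 : (w.1 - b.1).valMinAbs.natAbs = (b.1 - w.1).valMinAbs.natAbs := by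
          rw [← neg_sub w.1 b.1, ZMod.natAbs_valMinAbs_neg]
        change (w.1 - b.1).valMinAbs.natAbs ≤ m
        rw [h1]
        rcases (hw b hb).2 with h | ⟨h, _⟩
        · exact h.le
        · exact h.le
      refine ⟨ψ w, ?_, hφψ w⟩
      intro s hs
      obtain ⟨t, ht, rfl⟩ := mem_image.mp hs
      have h2 := hwin _ hs
      rw [chart_adj b.1 _ _ (by omega), hφψ, hφψ]
      exact hw t ht
    · rintro ⟨x, hx, rfl⟩ s hs
      have h1 := hwin2 x hx
      have hs' : ψ s ∈ σ' := mem_image_of_mem _ hs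
      have h2 := hwin _ hs'
      have := hx _ hs'
      rw [chart_adj b.1 _ _ (by omega), hφψ] at this
      exact this
  rw [hCN]
  refine hsp.map ?_ ?_
  · intro x hx y hy h
    have h1 := hwin2 x hx
    have h2 := hwin2 y hy
    exact chart_inj b.1 x y (by omega) h
  · intro x hx y hy
    have h1 := hwin2 x hx
    have h2 := hwin2 y hy
    exact chart_adj b.1 x y (by omega)

end Ring

end Pool.Agent.H66.Flag
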